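import Pool.Agent.Lib.H71S.LMOps

set_option autoImplicit false

/-!
# Contraction of the components outside of an independent set
-/

namespace H71S

open Equiv Equiv.Perm
open Pool.Agent.Lib.CookLevin

variable {X : Type}

/-- connectedness outside of `W` -/
def cn (G : SimpleGraph X) (W : Set X) : Setoid X :=
  Relation.EqvGen.setoid (fun x y => x ∉ W ∧ y ∉ W ∧ G.Adj x y)

/-- the map after some contractions and deletions outside of `W` -/
structure Ct (G : SimpleGraph X) (W : Set X) (φ α : Perm G.Dart) (rp : X → X) : Prop where
  lm : LM φ α (fun d => rp d.fst)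
  sub : ∀ d, α d = d.symm ∨ α d = d
  fixW : ∀ y ∈ W, rp y = y
  con : ∀ x ∉ W, rp x ∉ W ∧ cn G W x (rp x)
  live : ∀ d : G.Dart, (d.fst ∈ W ∨ d.snd ∈ W) → α d = d.symm
  dead : ∀ d : G.Dart, d.fst ∉ W → d.snd ∉ W → α d = d → rp d.fst = rp d.snd

theorem live_lt {D : Type} [Finite D] {α α2 : Perm D} {r r' : D} (hr : α r = r') (hne : r ≠ r')
    {φ φ2 : Perm D} (hk : Killed φ α φ2 α2 r r') :
    Nat.card {d // α2 d ≠ d} < Nat.card {d // α d ≠ d} := by
  have h1 : {d | α2 d ≠ d} ⊂ {d | α d ≠ d} := by
    refine ⟨fun d hd => ?_, fun hc => ?_⟩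
    · have h1 : d ≠ r := fun hc => hd (by rw [hc, hk.a1])
      have h2 : d ≠ r' := fun hc => hd (by rw [hc, hk.a2])
      have h3 : α2 d ≠ d := hd
      rw [hk.a3 d h1 h2] at h3
      exact h3
    · have h3 : r ∈ {d | α d ≠ d} := by
        change α r ≠ r
        rw [hr]; exact hne.symm
      exact hc h3 hk.a1
  exact Set.ncard_lt_ncard h1 (Set.toFinite _)

theorem contract_all [Finite X] {G : SimpleGraph X} (W : Set X)
    (R : RotationSystem G)
    (h : Nat.card X + (R.numFaces + Nat.card {v : X // ∀ w, ¬ G.Adj v w}) =
      Nat.card G.edgeSet + 2 * Nat.card G.ConnectedComponent) :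
    ∃ (φ α : Perm G.Dart) (rp : X → X), Ct G W φ α rp ∧
      ∀ d : G.Dart, α d ≠ d → d.fst ∈ W ∨ d.snd ∈ W := by
  classical
  have hstart : Ct G W R.face (dartSymm G) id := by
    refine ⟨rot_LM R h, fun d => Or.inl rfl, fun y _ => rfl,
      fun x hx => ⟨hx, (cn G W).refl _⟩, fun d _ => rfl, ?_⟩
    intro d _ _ hd
    exact absurd hd (SimpleGraph.Dart.symm_ne d)
  have key : ∀ (n : ℕ) (φ α : Perm G.Dart) (rp : X → X), Ct G W φ α rp →
      Nat.card {d // α d ≠ d} ≤ n → ∃ (φ α : Perm G.Dart) (rp : X → X), Ct G W φ α rp ∧
      ∀ d : G.Dart, α d ≠ d → d.fst ∈ W ∨ d.snd ∈ W := by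
    intro n
    induction n with
    | zero =>
      intro φ α rp hc hn
      refine ⟨φ, α, rp, hc, fun d hd => ?_⟩
      exfalso
      have : Nonempty {d // α d ≠ d} := ⟨⟨d, hd⟩⟩
      have := Nat.card_pos (α := {d // α d ≠ d})
      omega
    | succ n ih =>
      intro φ α rp hc hn
      by_cases hall : ∀ d : G.Dart, α d ≠ d → d.fst ∈ W ∨ d.snd ∈ W
      · exact ⟨φ, α, rp, hc, hall⟩
      push Not at hall
      obtain ⟨r, hr, hr1, hr2⟩ := hall
      have hrs : α r = r.symm := (hc.sub r).resolve_right hr
      have hne : r ≠ r.symm := fun h => hr (by rw [hrs]; exact h.symm)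
      by_cases hl : rp r.fst = rp r.snd
      · -- a loop
        obtain ⟨φ2, α2, hlm, hk⟩ := hc.lm.del hrs hne
        have hlt := live_lt hrs hne hk
        refine ih φ2 α2 rp ⟨hlm, ?_, hc.fixW, hc.con, ?_, ?_⟩ (by omega)
        · intro d
          by_cases h1 : d = r
          · right; rw [h1]; exact hk.a1
          · by_cases h2 : d = r.symm
            · right; rw [h2]; exact hk.a2
            · rw [hk.a3 d h1 h2]; exact hc.sub d
        · intro d hd
          have h1 : d ≠ r := by
            rintro rfl
            rcases hd with hd | hd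
            · exact hr1 hd
            · exact hr2 hd
          have h2 : d ≠ r.symm := by
            rintro rfl
            rcases hd with hd | hd
            · exact hr2 hd
            · exact hr1 hd
          rw [hk.a3 d h1 h2]
          exact hc.live d hd
        · intro d hd1 hd2 hd3
          by_cases h1 : d = r
          · rw [h1]; exact hl
          · by_cases h2 : d = r.symm
            · rw [h2]; exact hl.symm
            · rw [hk.a3 d h1 h2] at hd3
              exact hc.dead d hd1 hd2 hd3
      · -- contraction
        obtain ⟨φ2, α2, hlm, hk⟩ := hc.lm.contract (r := r) (r' := r.symm) hrs hl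
        have hlt := live_lt hrs hne hk
        have hnW : rp r.fst ∉ W := (hc.con r.fst hr1).1
        have hnW' : rp r.snd ∉ W := (hc.con r.snd hr2).1
        refine ih φ2 α2 (fun x => if rp x = rp r.fst then rp r.snd else rp x)
          ⟨hlm, ?_, ?_, ?_, ?_, ?_⟩ (by omega)
        · intro d
          by_cases h1 : d = r
          · right; rw [h1]; exact hk.a1
          · by_cases h2 : d = r.symm
            · right; rw [h2]; exact hk.a2
            · rw [hk.a3 d h1 h2]; exact hc.sub d
        · intro y hy
          have h1 : rp y = y := hc.fixW y hy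
          have h2 : rp y ≠ rp r.fst := fun h3 => hnW (by rw [← h3, h1]; exact hy)
          simp only [if_neg h2]
          exact h1
        · intro x hx
          by_cases h1 : rp x = rp r.fst
          · simp only [if_pos h1]
            refine ⟨hnW', ?_⟩
            have c1 : cn G W x (rp r.fst) := by rw [← h1]; exact (hc.con x hx).2
            have c2 : cn G W (rp r.fst) r.fst := (cn G W).symm (hc.con r.fst hr1).2
            have c3 : cn G W r.fst r.snd := Relation.EqvGen.rel _ _ ⟨hr1, hr2, r.adj⟩
            have c4 : cn G W r.snd (rp r.snd) := (hc.con r.snd hr2).2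
            exact (cn G W).trans c1 ((cn G W).trans c2 ((cn G W).trans c3 c4))
          · simp only [if_neg h1]
            exact hc.con x hx
        · intro d hd
          have h1 : d ≠ r := by
            rintro rfl
            rcases hd with hd | hd
            · exact hr1 hd
            · exact hr2 hd
          have h2 : d ≠ r.symm := by
            rintro rfl
            rcases hd with hd | hd
            · exact hr2 hd
            · exact hr1 hd
          rw [hk.a3 d h1 h2]
          exact hc.live d hd
        · intro d hd1 hd2 hd3
          by_cases h1 : d = r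
          · rw [h1]
            simp only [if_true]
            rw [if_neg (fun h => hl h.symm)]
          · by_cases h2 : d = r.symm
            · rw [h2]
              change (if rp r.snd = rp r.fst then rp r.snd else rp r.snd) =
                (if rp r.fst = rp r.fst then rp r.snd else rp r.fst)
              rw [if_pos rfl, if_neg (fun h => hl h.symm)]
            · rw [hk.a3 d h1 h2] at hd3
              have := hc.dead d hd1 hd2 hd3
              simp only [this]
  exact key _ _ _ _ hstart le_rfl

end H71S
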