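import Pool.Agent.Lib.H71S.InsOut

set_option autoImplicit false

namespace H71S

variable {V : Type}

theorem call [DecidableEq V] {P : List V} {y : V} {I : List V} {F : List (V × V × V)}
    (h : Reg P y I F) : ∀ (l r : V → ℝ) (a0 b0 a1 b1 : ℝ), Start l r P y I a0 b0 a1 b1 →
    ∃ (l' r' : V → ℝ) (S : Set (ℝ × ℝ)), (∀ a, a ∉ I → l' a = l a ∧ r' a = r a) ∧
      Out l' r' P y I F a0 b0 a1 b1 S := by
  induction h with
  | nil x y =>
    intro l r a0 b0 a1 b1 hs
    exact ⟨l, r, _, fun a _ => ⟨rfl, rfl⟩, call_nil x y l r a0 b0 a1 b1 hs⟩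
  | @rem P a b y I F h ih =>
    intro l r a0 b0 a1 b1 hs
    obtain ⟨s1, s2, a0', b0', h1, h2, h3, h4, h5, h6, h7, hs'⟩ := rem_start hs
    obtain ⟨l', r', S, hch, ho⟩ := ih l r a0' b0' a1 b1 hs'
    have hnd := hs.nd
    rw [List.nodup_append] at hnd
    obtain ⟨_, hnd2, hnd3⟩ := hnd
    rw [List.nodup_cons] at hnd2
    have hPI : ∀ w ∈ P ++ [a, b], w ∉ I := fun w hw hc =>
      hnd3 w hw w (List.mem_cons_of_mem _ hc) rfl
    have hs2 : Start l' r' (P ++ [a, b]) y I a0 b0 a1 b1 := by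
      refine hs.congr ?_
      intro w hw
      rcases List.mem_append.1 hw with hw | hw
      · exact hch w (hPI w hw)
      · simp at hw; rw [hw]; exact hch y hnd2.1
    have hb : r' b = r b := (hch b (hPI b (by simp))).2
    refine ⟨l', r', _, hch, rem_out hs2 h1 h2 h3 h4 ?_ ?_ h7 ho⟩
    · rw [hb]; exact h5
    · rw [hb]; exact h6
  | @ins P Q R q a z y I J F G hq h1 h2 ih1 ih2 =>
    intro l r a0 b0 a1 b1 hs
    obtain ⟨L, κ, μ, n⟩ := exists_nums hs hq
    -- disjointness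
    have hnd := hs.nd
    rw [List.nodup_append] at hnd
    obtain ⟨hnd1, hnd2, hnd3⟩ := hnd
    rw [List.nodup_cons] at hnd2
    obtain ⟨hyn, hzn⟩ := hnd2
    rw [List.nodup_cons] at hzn
    obtain ⟨hzn, hIJ⟩ := hzn
    rw [List.nodup_append] at hIJ
    obtain ⟨_, _, hIJ⟩ := hIJ
    have hPz : ∀ w ∈ P ++ q :: Q, w ≠ z := fun w hw hc =>
      hnd3 w hw z (by simp) hc
    have hPI : ∀ w ∈ P ++ q :: Q, w ∉ I := fun w hw hc =>
      hnd3 w hw w (by simp [hc]) rfl
    have hPJ : ∀ w ∈ P ++ q :: Q, w ∉ J := fun w hw hc =>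
      hnd3 w hw w (by simp [hc]) rfl
    have hyz : y ≠ z := fun hc => hyn (by simp [hc])
    have hyI : y ∉ I := fun hc => hyn (by simp [hc])
    have hyJ : y ∉ J := fun hc => hyn (by simp [hc])
    have hzI : z ∉ I := fun hc => hzn (by simp [hc])
    have hzJ : z ∉ J := fun hc => hzn (by simp [hc])
    have haqQ : a ∈ q :: Q := by rw [hq]; simp
    have haP : a ∈ P ++ q :: Q := List.mem_append_right _ haqQ
    -- place z
    set l0 := Function.update l z (a0 + 2 * κ) with hl0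
    set r0 := Function.update r z (L + 3 * κ) with hr0
    have c0 : ∀ w, w ≠ z → l0 w = l w ∧ r0 w = r w := fun w hw =>
      ⟨Function.update_of_ne hw _ _, Function.update_of_ne hw _ _⟩
    have z0 : l0 z = a0 + 2 * κ ∧ r0 z = L + 3 * κ :=
      ⟨Function.update_self _ _ _, Function.update_self _ _ _⟩
    have hs0 : Start l0 r0 (P ++ q :: Q) y (z :: (I ++ J)) a0 b0 a1 b1 := by
      refine hs.congr ?_
      intro w hw
      rcases List.mem_append.1 hw with hw | hw
      · exact c0 w (hPz w hw)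
      · simp at hw; rw [hw]; exact c0 y hyz
    have n0 : Nums r0 P q Q a a0 b0 a1 b1 L κ μ :=
      n.congr (fun w hw => (c0 w (hPz w (List.mem_append_right _ hw))).2) (c0 a (hPz a haP)).2
    obtain ⟨l1, r1, S1, hch1, ho1⟩ := ih1 l0 r0 _ _ _ _ (ins_start1 hs0 hq n0 z0.1 z0.2)
    have hs1 : Start l1 r1 (P ++ q :: Q) y (z :: (I ++ J)) a0 b0 a1 b1 := by
      refine hs0.congr ?_
      intro w hw
      rcases List.mem_append.1 hw with hw | hw
      · exact hch1 w (hPI w hw)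
      · simp at hw; rw [hw]; exact hch1 y hyI
    have n1 : Nums r1 P q Q a a0 b0 a1 b1 L κ μ :=
      n0.congr (fun w hw => (hch1 w (hPI w (List.mem_append_right _ hw))).2)
        (hch1 a (hPI a haP)).2
    have z1 : l1 z = a0 + 2 * κ ∧ r1 z = L + 3 * κ := by
      rw [(hch1 z hzI).1, (hch1 z hzI).2]; exact z0
    obtain ⟨l2, r2, S2, hch2, ho2⟩ := ih2 l1 r1 _ _ _ _ (ins_start2 hs1 hq n1 z1.1 z1.2)
    have hs2 : Start l2 r2 (P ++ q :: Q) y (z :: (I ++ J)) a0 b0 a1 b1 := by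
      refine hs1.congr ?_
      intro w hw
      rcases List.mem_append.1 hw with hw | hw
      · exact hch2 w (hPJ w hw)
      · simp at hw; rw [hw]; exact hch2 y hyJ
    have n2 : Nums r2 P q Q a a0 b0 a1 b1 L κ μ :=
      n1.congr (fun w hw => (hch2 w (hPJ w (List.mem_append_right _ hw))).2)
        (hch2 a (hPJ a haP)).2
    have z2 : l2 z = a0 + 2 * κ ∧ r2 z = L + 3 * κ := by
      rw [(hch2 z hzJ).1, (hch2 z hzJ).2]; exact z1
    have ho1' : Out l2 r2 (q :: Q) z I F (a0 + 3 * κ) (b0 + 3 * (μ - b0) / 4)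
        (a0 + 7 * κ / 2) (L + κ) S1 := by
      refine ho1.congr ?_
      intro w hw
      refine hch2 w ?_
      rcases List.mem_append.1 hw with hw | hw
      · exact hPJ w (List.mem_append_right _ hw)
      · rcases List.mem_cons.1 hw with rfl | hw
        · exact hzJ
        · exact fun hc => hIJ w hw w hc rfl
    refine ⟨l2, r2, _, ?_, ins_out hs2 hq n2 z2.1 z2.2 ho1' ho2⟩
    intro w hw
    have hwz : w ≠ z := fun hc => hw (by simp [hc])
    have hwI : w ∉ I := fun hc => hw (by simp [hc])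
    have hwJ : w ∉ J := fun hc => hw (by simp [hc])
    rw [(hch2 w hwJ).1, (hch2 w hwJ).2, (hch1 w hwI).1, (hch1 w hwI).2]
    exact c0 w hwz

end H71S
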