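import Pool.Agent.Lib.H71S.Defs

set_option autoImplicit false

namespace H71S

variable {V : Type}

/-- `a` is active at the slot `s` -/
def Act (l r : V → ℝ) (s : ℝ × ℝ) (a : V) : Prop := l a < s.1 ∧ s.2 < r a

/-- `a` is active, unborn or dead at the slot `s` -/
def Good (l r : V → ℝ) (s : ℝ × ℝ) (a : V) : Prop :=
  (Act l r s a ∨ (s.1 < l a ∧ s.2 < r a) ∨ (l a < s.1 ∧ r a < s.2)) ∧ l a + r a ≠ s.1 + s.2

/-- the slot `s` serves the pair `a, b` -/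
def PairS (A : List V) (l r : V → ℝ) (s : ℝ × ℝ) (a b : V) : Prop :=
  a ∈ A ∧ b ∈ A ∧ Act l r s a ∧ Act l r s b ∧ l a + r a < s.1 + s.2 ∧ s.1 + s.2 < l b + r b ∧
  ∀ w ∈ A, w ≠ a → w ≠ b → Act l r s w → l w + r w < l a + r a ∨ l b + r b < l w + r w

/-- the slot `s` serves the triple `a, b, c` -/
def FaceS (A : List V) (l r : V → ℝ) (s : ℝ × ℝ) (a b c : V) : Prop :=
  a ∈ A ∧ b ∈ A ∧ c ∈ A ∧ Act l r s a ∧ Act l r s b ∧ Act l r s c ∧
  ∀ w ∈ A, w ≠ a → w ≠ b → w ≠ c → Act l r s w →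
    (l w + r w < s.1 + s.2 ∧ l w + r w < l a + r a ∧ l w + r w < l b + r b ∧
      l w + r w < l c + r c) ∨
    (s.1 + s.2 < l w + r w ∧ l a + r a < l w + r w ∧ l b + r b < l w + r w ∧
      l c + r c < l w + r w)

/-- consecutive in a list -/
def Consec (L : List V) (a b : V) : Prop := ∃ X Y, L = X ++ a :: b :: Y

/-- the pair `a, b` is consecutive on the path `L` or served by a slot -/
def PP (A : List V) (l r : V → ℝ) (S : Set (ℝ × ℝ)) (L : List V) (a b : V) : Prop :=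
  Consec L a b ∨ ∃ s ∈ S, PairS A l r s a b

/-- vertices outside of a list `A`, which do not disturb `A` at the slot `s` -/
def OutS (A : List V) (l r : V → ℝ) (s : ℝ × ℝ) (w : V) : Prop :=
  ¬ Act l r s w ∨ (l w + r w < s.1 + s.2 ∧ ∀ a ∈ A, l w + r w < l a + r a) ∨
    (s.1 + s.2 < l w + r w ∧ ∀ a ∈ A, l a + r a < l w + r w)

theorem PairS.lift {A B : List V} {l r : V → ℝ} {s : ℝ × ℝ} {a b : V} (h : PairS A l r s a b)
    (hAB : ∀ w ∈ A, w ∈ B) (hB : ∀ w ∈ B, w ∈ A ∨ OutS A l r s w) : PairS B l r s a b := by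
  obtain ⟨ha, hb, h1, h2, h3, h4, h5⟩ := h
  refine ⟨hAB a ha, hAB b hb, h1, h2, h3, h4, fun w hw hwa hwb hact => ?_⟩
  rcases hB w hw with h6 | h6 | h6 | h6
  · exact h5 w h6 hwa hwb hact
  · exact absurd hact h6
  · exact Or.inl (h6.2 a ha)
  · exact Or.inr (h6.2 b hb)

theorem FaceS.lift {A B : List V} {l r : V → ℝ} {s : ℝ × ℝ} {a b c : V}
    (h : FaceS A l r s a b c)
    (hAB : ∀ w ∈ A, w ∈ B) (hB : ∀ w ∈ B, w ∈ A ∨ OutS A l r s w) : FaceS B l r s a b c := by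
  obtain ⟨ha, hb, hc, h1, h2, h3, h5⟩ := h
  refine ⟨hAB a ha, hAB b hb, hAB c hc, h1, h2, h3, fun w hw hwa hwb hwc hact => ?_⟩
  rcases hB w hw with h6 | h6 | h6 | h6
  · exact h5 w h6 hwa hwb hwc hact
  · exact absurd hact h6
  · exact Or.inl ⟨h6.1, h6.2 a ha, h6.2 b hb, h6.2 c hc⟩
  · exact Or.inr ⟨h6.1, h6.2 a ha, h6.2 b hb, h6.2 c hc⟩

theorem PP.lift {A B : List V} {l r : V → ℝ} {S T : Set (ℝ × ℝ)} {L M : List V} {a b : V}
    (h : PP A l r S L a b) (hST : ∀ s ∈ S, s ∈ T)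
    (hAB : ∀ w ∈ A, w ∈ B) (hB : ∀ s ∈ S, ∀ w ∈ B, w ∈ A ∨ OutS A l r s w)
    (hL : Consec L a b → PP B l r T M a b) : PP B l r T M a b := by
  rcases h with h | ⟨s, hs, h⟩
  · exact hL h
  · exact Or.inr ⟨s, hST s hs, h.lift hAB (hB s hs)⟩

/-- input of a call -/
structure Start (l r : V → ℝ) (P : List V) (y : V) (I : List V) (a0 b0 a1 b1 : ℝ) : Prop where
  nd : (P ++ y :: I).Nodup
  ha : a0 < a1
  hb : b0 < b1
  lP : ∀ p ∈ P, l p < a0
  rP : ∀ p ∈ P, b0 < r p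
  zP : ∀ p ∈ P, l p + r p < a0 + b0
  ly : l y < a0
  ry : b1 < r y
  zy : a1 + b1 < l y + r y
  mono : P.Pairwise (fun p q => l p + r p < l q + r q ∧ r q < r p)
  head : ∀ p P', P = p :: P' → b1 < r p ∧ ∀ q ∈ P', r q < b1

/-- the slots form a chain -/
def Chain (S : Set (ℝ × ℝ)) : Prop :=
  ∀ s ∈ S, ∀ t ∈ S, s = t ∨ (s.1 < t.1 ∧ s.2 < t.2) ∨ (t.1 < s.1 ∧ t.2 < s.2)

theorem Chain.union {S T : Set (ℝ × ℝ)} (hS : Chain S) (hT : Chain T)
    (h : ∀ s ∈ S, ∀ t ∈ T, s.1 < t.1 ∧ s.2 < t.2) : Chain (S ∪ T) := by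
  rintro s (hs | hs) t (ht | ht)
  · exact hS s hs t ht
  · exact Or.inr (Or.inl (h s hs t ht))
  · exact Or.inr (Or.inr (h t ht s hs))
  · exact hT s hs t ht

theorem Chain.singleton (s : ℝ × ℝ) : Chain {s} := by
  rintro a rfl b rfl
  exact Or.inl rfl

/-- output of a call -/
structure Out (l r : V → ℝ) (P : List V) (y : V) (I : List V) (F : List (V × V × V))
    (a0 b0 a1 b1 : ℝ) (S : Set (ℝ × ℝ)) : Prop where
  box : ∀ a ∈ I, a0 < l a ∧ l a < a1 ∧ b0 < r a ∧ r a < b1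
  inj : I.Pairwise (fun p q => l p + r p ≠ l q + r q)
  sbox : ∀ s ∈ S, a0 < s.1 ∧ s.1 < a1 ∧ b0 < s.2 ∧ s.2 < b1
  chain : Chain S
  good : ∀ s ∈ S, ∀ a ∈ P ++ y :: I, Good l r s a
  last : ∀ R a, P = R ++ [a] → ∃ s ∈ S, PairS (P ++ y :: I) l r s a y
  hd : ∀ a R, P = a :: R → ∃ s ∈ S, PairS (P ++ y :: I) l r s a y
  face : ∀ f ∈ F, ∃ s ∈ S, FaceS (P ++ y :: I) l r s f.1 f.2.1 f.2.2
  p1 : ∀ f ∈ F, PP (P ++ y :: I) l r S P f.1 f.2.1
  p2 : ∀ f ∈ F, PP (P ++ y :: I) l r S P f.2.1 f.2.2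
  p3 : ∀ f ∈ F, PP (P ++ y :: I) l r S P f.1 f.2.2

theorem Act.congr {l r l' r' : V → ℝ} {s : ℝ × ℝ} {a : V} (h : l' a = l a ∧ r' a = r a) :
    Act l' r' s a ↔ Act l r s a := by
  unfold Act; rw [h.1, h.2]

theorem PairS.congr {A : List V} {l r l' r' : V → ℝ} {s : ℝ × ℝ} {a b : V}
    (h : PairS A l r s a b) (hA : ∀ w ∈ A, l' w = l w ∧ r' w = r w) : PairS A l' r' s a b := by
  obtain ⟨ha, hb, h1, h2, h3, h4, h5⟩ := h
  refine ⟨ha, hb, (Act.congr (hA a ha)).2 h1, (Act.congr (hA b hb)).2 h2, ?_, ?_, ?_⟩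
  · rw [(hA a ha).1, (hA a ha).2]; exact h3
  · rw [(hA b hb).1, (hA b hb).2]; exact h4
  · intro w hw hwa hwb hact
    rw [(hA a ha).1, (hA a ha).2, (hA b hb).1, (hA b hb).2, (hA w hw).1, (hA w hw).2]
    exact h5 w hw hwa hwb ((Act.congr (hA w hw)).1 hact)

theorem FaceS.congr {A : List V} {l r l' r' : V → ℝ} {s : ℝ × ℝ} {a b c : V}
    (h : FaceS A l r s a b c) (hA : ∀ w ∈ A, l' w = l w ∧ r' w = r w) :
    FaceS A l' r' s a b c := by
  obtain ⟨ha, hb, hc, h1, h2, h3, h5⟩ := h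
  refine ⟨ha, hb, hc, (Act.congr (hA a ha)).2 h1, (Act.congr (hA b hb)).2 h2,
    (Act.congr (hA c hc)).2 h3, ?_⟩
  intro w hw hwa hwb hwc hact
  rw [(hA a ha).1, (hA a ha).2, (hA b hb).1, (hA b hb).2, (hA c hc).1, (hA c hc).2,
    (hA w hw).1, (hA w hw).2]
  exact h5 w hw hwa hwb hwc ((Act.congr (hA w hw)).1 hact)

theorem PP.congr {A : List V} {l r l' r' : V → ℝ} {S : Set (ℝ × ℝ)} {L : List V} {a b : V}
    (h : PP A l r S L a b) (hA : ∀ w ∈ A, l' w = l w ∧ r' w = r w) : PP A l' r' S L a b := by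
  rcases h with h | ⟨s, hs, h⟩
  · exact Or.inl h
  · exact Or.inr ⟨s, hs, h.congr hA⟩

theorem Out.congr {l r l' r' : V → ℝ} {P : List V} {y : V} {I : List V} {F : List (V × V × V)}
    {a0 b0 a1 b1 : ℝ} {S : Set (ℝ × ℝ)} (h : Out l r P y I F a0 b0 a1 b1 S)
    (hA : ∀ w ∈ P ++ y :: I, l' w = l w ∧ r' w = r w) : Out l' r' P y I F a0 b0 a1 b1 S := by
  have hI : ∀ w ∈ I, l' w = l w ∧ r' w = r w := fun w hw => hA w (by simp [hw])
  refine ⟨?_, ?_, h.sbox, h.chain, ?_, ?_, ?_, ?_, ?_, ?_, ?_⟩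
  · intro a ha
    rw [(hI a ha).1, (hI a ha).2]
    exact h.box a ha
  · refine h.inj.imp_of_mem ?_
    intro a b ha hb hab
    rw [(hI a ha).1, (hI a ha).2, (hI b hb).1, (hI b hb).2]
    exact hab
  · intro s hs a ha
    have := h.good s hs a ha
    unfold Good at this ⊢
    rw [Act.congr (hA a ha), (hA a ha).1, (hA a ha).2]
    exact this
  · intro R a hR
    obtain ⟨s, hs, h1⟩ := h.last R a hR
    exact ⟨s, hs, h1.congr hA⟩
  · intro a R hR
    obtain ⟨s, hs, h1⟩ := h.hd a R hR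
    exact ⟨s, hs, h1.congr hA⟩
  · intro f hf
    obtain ⟨s, hs, h1⟩ := h.face f hf
    exact ⟨s, hs, h1.congr hA⟩
  · exact fun f hf => (h.p1 f hf).congr hA
  · exact fun f hf => (h.p2 f hf).congr hA
  · exact fun f hf => (h.p3 f hf).congr hA

theorem exists_bound (Q : List V) (f : V → ℝ) (c m : ℝ) (hc : c < m) (h : ∀ p ∈ Q, f p < m) :
    ∃ L, c ≤ L ∧ L < m ∧ ∀ p ∈ Q, f p ≤ L := by
  induction Q with
  | nil => exact ⟨c, le_rfl, hc, by simp⟩
  | cons q Q ih =>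
    obtain ⟨L, h1, h2, h3⟩ := ih fun p hp => h p (by simp [hp])
    refine ⟨max L (f q), h1.trans (le_max_left _ _), max_lt h2 (h q (by simp)), ?_⟩
    intro p hp
    rcases List.mem_cons.1 hp with rfl | hp
    · exact le_max_right _ _
    · exact (h3 p hp).trans (le_max_left _ _)

theorem call_nil (x y : V) (l r : V → ℝ) (a0 b0 a1 b1 : ℝ)
    (h : Start l r [x] y [] a0 b0 a1 b1) :
    Out l r [x] y [] [] a0 b0 a1 b1 {((a0 + a1) / 2, (b0 + b1) / 2)} := by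
  have ha := h.ha
  have hb := h.hb
  have h1 := h.lP x (by simp)
  have h2 := h.zP x (by simp)
  have h3 := (h.head x [] rfl).1
  have h4 := h.ly
  have h5 := h.ry
  have h6 := h.zy
  have hpair : PairS ([x] ++ [y]) l r ((a0 + a1) / 2, (b0 + b1) / 2) x y := by
    refine ⟨by simp, by simp, ⟨?_, ?_⟩, ⟨?_, ?_⟩, ?_, ?_, ?_⟩
    · simp only; linarith
    · simp only; linarith
    · simp only; linarith
    · simp only; linarith
    · simp only; linarith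
    · simp only; linarith
    · intro w hw hx hy
      simp at hw
      rcases hw with rfl | rfl
      · exact absurd rfl hx
      · exact absurd rfl hy
  refine ⟨by simp, by simp, ?_, Chain.singleton _, ?_, ?_, ?_, by simp, by simp, by simp, by simp⟩
  · rintro s rfl
    simp only
    exact ⟨by linarith, by linarith, by linarith, by linarith⟩
  · rintro s rfl a ha'
    simp at ha'
    rcases ha' with rfl | rfl
    · exact ⟨Or.inl ⟨by simp only; linarith, by simp only; linarith⟩, by simp only; intro h; linarith⟩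
    · exact ⟨Or.inl ⟨by simp only; linarith, by simp only; linarith⟩, by simp only; intro h; linarith⟩
  · intro R a hR
    have : a = x := by
      cases R with
      | nil => simpa using hR.symm
      | cons b R => simp at hR
    subst this
    exact ⟨_, rfl, hpair⟩
  · intro a R hR
    obtain ⟨rfl, _⟩ := List.cons.inj hR
    exact ⟨_, rfl, hpair⟩

end H71S
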