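import Mathlib

set_option autoImplicit false

/-!
# Numbers of cycles of permutations, Euler's inequality

`cyc f` = number of cycles of `f` (fixed points included). `comps f g` = number of orbits of the
group generated by `f` and `g`. `cyc f + cyc g + cyc (f * g) ≤ card D + 2 * comps f g`.
-/

namespace H71S

open Equiv Equiv.Perm

variable {D : Type}

/-- number of classes of an equivalence relation -/
noncomputable def ncl (r : Setoid D) : ℕ := Nat.card (Quotient r)

theorem ncl_anti [Finite D] {r s : Setoid D} (h : ∀ a b, r a b → s a b) : ncl s ≤ ncl r := by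
  unfold ncl
  have hf : Finite (Quotient r) := inferInstance
  refine Nat.card_le_card_of_surjective
    (fun q : Quotient r => Quotient.lift (fun a => (Quotient.mk s a)) (fun a b hab =>
      Quotient.sound (h a b hab)) q) ?_
  intro q
  obtain ⟨a, rfl⟩ := Quotient.exists_rep q
  exact ⟨Quotient.mk r a, rfl⟩

/-- merge the classes of `x` and `y` -/
def mrg (r : Setoid D) (x y : D) : Setoid D where
  r a b := r a b ∨ (r a x ∧ r y b) ∨ (r a y ∧ r x b)
  iseqv := by
    refine ⟨fun a => Or.inl (r.refl a), ?_, ?_⟩
    · rintro a b (h | ⟨h1, h2⟩ | ⟨h1, h2⟩)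
      · exact Or.inl (r.symm h)
      · exact Or.inr (Or.inr ⟨r.symm h2, r.symm h1⟩)
      · exact Or.inr (Or.inl ⟨r.symm h2, r.symm h1⟩)
    · rintro a b c (h | ⟨h1, h2⟩ | ⟨h1, h2⟩) (k | ⟨k1, k2⟩ | ⟨k1, k2⟩)
      · exact Or.inl (r.trans h k)
      · exact Or.inr (Or.inl ⟨r.trans h k1, k2⟩)
      · exact Or.inr (Or.inr ⟨r.trans h k1, k2⟩)
      · exact Or.inr (Or.inl ⟨h1, r.trans h2 k⟩)
      · exact Or.inr (Or.inl ⟨h1, k2⟩)
      · exact Or.inl (r.trans h1 k2)
      · exact Or.inr (Or.inr ⟨h1, r.trans h2 k⟩)
      · exact Or.inl (r.trans h1 k2)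
      · exact Or.inr (Or.inr ⟨h1, k2⟩)

theorem mrg_self {r : Setoid D} {x y : D} (h : r x y) {a b : D} (hab : mrg r x y a b) : r a b := by
  rcases hab with h1 | ⟨h1, h2⟩ | ⟨h1, h2⟩
  · exact h1
  · exact r.trans h1 (r.trans h h2)
  · exact r.trans h1 (r.trans (r.symm h) h2)

theorem mrg_le {r s : Setoid D} {x y : D} (h : ∀ a b, r a b → s a b) (hxy : s x y) {a b : D}
    (hab : mrg r x y a b) : s a b := by
  rcases hab with h1 | ⟨h1, h2⟩ | ⟨h1, h2⟩
  · exact h _ _ h1
  · exact s.trans (h _ _ h1) (s.trans hxy (h _ _ h2))
  · exact s.trans (h _ _ h1) (s.trans (s.symm hxy) (h _ _ h2))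

theorem ncl_mrg [Finite D] (r : Setoid D) {x y : D} (h : ¬ r x y) :
    ncl (mrg r x y) + 1 = ncl r := by
  classical
  unfold ncl
  have hf : Finite (Quotient r) := inferInstance
  -- classes of the merged relation correspond to the classes of `r` other than that of `y`
  let e : Quotient (mrg r x y) ≃ {q : Quotient r // q ≠ Quotient.mk r y} :=
    { toFun := fun q => Quotient.lift (s := mrg r x y)
        (fun a => if hy : r a y then (⟨Quotient.mk r x, fun hc => h (Quotient.exact hc)⟩ :
            {q : Quotient r // q ≠ Quotient.mk r y})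
          else ⟨Quotient.mk r a, fun hc => hy (Quotient.exact hc)⟩) (by
          rintro a b hab
          have hab' : mrg r x y a b := hab
          rcases hab' with h1 | ⟨h1, h2⟩ | ⟨h1, h2⟩
          · by_cases ha : r a y
            · have hb : r b y := r.trans (r.symm h1) ha
              rw [dif_pos ha, dif_pos hb]
            · have hb : ¬ r b y := fun hb => ha (r.trans h1 hb)
              rw [dif_neg ha, dif_neg hb]
              exact Subtype.ext (Quotient.sound h1)
          · have hb : r b y := r.symm h2
            have ha : ¬ r a y := fun ha => h (r.trans (r.symm h1) ha)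
            rw [dif_pos hb, dif_neg ha]
            exact Subtype.ext (Quotient.sound h1)
          · have hb : ¬ r b y := fun hb => h (r.trans h2 hb)
            rw [dif_pos h1, dif_neg hb]
            exact Subtype.ext (Quotient.sound h2)) q
      invFun := fun q => Quotient.lift (s := r) (fun a => Quotient.mk (mrg r x y) a)
        (fun a b hab => Quotient.sound (Or.inl hab)) q.1
      left_inv := by
        intro q
        obtain ⟨a, rfl⟩ := Quotient.exists_rep q
        by_cases ha : r a y
        · simp only [Quotient.lift_mk, dif_pos ha]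
          exact Quotient.sound (Or.inr (Or.inl ⟨r.refl x, r.symm ha⟩))
        · simp only [Quotient.lift_mk, dif_neg ha]
      right_inv := by
        rintro ⟨q, hq⟩
        obtain ⟨a, rfl⟩ := Quotient.exists_rep q
        have ha : ¬ r a y := fun ha => hq (Quotient.sound ha)
        apply Subtype.ext
        simp only [Quotient.lift_mk, dif_neg ha] }
  rw [Nat.card_congr e]
  have := Fintype.ofFinite (Quotient r)
  rw [Nat.card_eq_fintype_card, Nat.card_eq_fintype_card]
  have h1 : Fintype.card {q : Quotient r // q ≠ Quotient.mk r y} =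
      Fintype.card (Quotient r) - 1 := by
    have := Fintype.card_subtype_compl (fun q : Quotient r => q = Quotient.mk r y)
    rw [Fintype.card_subtype_eq] at this
    exact this
  rw [h1]
  have : 0 < Fintype.card (Quotient r) := Fintype.card_pos_iff.2 ⟨Quotient.mk r y⟩
  omega

/-- number of cycles -/
noncomputable def cyc (f : Perm D) : ℕ := ncl (SameCycle.setoid f)

theorem sc_iff (f : Perm D) (a b : D) : (SameCycle.setoid f) a b ↔ SameCycle f a b := Iff.rfl

theorem sc_le [Finite D] {f : Perm D} {s : Setoid D} (h : ∀ a, s a (f a)) {a b : D}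
    (hab : SameCycle f a b) : s a b := by
  obtain ⟨k, hk⟩ := hab.exists_nat_pow_eq
  rw [← hk]
  clear hk
  induction k with
  | zero => exact s.refl _
  | succ k ih =>
    rw [pow_succ', Equiv.Perm.mul_apply]
    exact s.trans ih (h _)

theorem swap_merge [Finite D] [DecidableEq D] (f : Perm D) {x y : D} (h : ¬ SameCycle f x y)
    (a b : D) : SameCycle (f * swap x y) a b ↔ mrg (SameCycle.setoid f) x y a b := by
  have hxy : x ≠ y := fun hc => h (hc ▸ SameCycle.refl _ _)
  have gx : (f * swap x y) x = f y := by simp
  have gy : (f * swap x y) y = f x := by simp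
  have go : ∀ a, a ≠ x → a ≠ y → (f * swap x y) a = f a := fun a h1 h2 => by
    simp [swap_apply_of_ne_of_ne h1 h2]
  have step : ∀ a, SameCycle (f * swap x y) a ((f * swap x y) a) := fun a => ⟨1, by simp⟩
  -- x and y are in the same cycle
  have h1 : ∀ k : ℕ, SameCycle (f * swap x y) x ((f ^ (k + 1)) y) := by
    intro k
    induction k with
    | zero =>
      have := step x
      rw [gx] at this
      simpa using this
    | succ k ih =>
      by_cases hk : (f ^ (k + 1)) y = y
      · rw [pow_succ', Equiv.Perm.mul_apply, hk]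
        have := step x
        rwa [gx] at this
      · have hk2 : (f ^ (k + 1)) y ≠ x := fun hc => h (SameCycle.symm ⟨((k + 1 : ℕ) : ℤ), by
          rw [zpow_natCast]; exact hc⟩)
        have := step ((f ^ (k + 1)) y)
        rw [go _ hk2 hk] at this
        rw [pow_succ', Equiv.Perm.mul_apply]
        exact ih.trans this
  have hxy' : SameCycle (f * swap x y) x y := by
    have h2 : 0 < orderOf f := orderOf_pos f
    have := h1 (orderOf f - 1)
    rw [Nat.sub_add_cancel h2, pow_orderOf_eq_one] at this
    simpa using this
  constructor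
  · intro hab
    refine sc_le (s := mrg (SameCycle.setoid f) x y) (fun a => ?_) hab
    by_cases ha : a = x
    · subst ha; rw [gx]
      exact Or.inr (Or.inl ⟨SameCycle.refl _ _, ⟨1, by simp⟩⟩)
    · by_cases hb : a = y
      · subst hb; rw [gy]
        exact Or.inr (Or.inr ⟨SameCycle.refl _ _, ⟨1, by simp⟩⟩)
      · rw [go a ha hb]
        exact Or.inl ⟨1, by simp⟩
  · intro hab
    refine mrg_le (s := SameCycle.setoid (f * swap x y)) (fun a b hab => ?_) hxy' hab
    refine sc_le (fun a => ?_) hab
    by_cases ha : a = x
    · subst ha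
      have := step y
      rw [gy] at this
      exact hxy'.trans this
    · by_cases hb : a = y
      · subst hb
        have := step x
        rw [gx] at this
        exact hxy'.symm.trans this
      · have := step a
        rw [go a ha hb] at this
        exact this

theorem cyc_swap_diff [Finite D] [DecidableEq D] (f : Perm D) {x y : D}
    (h : ¬ SameCycle f x y) : cyc (f * swap x y) + 1 = cyc f := by
  have : SameCycle.setoid (f * swap x y) = mrg (SameCycle.setoid f) x y := by
    ext a b
    exact swap_merge f h a b
  unfold cyc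
  rw [this]
  exact ncl_mrg _ h

theorem not_sameCycle_swap [Finite D] [DecidableEq D] (f : Perm D) {x y : D} (hxy : x ≠ y)
    (h : SameCycle f x y) : ¬ SameCycle (f * swap x y) x y := by
  classical
  have hex : ∃ k : ℕ, (f ^ (k + 1)) x = y := by
    obtain ⟨k, hk⟩ := h.exists_nat_pow_eq
    cases k with
    | zero => exact absurd (by simpa using hk) hxy
    | succ k => exact ⟨k, hk⟩
  let k := Nat.find hex
  have hk : (f ^ (k + 1)) x = y := Nat.find_spec hex
  have hmin : ∀ j < k, (f ^ (j + 1)) x ≠ y := fun j hj => Nat.find_min hex hj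
  have hx : ∀ j ≤ k, (f ^ (j + 1)) x ≠ x := by
    intro j hj hc
    rcases hj.eq_or_lt with h1 | h1
    · subst h1; exact hxy (hc.symm.trans hk)
    · have h2 : (f ^ (k - j - 1 + 1)) x = y := by
        have h3 : k + 1 = (k - j - 1 + 1) + (j + 1) := by omega
        rw [h3, pow_add, Equiv.Perm.mul_apply, hc] at hk
        exact hk
      exact hmin (k - j - 1) (by omega) h2
  -- the set of the f^(j+1) x is invariant
  let S : Set D := {a | ∃ j ≤ k, a = (f ^ (j + 1)) x}
  have hS : ∀ a ∈ S, (f * swap x y) a ∈ S := by
    rintro a ⟨j, hj, rfl⟩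
    rcases hj.eq_or_lt with h1 | h1
    · subst h1
      rw [hk]
      refine ⟨0, Nat.zero_le _, ?_⟩
      simp
    · refine ⟨j + 1, h1, ?_⟩
      rw [Equiv.Perm.mul_apply, swap_apply_of_ne_of_ne (hx j hj) (hmin j h1)]
      rw [pow_succ' f (j + 1), Equiv.Perm.mul_apply]
  intro hc
  obtain ⟨n, hn⟩ := hc.symm.exists_nat_pow_eq
  have hSn : ∀ n : ℕ, ((f * swap x y) ^ n) y ∈ S := by
    intro n
    induction n with
    | zero => exact ⟨k, le_rfl, by simpa using hk.symm⟩
    | succ n ih =>
      rw [pow_succ', Equiv.Perm.mul_apply]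
      exact hS _ ih
  obtain ⟨j, hj, hj2⟩ := hSn n
  rw [hn] at hj2
  exact hx j hj hj2.symm

theorem cyc_swap_same [Finite D] [DecidableEq D] (f : Perm D) {x y : D} (hxy : x ≠ y)
    (h : SameCycle f x y) : cyc (f * swap x y) = cyc f + 1 := by
  have h1 := not_sameCycle_swap f hxy h
  have h2 := cyc_swap_diff (f * swap x y) h1
  rw [mul_assoc, swap_mul_self, mul_one] at h2
  exact h2.symm

theorem cyc_swap_le [Finite D] [DecidableEq D] (f : Perm D) (x y : D) :
    cyc (f * swap x y) ≤ cyc f + 1 := by
  by_cases hxy : x = y
  · subst hxy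
    rw [swap_self]
    change cyc (f * 1) ≤ _
    rw [mul_one]; omega
  · by_cases h : SameCycle f x y
    · exact (cyc_swap_same f hxy h).le
    · have := cyc_swap_diff f h; omega

/-- the orbits of the group generated by `f` and `g` -/
def cs (f g : Perm D) : Setoid D := Relation.EqvGen.setoid (fun a b => b = f a ∨ b = g a)

theorem cs_left (f g : Perm D) (a : D) : cs f g a (f a) := Relation.EqvGen.rel _ _ (Or.inl rfl)
theorem cs_right (f g : Perm D) (a : D) : cs f g a (g a) := Relation.EqvGen.rel _ _ (Or.inr rfl)

theorem cs_le {f g : Perm D} {s : Setoid D} (hf : ∀ a, s a (f a)) (hg : ∀ a, s a (g a)) {a b : D}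
    (h : cs f g a b) : s a b := by
  induction h with
  | rel x y h =>
    rcases h with rfl | rfl
    · exact hf x
    · exact hg x
  | refl x => exact s.refl x
  | symm x y _ ih => exact s.symm ih
  | trans x y z _ _ ih1 ih2 => exact s.trans ih1 ih2

theorem cs_mul (f g : Perm D) (a : D) : cs f g a ((f * g) a) :=
  (cs f g).trans (cs_right f g a) (cs_left f g _)

theorem cs_of_sameCycle_mul [Finite D] {f g : Perm D} {a b : D} (h : SameCycle (f * g) a b) :
    cs f g a b := sc_le (fun a => cs_mul f g a) h

theorem cs_of_sameCycle [Finite D] {f g : Perm D} {a b : D} (h : SameCycle f a b) :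
    cs f g a b := sc_le (fun a => cs_left f g a) h

/-- number of orbits of the group generated by `f` and `g` -/
noncomputable def comps (f g : Perm D) : ℕ := ncl (cs f g)

theorem cyc_one : cyc (1 : Perm D) = Nat.card D := by
  unfold cyc ncl
  refine Nat.card_congr (Equiv.symm (Equiv.ofBijective
    (fun a => Quotient.mk (SameCycle.setoid (1 : Perm D)) a) ⟨?_, ?_⟩))
  · intro a b h
    have h1 : SameCycle (1 : Perm D) a b := Quotient.exact h
    simpa using h1
  · intro q
    obtain ⟨a, rfl⟩ := Quotient.exists_rep q
    exact ⟨a, rfl⟩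

/-- **Euler's inequality** -/
theorem euler [Finite D] [DecidableEq D] (f : Perm D) : ∀ (n : ℕ) (g : Perm D),
    Nat.card {a // g a ≠ a} ≤ n → cyc f + cyc g + cyc (f * g) ≤ Nat.card D + 2 * comps f g := by
  intro n
  induction n with
  | zero =>
    intro g hg
    have hg1 : g = 1 := by
      ext a
      by_contra hc
      have hne : Nonempty {a // g a ≠ a} := ⟨⟨a, by simpa using hc⟩⟩
      have := Nat.card_pos (α := {a // g a ≠ a})
      omega
    subst hg1
    rw [mul_one, cyc_one]
    have : cyc f ≤ comps f 1 := by
      unfold cyc comps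
      refine ncl_anti fun a b hab => ?_
      exact cs_le (s := SameCycle.setoid f) (fun a => ⟨1, by simp⟩)
        (fun a => SameCycle.refl _ _) hab
    omega
  | succ n ih =>
    intro g hg
    by_cases hg1 : ∀ a, g a = a
    · refine ih g ?_
      have : IsEmpty {a // g a ≠ a} := ⟨fun a => a.2 (hg1 a.1)⟩
      simp
    · push Not at hg1
      obtain ⟨x, hx⟩ := hg1
      set y := g⁻¹ x with hy
      have hgy : g y = x := by rw [hy]; simp
      have hxy : x ≠ y := fun hc => hx (by rw [hc] at hgy ⊢; exact hgy.trans hc.symm |>.symm ▸ hgy)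
      set g' := g * swap x y with hg'
      have g'x : g' x = x := by simp [hg', hgy]
      have g'y : g' y = g x := by simp [hg']
      have g'o : ∀ a, a ≠ x → a ≠ y → g' a = g a := fun a h1 h2 => by
        simp [hg', swap_apply_of_ne_of_ne h1 h2]
      have hgg' : g = g' * swap x y := by rw [hg', mul_assoc, swap_mul_self, mul_one]
      have hsame : SameCycle g x y := SameCycle.symm ⟨1, by simpa using hgy⟩
      have hcyc : cyc g' = cyc g + 1 := cyc_swap_same g hxy hsame
      have hcard : Nat.card {a // g' a ≠ a} ≤ n := by
        have hlt : Nat.card {a // g' a ≠ a} < Nat.card {a // g a ≠ a} := by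
          have := Fintype.ofFinite D
          rw [Nat.card_eq_fintype_card, Nat.card_eq_fintype_card, Fintype.card_subtype,
            Fintype.card_subtype]
          apply Finset.card_lt_card
          rw [Finset.ssubset_iff_of_subset]
          · exact ⟨x, by simp [hx], by simp [g'x]⟩
          · intro a ha
            simp only [Finset.mem_filter, Finset.mem_univ, true_and] at ha ⊢
            by_cases h1 : a = x
            · exact absurd (h1 ▸ g'x) ha
            · by_cases h2 : a = y
              · rw [h2, hgy]; exact hxy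
              · rwa [g'o a h1 h2] at ha
        omega
      have hIH := ih g' hcard
      have hφ : f * g = (f * g') * swap x y := by
        rw [mul_assoc, ← hgg']
      have hle : ∀ a b, cs f g a b → mrg (cs f g') x y a b := by
        intro a b hab
        refine cs_le (s := mrg (cs f g') x y) (fun a => Or.inl (cs_left _ _ _)) (fun a => ?_) hab
        by_cases h1 : a = x
        · rw [h1, ← g'y]
          exact Or.inr (Or.inl ⟨(cs f g').refl _, cs_right _ _ _⟩)
        · by_cases h2 : a = y
          · rw [h2, hgy]
            exact Or.inr (Or.inr ⟨(cs f g').refl _, (cs f g').refl _⟩)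
          · rw [← g'o a h1 h2]
            exact Or.inl (cs_right _ _ _)
      by_cases hr : cs f g' x y
      · have h1 : comps f g' ≤ comps f g := ncl_anti fun a b hab => mrg_self hr (hle a b hab)
        have h2 : cyc (f * g) ≤ cyc (f * g') + 1 := by
          rw [hφ]; exact cyc_swap_le _ _ _
        omega
      · have h1 : ncl (mrg (cs f g') x y) ≤ comps f g := ncl_anti hle
        have h2 := ncl_mrg (cs f g') hr
        have h3 : cyc (f * g) + 1 = cyc (f * g') := by
          rw [hφ]
          exact cyc_swap_diff _ fun hc => hr (cs_of_sameCycle_mul hc)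
        have h4 : comps f g' = ncl (cs f g') := rfl
        omega

theorem euler' [Finite D] (f g : Perm D) :
    cyc f + cyc g + cyc (f * g) ≤ Nat.card D + 2 * comps f g := by
  classical
  exact euler f _ g le_rfl

end H71S
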