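import Mathlib

set_option autoImplicit false

namespace H71S

/-- Triangulated discs, described by their root-edge decomposition.
`Disc P y I F`: `P = [p 0, ..., p k]` (nonempty) and `y` are the boundary vertices in their
order on the boundary walk `p 0, ..., p k, y` (closed by the edge from `y` to `p 0`), `I` is the
list of the interior vertices and `F` the list of the triangular faces.
* `nil`: the degenerate disc, one edge from `x` to `y`, bounded by the closed walk `x, y`;
* `ins`: the face at the boundary edge from `a` (the last vertex of `P`) to `y` is `a z y`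
  with `z` an interior vertex; removing the edge `a y` and this face gives a disc in which
  `z` is a boundary vertex between `a` and `y`;
* `cut`: the face at the boundary edge from `c` (the last vertex of the path) to `y` is
  `b c y` with `b` a vertex of the path; removing this edge and this face leaves two discs,
  one with boundary `b, Q, c`, and one with boundary `P, b, y`. -/
inductive Disc {V : Type} : List V → V → List V → List (V × V × V) → Prop
  | nil (x y : V) : Disc [x] y [] []
  | ins {P : List V} {a z y : V} {I : List V} {F : List (V × V × V)} :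
      Disc (P ++ [a, z]) y I F → Disc (P ++ [a]) y (z :: I) ((a, z, y) :: F)
  | cut {P Q : List V} {b c y : V} {I J : List V} {F G : List (V × V × V)} :
      Disc (b :: Q) c I F → Disc (P ++ [b]) y J G →
      Disc (P ++ b :: (Q ++ [c])) y (I ++ J) ((b, c, y) :: (F ++ G))

/-- Regular sweeps of a triangulated disc. -/
inductive Reg {V : Type} : List V → V → List V → List (V × V × V) → Prop
  | nil (x y : V) : Reg [x] y [] []
  | rem {P : List V} {a b y : V} {I : List V} {F : List (V × V × V)} :
      Reg (P ++ [a]) y I F → Reg (P ++ [a, b]) y I ((a, b, y) :: F)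
  | ins {P Q R : List V} {q a z y : V} {I J : List V} {F G : List (V × V × V)} :
      q :: Q = R ++ [a] → Reg (q :: Q) z I F → Reg (P ++ [q, z]) y J G →
      Reg (P ++ q :: Q) y (z :: (I ++ J)) ((a, z, y) :: (F ++ G))

/-- Reduction of a path by sweeping, from left to right, the regions cut off by chords. -/
inductive Pre {V : Type} : List V → List V → List V → List (V × V × V) → Prop
  | nil (x : V) : Pre [x] [x] [] []
  | snoc {P A Q : List V} {q z : V} {I J : List V} {F G : List (V × V × V)} :
      Pre P (A ++ q :: Q) I F → Reg (q :: Q) z J G →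
      Pre (P ++ [z]) (A ++ [q, z]) (I ++ J) (F ++ G)

theorem Pre.ne_nil {V : Type} {P A I : List V} {F : List (V × V × V)} (h : Pre P A I F) :
    P ≠ [] := by
  cases h <;> simp

theorem Pre.last {V : Type} {P A I : List V} {F : List (V × V × V)} (h : Pre P A I F) :
    ∃ B C a, P = B ++ [a] ∧ A = C ++ [a] := by
  cases h with
  | nil x => exact ⟨[], [], x, rfl, rfl⟩
  | @snoc P A Q q z I J F G h1 h2 => exact ⟨P, A ++ [q], z, rfl, by simp⟩

theorem Pre.head {V : Type} {P A I : List V} {F : List (V × V × V)} (h : Pre P A I F) :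
    ∃ B C a, P = a :: B ∧ A = a :: C := by
  induction h with
  | nil x => exact ⟨[], [], x, rfl, rfl⟩
  | @snoc P A Q q z I J F G h1 h2 ih =>
    obtain ⟨B, C, a, hP, hA⟩ := ih
    refine ⟨B ++ [z], (A ++ [q, z]).tail, a, by simp [hP], ?_⟩
    cases A with
    | nil => simp at hA ⊢; exact hA.1
    | cons a' A' => simp at hA ⊢; exact hA.1

/-- concatenation of two reductions -/
theorem Pre.concat {V : Type} {P A : List V} {b : V} {I : List V} {F : List (V × V × V)}
    (h : Pre (P ++ [b]) (A ++ [b]) I F) {S B J : List V} {G : List (V × V × V)}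
    (h2 : Pre S B J G) : ∀ Q, S = b :: Q →
    ∃ I' F', Pre (P ++ b :: Q) (A ++ B) I' F' ∧ I'.Perm (I ++ J) ∧ F'.Perm (F ++ G) := by
  induction h2 with
  | nil x =>
    intro Q hQ
    obtain ⟨rfl, rfl⟩ := List.cons.inj hQ
    exact ⟨I, F, h, by simp, by simp⟩
  | @snoc S B Q' q z I1 J1 F1 G1 h1 h3 ih =>
    intro Q hQ
    obtain ⟨S', hS⟩ : ∃ S', S = b :: S' := by
      cases S with
      | nil => exact absurd rfl h1.ne_nil
      | cons s S' => simp at hQ; exact ⟨S', by rw [hQ.1]⟩
    subst hS
    have hQ' : Q = S' ++ [z] := by simpa using hQ.symm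
    subst hQ'
    obtain ⟨I', F', hp, hI, hF⟩ := ih S' rfl
    refine ⟨I' ++ J1, F' ++ G1, ?_, ?_, ?_⟩
    · have := Pre.snoc (P := P ++ b :: S') (A := A ++ B) (by simpa using hp) h3
      simpa using this
    · rw [← List.append_assoc]
      exact hI.append_right J1
    · rw [← List.append_assoc]
      exact hF.append_right G1

theorem Disc.toReg {V : Type} {P : List V} {y : V} {I : List V} {F : List (V × V × V)}
    (h : Disc P y I F) :
    ∃ A I1 F1 I2 F2, Pre P A I1 F1 ∧ Reg A y I2 F2 ∧ (I1 ++ I2).Perm I ∧ (F1 ++ F2).Perm F := by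
  induction h with
  | nil x y => exact ⟨[x], [], [], [], [], Pre.nil x, Reg.nil x y, by simp, by simp⟩
  | @ins P a z y I F h ih =>
    obtain ⟨A, I1, F1, I2, F2, hp, hr, hI, hF⟩ := ih
    generalize hW : P ++ [a, z] = W at hp
    cases hp with
    | nil x =>
      have hl := congrArg List.length hW
      simp at hl
    | @snoc P' A' Q q z' I' J' F' G' h1 h2 =>
      have e1 : P' = P ++ [a] ∧ z' = z := by
        have : (P ++ [a]) ++ [z] = P' ++ [z'] := by simpa using hW
        have := List.append_inj' this rfl
        exact ⟨this.1.symm, by simpa using this.2.symm⟩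
      obtain ⟨rfl, rfl⟩ := e1
      obtain ⟨B, C, a', hB, hC⟩ := h1.last
      have ha : a' = a := by
        have := List.append_inj' hB rfl
        simpa using this.2.symm
      subst ha
      -- q :: Q ends with a'
      obtain ⟨R, hR⟩ : ∃ R, q :: Q = R ++ [a'] := by
        have : (q :: Q).getLast (by simp) = a' := by
          have h3 : (A' ++ q :: Q).getLast (by simp) = a' := by
            rw [List.getLast_congr (by simp) (by simp) hC]; simp
          rw [List.getLast_append_of_ne_nil (by simp) (by simp)] at h3
          exact h3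
        exact ⟨(q :: Q).dropLast, by rw [← this]; exact (List.dropLast_append_getLast (by simp)).symm⟩
      refine ⟨A' ++ q :: Q, I', F', z' :: (J' ++ I2), (a', z', y) :: (G' ++ F2), h1,
        Reg.ins hR h2 hr, ?_, ?_⟩
      · have : (I' ++ z' :: (J' ++ I2)).Perm (z' :: ((I' ++ J') ++ I2)) := by
          rw [List.append_assoc]
          exact List.perm_middle
        exact this.trans (List.Perm.cons _ hI)
      · have : (F' ++ (a', z', y) :: (G' ++ F2)).Perm ((a', z', y) :: ((F' ++ G') ++ F2)) := by
          rw [List.append_assoc]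
          exact List.perm_middle
        exact this.trans (List.Perm.cons _ hF)
  | @cut P Q b c y I J F G h1 h2 ih1 ih2 =>
    obtain ⟨B, I1, F1, I2, F2, hp1, hr1, hI1, hF1⟩ := ih1
    obtain ⟨C, J1, G1, J2, G2, hp2, hr2, hJ1, hG1⟩ := ih2
    obtain ⟨X, A, b', hX, hA⟩ := hp2.last
    have hb : b' = b := by
      have := List.append_inj' hX rfl
      simpa using this.2.symm
    subst hb
    subst hA
    obtain ⟨I', F', hp, hI', hF'⟩ := Pre.concat hp2 hp1 Q rfl
    obtain ⟨_, B', b2, hb2, hB⟩ := hp1.head
    have hb2' : b2 = b' := (List.cons.inj hb2).1.symm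
    subst hb2'
    subst hB
    refine ⟨A ++ [b2, c], I' ++ I2, F' ++ F2, J2, (b2, c, y) :: G2, ?_, Reg.rem hr2, ?_, ?_⟩
    · have := Pre.snoc hp hr1
      simpa using this
    · have e1 : (I' ++ I2 ++ J2).Perm ((J1 ++ I1) ++ I2 ++ J2) :=
        (hI'.append_right _).append_right _
      refine e1.trans ?_
      have e2 : ((J1 ++ I1) ++ I2 ++ J2).Perm ((I1 ++ I2) ++ (J1 ++ J2)) := by
        have e3 : ((J1 ++ I1) ++ I2 ++ J2) = (J1 ++ (I1 ++ I2)) ++ J2 := by simp
        rw [e3, ← List.append_assoc (I1 ++ I2)]
        exact (List.perm_append_comm).append_right _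
      exact e2.trans (hI1.append hJ1)
    · have e0 : (F' ++ F2 ++ (b2, c, y) :: G2).Perm ((b2, c, y) :: (F' ++ F2 ++ G2)) :=
        List.perm_middle
      refine e0.trans (List.Perm.cons _ ?_)
      have e1 : (F' ++ F2 ++ G2).Perm ((G1 ++ F1) ++ F2 ++ G2) :=
        (hF'.append_right _).append_right _
      refine e1.trans ?_
      have e2 : ((G1 ++ F1) ++ F2 ++ G2).Perm ((F1 ++ F2) ++ (G1 ++ G2)) := by
        have e3 : ((G1 ++ F1) ++ F2 ++ G2) = (G1 ++ (F1 ++ F2)) ++ G2 := by simp
        rw [e3, ← List.append_assoc (F1 ++ F2)]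
        exact (List.perm_append_comm).append_right _
      exact e2.trans (hF1.append hG1)

/-- a triangulated disc bounded by a digon has a regular sweep -/
theorem Disc.reg {V : Type} {u v : V} {I : List V} {F : List (V × V × V)}
    (h : Disc [u] v I F) : ∃ I' F', Reg [u] v I' F' ∧ I'.Perm I ∧ F'.Perm F := by
  obtain ⟨A, I1, F1, I2, F2, hp, hr, hI, hF⟩ := h.toReg
  generalize hW : [u] = W at hp
  cases hp with
  | nil x =>
    obtain rfl : u = x := by simpa using hW
    exact ⟨I2, F2, hr, by simpa using hI, by simpa using hF⟩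
  | @snoc P' A' Q q z' I' J' F' G' h1 h2 =>
    exfalso
    cases P' with
    | nil => exact h1.ne_nil rfl
    | cons p P'' => simp at hW

end H71S
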