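import Pool.Agent.Lib.H71S.Run
import Pool.Agent.Lib.CookLevin.Planar

set_option autoImplicit false

/-!
# From rotation systems to labelled maps of genus zero
-/

namespace H71S

open Equiv Equiv.Perm
open Pool.Agent.Lib.CookLevin

theorem cyc_ge {D C : Type} [Finite D] (f : Perm D) (g : D → C) (hg : ∀ d, g (f d) = g d)
    (hs : Function.Surjective g) : Nat.card C ≤ cyc f := by
  unfold cyc ncl
  let s : Setoid D := (⊥ : Setoid C).comap g
  have hle : ∀ a b, SameCycle f a b → g a = g b := fun a b hab =>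
    sc_le (s := s) (fun a => (hg a).symm) hab
  refine Nat.card_le_card_of_surjective (α := Quotient (SameCycle.setoid f))
    (Quotient.lift g hle) ?_
  intro c
  obtain ⟨d, rfl⟩ := hs c
  exact ⟨Quotient.mk _ d, rfl⟩

theorem comps_le {D C : Type} [Finite C] (f g : Perm D) (h : C → D)
    (hh : ∀ d, ∃ c, cs f g (h c) d) : comps f g ≤ Nat.card C := by
  unfold comps ncl
  refine Nat.card_le_card_of_surjective (fun c => Quotient.mk (cs f g) (h c)) ?_
  intro q
  obtain ⟨d, rfl⟩ := Quotient.exists_rep q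
  obtain ⟨c, hc⟩ := hh d
  exact ⟨c, Quotient.sound hc⟩

theorem G0_of_le {D : Type} [Finite D] {f g : Perm D}
    (h : Nat.card D + 2 * comps f g ≤ cyc f + cyc g + cyc (f * g)) : G0 f g :=
  le_antisymm (euler' f g) h

variable {X : Type} {G : SimpleGraph X}

theorem face_mul (R : RotationSystem G) : R.face * dartSymm G = R.rot := by
  ext1 d
  change R.rot (d.symm.symm) = R.rot d
  rw [SimpleGraph.Dart.symm_symm]

theorem dart_cs_of_adj [Finite X] (R : RotationSystem G) {d e : G.Dart}
    (h : G.Adj d.fst e.fst) : cs R.face (dartSymm G) d e := by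
  have h1 : cs R.face (dartSymm G) d ⟨(d.fst, e.fst), h⟩ :=
    cs_of_sameCycle_mul (by rw [face_mul]; exact R.rot_trans _ _ rfl)
  have h2 : cs R.face (dartSymm G) ⟨(d.fst, e.fst), h⟩ ⟨(e.fst, d.fst), h.symm⟩ :=
    cs_right R.face (dartSymm G) ⟨(d.fst, e.fst), h⟩
  have h3 : cs R.face (dartSymm G) ⟨(e.fst, d.fst), h.symm⟩ e :=
    cs_of_sameCycle_mul (by rw [face_mul]; exact R.rot_trans _ _ rfl)
  exact (cs _ _).trans h1 ((cs _ _).trans h2 h3)

theorem dart_cs_of_reach [Finite X] (R : RotationSystem G) {x y : X} (h : G.Reachable x y) :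
    ∀ d e : G.Dart, d.fst = x → e.fst = y → cs R.face (dartSymm G) d e := by
  obtain ⟨p⟩ := h
  induction p with
  | nil =>
    intro d e hd he
    exact cs_of_sameCycle_mul (by rw [face_mul]; exact R.rot_trans _ _ (hd.trans he.symm))
  | @cons u v w huv p ih =>
    intro d e hd he
    refine (cs _ _).trans (dart_cs_of_adj R (e := ⟨(v, u), huv.symm⟩) ?_)
      (ih ⟨(v, u), huv.symm⟩ e rfl he)
    rw [hd]; exact huv

theorem rot_G0 [Finite X] (R : RotationSystem G)
    (h : Nat.card X + (R.numFaces + Nat.card {v : X // ∀ w, ¬ G.Adj v w}) =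
      Nat.card G.edgeSet + 2 * Nat.card G.ConnectedComponent) :
    G0 R.face (dartSymm G) := by
  classical
  have := Fintype.ofFinite X
  apply G0_of_le
  rw [face_mul]
  -- faces
  have h1 : cyc R.face = R.numFaces := rfl
  -- edges
  have h2 : Nat.card G.edgeSet ≤ cyc (dartSymm G) := by
    refine cyc_ge _ (fun d : G.Dart => (⟨d.edge, d.edge_mem⟩ : G.edgeSet)) ?_ ?_
    · intro d
      apply Subtype.ext
      exact SimpleGraph.Dart.edge_symm d
    · rintro ⟨e, he⟩
      induction e using Sym2.ind with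
      | _ x y => exact ⟨⟨(x, y), he⟩, rfl⟩
  -- darts
  have h3 : Nat.card G.Dart = 2 * Nat.card G.edgeSet := by
    rw [Nat.card_eq_fintype_card, SimpleGraph.dart_card_eq_twice_card_edges,
      Nat.card_eq_fintype_card, ← SimpleGraph.edgeFinset_card]
  -- vertices
  have h4 : Nat.card {v : X // ¬ ∀ w, ¬ G.Adj v w} ≤ cyc R.rot := by
    refine cyc_ge _ (fun d : G.Dart => (⟨d.fst, fun hc => hc _ d.adj⟩ :
      {v : X // ¬ ∀ w, ¬ G.Adj v w})) ?_ ?_
    · intro d
      apply Subtype.ext
      exact R.rot_fst d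
    · rintro ⟨v, hv⟩
      push Not at hv
      obtain ⟨w, hw⟩ := hv
      exact ⟨⟨(v, w), hw⟩, rfl⟩
  have h5 : Nat.card X = Nat.card {v : X // ∀ w, ¬ G.Adj v w} +
      Nat.card {v : X // ¬ ∀ w, ¬ G.Adj v w} := by
    rw [← Nat.card_sum]
    exact Nat.card_congr (Equiv.sumCompl _).symm
  -- components
  have h6 : comps R.face (dartSymm G) ≤
      Nat.card {c : G.ConnectedComponent // ∃ d : G.Dart, G.connectedComponentMk d.fst = c} := by
    refine comps_le _ _ (fun c => c.2.choose) ?_
    intro d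
    refine ⟨⟨G.connectedComponentMk d.fst, d, rfl⟩, ?_⟩
    set c : {c : G.ConnectedComponent // ∃ d : G.Dart, G.connectedComponentMk d.fst = c} :=
      ⟨G.connectedComponentMk d.fst, d, rfl⟩ with hc
    have := c.2.choose_spec
    exact dart_cs_of_reach R (SimpleGraph.ConnectedComponent.exact this) _ _ rfl rfl
  have h7 : Nat.card {c : G.ConnectedComponent // ∃ d : G.Dart,
      G.connectedComponentMk d.fst = c} + Nat.card {v : X // ∀ w, ¬ G.Adj v w} ≤
      Nat.card G.ConnectedComponent := by
    rw [← Nat.card_sum]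
    refine Nat.card_le_card_of_injective
      (Sum.elim (fun c => c.1) (fun v => G.connectedComponentMk v.1)) ?_
    have hiso : ∀ (v : {v : X // ∀ w, ¬ G.Adj v w}) (x : X), G.Reachable v.1 x → x = v.1 := by
      rintro ⟨v, hv⟩ x ⟨p⟩
      cases p with
      | nil => rfl
      | cons h p => exact absurd h (hv _)
    rintro (c | v) (c' | v') hcv
    · exact congrArg Sum.inl (Subtype.ext hcv)
    · exfalso
      obtain ⟨c, d, hd⟩ := c
      change c = _ at hcv
      rw [← hd] at hcv
      have h8 := hiso v' d.fst (SimpleGraph.ConnectedComponent.exact hcv).symm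
      exact v'.2 d.snd (by rw [← h8]; exact d.adj)
    · exfalso
      obtain ⟨c, d, hd⟩ := c'
      change _ = c at hcv
      rw [← hd] at hcv
      have h8 := hiso v d.fst (SimpleGraph.ConnectedComponent.exact hcv)
      exact v.2 d.snd (by rw [← h8]; exact d.adj)
    · refine congrArg Sum.inr (Subtype.ext ?_)
      exact (hiso v v'.1 (SimpleGraph.ConnectedComponent.exact hcv)).symm
  rw [h1, h3]
  omega

/-- live maps: deleted darts are fixed, labels are vertices -/
structure LM {D V : Type} (φ α : Perm D) (lam : D → V) : Prop where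
  inv : ∀ d, α (α d) = d
  g0 : G0 φ α
  vert : ∀ d, lam ((φ * α) d) = lam d
  dead : ∀ d, α d = d → φ d = d
  dist : ∀ a b, α a ≠ a → α b ≠ b → lam a = lam b → SameCycle (φ * α) a b

theorem rot_LM [Finite X] (R : RotationSystem G)
    (h : Nat.card X + (R.numFaces + Nat.card {v : X // ∀ w, ¬ G.Adj v w}) =
      Nat.card G.edgeSet + 2 * Nat.card G.ConnectedComponent) :
    LM R.face (dartSymm G) (fun d => d.fst) := by
  refine ⟨?_, rot_G0 R h, ?_, ?_, ?_⟩
  · intro d
    exact SimpleGraph.Dart.symm_symm d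
  · intro d
    rw [face_mul]
    exact R.rot_fst d
  · intro d hd
    exfalso
    exact SimpleGraph.Dart.symm_ne d hd
  · intro a b _ _ hab
    rw [face_mul]
    exact R.rot_trans a b hab

end H71S
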