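import Mathlib

set_option autoImplicit false

namespace H71S

/-- points of the segment over `[α, β]` on the line with intercept `c` and slope `-m` -/
theorem seg_iff (c m α β : ℝ) (h : α ≤ β) (p : ℝ × ℝ) :
    p ∈ segment ℝ ((α, c - m * α) : ℝ × ℝ) ((β, c - m * β) : ℝ × ℝ) ↔
      α ≤ p.1 ∧ p.1 ≤ β ∧ p.2 = c - m * p.1 := by
  constructor
  · rintro ⟨a, b, ha, hb, hab, rfl⟩
    have hb' : b = 1 - a := by linarith
    subst hb'
    simp only [Prod.smul_mk, smul_eq_mul, Prod.mk_add_mk]
    refine ⟨by nlinarith, by nlinarith, by ring⟩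
  · rintro ⟨h1, h2, h3⟩
    rcases h.eq_or_lt with h4 | h4
    · subst h4
      have h5 : p.1 = α := le_antisymm h2 h1
      have : p = (α, c - m * α) := by
        ext
        · exact h5
        · rw [h3, h5]
      rw [this]
      exact left_mem_segment ℝ _ _
    · have h5 : (0 : ℝ) < β - α := by linarith
      refine ⟨(β - p.1) / (β - α), (p.1 - α) / (β - α), div_nonneg (by linarith) h5.le,
        div_nonneg (by linarith) h5.le, by field_simp; ring, ?_⟩
      ext
      · simp only [Prod.smul_mk, smul_eq_mul, Prod.mk_add_mk]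
        field_simp; ring
      · simp only [Prod.smul_mk, smul_eq_mul, Prod.mk_add_mk]
        rw [h3]
        field_simp; ring

theorem exists_left (N : Set ℝ) (hN : N.Finite) (a : ℝ) (ha : a ∉ N) :
    ∃ α, α < a ∧ ∀ n ∈ N, n < α ∨ a < n := by
  have h1 : Nᶜ ∈ nhds a := hN.isClosed.isOpen_compl.mem_nhds ha
  obtain ⟨l, hl, hl2⟩ := exists_Ioc_subset_of_mem_nhds h1 ⟨a - 1, by linarith⟩
  refine ⟨(l + a) / 2, by linarith, fun n hn => ?_⟩
  by_contra hc
  push Not at hc
  exact hl2 (show n ∈ Set.Ioc l a from ⟨by linarith, hc.2⟩) hn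

theorem exists_right (N : Set ℝ) (hN : N.Finite) (a : ℝ) (ha : a ∉ N) :
    ∃ α, a < α ∧ ∀ n ∈ N, n < a ∨ α < n := by
  have h1 : Nᶜ ∈ nhds a := hN.isClosed.isOpen_compl.mem_nhds ha
  obtain ⟨l, hl, hl2⟩ := exists_Ico_subset_of_mem_nhds h1 ⟨a + 1, by linarith⟩
  refine ⟨(l + a) / 2, by linarith, fun n hn => ?_⟩
  by_contra hc
  push Not at hc
  exact hl2 (show n ∈ Set.Ico a l from ⟨hc.1, by linarith⟩) hn

/-- separation of finite sets of reals by an interval -/
theorem sep_interval (M N : Set ℝ) (hM : M.Finite) (hN : N.Finite)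
    (h : ∀ n ∈ N, (∀ m ∈ M, n < m) ∨ (∀ m ∈ M, m < n)) :
    ∃ α β, α < β ∧ (∀ m ∈ M, α ≤ m ∧ m ≤ β) ∧ ∀ n ∈ N, n < α ∨ β < n := by
  rcases M.eq_empty_or_nonempty with h0 | h0
  · obtain ⟨B, hB⟩ := hN.bddAbove
    refine ⟨B + 1, B + 2, by linarith, by simp [h0], fun n hn => Or.inl ?_⟩
    have := hB hn
    linarith
  · obtain ⟨a, ha, ha2⟩ := hM.exists_minimalFor id M h0
    obtain ⟨b, hb, hb2⟩ := hM.exists_maximalFor id M h0
    have ha3 : ∀ m ∈ M, a ≤ m := fun m hm => by
      by_contra hc
      push Not at hc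
      have := ha2 hm hc.le
      simp at this
      linarith
    have hb3 : ∀ m ∈ M, m ≤ b := fun m hm => by
      by_contra hc
      push Not at hc
      have := hb2 hm hc.le
      simp at this
      linarith
    have haN : a ∉ N := fun hc => by
      rcases h a hc with h1 | h1
      · exact lt_irrefl _ (h1 a ha)
      · exact lt_irrefl _ (h1 a ha)
    have hbN : b ∉ N := fun hc => by
      rcases h b hc with h1 | h1
      · exact lt_irrefl _ (h1 b hb)
      · exact lt_irrefl _ (h1 b hb)
    obtain ⟨α, hα, hα2⟩ := exists_left N hN a haN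
    obtain ⟨β, hβ, hβ2⟩ := exists_right N hN b hbN
    refine ⟨α, β, by linarith [ha3 b hb], fun m hm => ⟨by linarith [ha3 m hm],
      by linarith [hb3 m hm]⟩, fun n hn => ?_⟩
    rcases h n hn with h1 | h1
    · left
      rcases hα2 n hn with h2 | h2
      · exact h2
      · linarith [h1 a ha]
    · right
      rcases hβ2 n hn with h2 | h2
      · linarith [h1 b hb]
      · exact h2

/-- eventually, under scaling, all gaps are at least `7` -/
theorem scale_gap {X : Type*} [Finite X] (f : X → ℝ) :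
    ∀ᶠ K in Filter.atTop, ∀ x y, f x < f y → (7 : ℝ) ≤ K * (f y - f x) := by
  rw [Filter.eventually_all]
  intro x
  rw [Filter.eventually_all]
  intro y
  by_cases h : f x < f y
  · have := (Filter.tendsto_id.atTop_mul_const (sub_pos.2 h)).eventually_ge_atTop (7 : ℝ)
    filter_upwards [this] with K hK _
    simpa using hK
  · exact Filter.Eventually.of_forall fun K hK => absurd hK h

theorem exp_gap {K a b : ℝ} (h : 7 ≤ K * (b - a)) :
    8 * Real.exp (-(K * b)) ≤ Real.exp (-(K * a)) := by
  have h1 : -(K * a) = K * (b - a) + -(K * b) := by ring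
  rw [h1, Real.exp_add]
  have h2 : 8 ≤ Real.exp (K * (b - a)) := by
    have := Real.add_one_le_exp (K * (b - a))
    linarith
  exact mul_le_mul_of_nonneg_right h2 (Real.exp_pos _).le

end H71S
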