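import Pool.Agent.Lib.H71S.Geo

set_option autoImplicit false

namespace H71S

/-- normalized crossing parameter -/
noncomputable def TT (b c : ℝ) : ℝ := (1 - b) / (1 - c)

theorem TT_U {b c : ℝ} (hc : 0 < c) (hb : b ≤ 1 / 8) (hcb : 8 * c ≤ b) :
    0 < TT b c ∧ TT b c < 1 := by
  unfold TT
  have h1 : 0 < 1 - c := by linarith
  constructor
  · exact div_pos (by linarith) h1
  · rw [div_lt_one h1]; linarith

theorem TT_D {b c : ℝ} (hb : 8 ≤ b) (hcb : 8 * b ≤ c) :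
    0 < TT b c ∧ TT b c < 1 := by
  unfold TT
  have h1 : 1 - c < 0 := by linarith
  constructor
  · exact div_pos_of_neg_of_neg (by linarith) h1
  · rw [div_lt_one_of_neg h1]; linarith

/-- high nonneighbours -/
theorem TT_Ap {b c : ℝ} (hb : 0 < b) (hc : c ≤ 1 / 8) (hcb : 8 * b ≤ c) :
    1 < TT b c ∧ TT b c < 1 / (1 - c) := by
  unfold TT
  have h1 : 0 < 1 - c := by linarith
  constructor
  · rw [one_lt_div h1]; linarith
  · exact div_lt_div_of_pos_right (by linarith) h1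

theorem TT_Am {b c : ℝ} (hb0 : 0 < b) (hb : b ≤ 1 / 8) (hc : 8 ≤ c) :
    - (1 / (c - 1)) < TT b c ∧ TT b c < 0 := by
  unfold TT
  have h1 : 1 - c < 0 := by linarith
  have h2 : 0 < c - 1 := by linarith
  constructor
  · rw [← neg_sub c 1, div_neg]
    apply neg_lt_neg
    exact div_lt_div_of_pos_right (by linarith) h2
  · exact div_neg_of_pos_of_neg (by linarith) h1

/-- neighbour, active, high against all nonneighbours -/
theorem TT_Ap' {b c : ℝ} (hc0 : 0 < c) (hc : c ≤ 1 / 8) (hcb : 8 * b ≤ c) :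
    1 / (1 - c / 8) < TT b c := by
  unfold TT
  have h1 : 0 < 1 - c := by linarith
  have h2 : 0 < 1 - c / 8 := by linarith
  rw [div_lt_div_iff₀ h2 h1]
  nlinarith

theorem TT_Am' {b c : ℝ} (hb : b ≤ 1 / 8) (hc : 8 ≤ c) :
    TT b c < - (1 / (8 * c - 1)) := by
  unfold TT
  have h1 : 0 < c - 1 := by linarith
  have h2 : 0 < 8 * c - 1 := by linarith
  rw [← neg_sub c 1, div_neg, neg_lt_neg_iff, div_lt_div_iff₀ h2 h1]
  nlinarith

/-- neighbour, inner -/
theorem TT_Ih {b c : ℝ} (hc : 8 ≤ c) (hbc : 8 * c ≤ b) : 8 ≤ TT b c := by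
  unfold TT
  have h1 : 0 < c - 1 := by linarith
  have : (1 - b) / (1 - c) = (b - 1) / (c - 1) := by
    rw [← neg_sub c 1, ← neg_sub b 1, neg_div_neg_eq]
  rw [this, le_div_iff₀ h1]
  linarith

theorem TT_Il {b c : ℝ} (hc0 : 0 < c) (hc : c ≤ 1 / 8) (hb : 8 ≤ b) : TT b c ≤ -7 := by
  unfold TT
  have h1 : 0 < 1 - c := by linarith
  rw [div_le_iff₀ h1]
  linarith

/-- a nonneighbour, as seen from `x` (`b`, `c` are the ratios) -/
def NonN (b c : ℝ) : Prop :=
  (b ≤ 1 / 8 ∧ 8 * c ≤ b) ∨ (8 ≤ b ∧ 8 * b ≤ c) ∨ (c ≤ 1 / 8 ∧ 8 * b ≤ c) ∨ (b ≤ 1 / 8 ∧ 8 ≤ c)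

theorem NonN.lt_eight {b c : ℝ} (hb : 0 < b) (hc : 0 < c) (h : NonN b c) : TT b c < 8 := by
  rcases h with h | h | h | h
  · have := (TT_U hc h.1 h.2).2; linarith
  · have := (TT_D h.1 h.2).2; linarith
  · have h1 := (TT_Ap hb h.1 h.2).2
    have h2 : 1 / (1 - c) ≤ 8 := by
      rw [div_le_iff₀ (by linarith)]
      linarith
    linarith
  · have := (TT_Am hb h.1 h.2).2; linarith

theorem NonN.gt_neg {b c : ℝ} (hb : 0 < b) (hc : 0 < c) (h : NonN b c) : -7 < TT b c := by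
  rcases h with h | h | h | h
  · have := (TT_U hc h.1 h.2).1; linarith
  · have := (TT_D h.1 h.2).1; linarith
  · have h1 := (TT_Ap hb h.1 h.2).1
    linarith
  · have h1 := (TT_Am hb h.1 h.2).1
    have h2 : 1 / (c - 1) ≤ 7 := by
      rw [div_le_iff₀ (by linarith)]
      linarith
    linarith

/-- high active neighbour `(b', c')` against a nonneighbour `(b, c)` -/
theorem high_active {b c b' c' : ℝ} (hb : 0 < b) (hc : 0 < c) (hc0 : 0 < c')
    (h : NonN b c) (h1 : c' ≤ 1 / 8) (h2 : 8 * b' ≤ c')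
    (h3 : c ≤ 1 / 8 → 8 * b ≤ c → 8 * c ≤ c') : TT b c < TT b' c' := by
  have h4 := TT_Ap' hc0 h1 h2
  have h5 : 1 ≤ 1 / (1 - c' / 8) := by
    rw [le_div_iff₀ (by linarith)]; linarith
  rcases h with h | h | h | h
  · have := (TT_U hc h.1 h.2).2; linarith
  · have := (TT_D h.1 h.2).2; linarith
  · have h6 := (TT_Ap hb h.1 h.2).2
    have h7 := h3 h.1 h.2
    have h8 : 1 / (1 - c) ≤ 1 / (1 - c' / 8) := by
      apply one_div_le_one_div_of_le (by linarith) (by linarith)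
    linarith
  · have := (TT_Am hb h.1 h.2).2; linarith

theorem low_active {b c b' c' : ℝ} (hb : 0 < b) (hc : 0 < c)
    (h : NonN b c) (h1 : b' ≤ 1 / 8) (h2 : 8 ≤ c')
    (h3 : b ≤ 1 / 8 → 8 ≤ c → 8 * c' ≤ c) : TT b' c' < TT b c := by
  have h4 := TT_Am' h1 h2
  have h5 : 0 < 1 / (8 * c' - 1) := by
    apply one_div_pos.2; linarith
  rcases h with h | h | h | h
  · have := (TT_U hc h.1 h.2).1; linarith
  · have := (TT_D h.1 h.2).1; linarith
  · have h6 := (TT_Ap hb h.1 h.2).1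
    linarith
  · have h6 := (TT_Am hb h.1 h.2).1
    have h7 := h3 h.1 h.2
    have h8 : 1 / (c - 1) ≤ 1 / (8 * c' - 1) := by
      apply one_div_le_one_div_of_le (by linarith) (by linarith)
    linarith

end H71S
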