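import Pool.Agent.Lib.H71S.Geo2

set_option autoImplicit false

namespace H71S

/-- the abscissa of the crossing of the lines of `x` and `y` -/
noncomputable def cr {X : Type*} (e g : X → ℝ) (x y : X) : ℝ :=
  (g x - g y) / (e x * g x - e y * g y)

theorem cr_symm {X : Type*} (e g : X → ℝ) (x y : X) : cr e g x y = cr e g y x := by
  unfold cr
  rw [← neg_sub (g y), ← neg_sub (e y * g y), neg_div_neg_eq]

theorem cr_eq {X : Type*} (e g : X → ℝ) (he : ∀ x, 0 < e x) (hg : ∀ x, 0 < g x) (x y : X) :
    cr e g x y = (1 / e x) * TT (g y / g x) (e y * g y / (e x * g x)) := by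
  unfold cr TT
  have h1 := he x
  have h2 := hg x
  have h3 : (1 - g y / g x) / (1 - e y * g y / (e x * g x)) =
      (g x - g y) * e x / (e x * g x - e y * g y) := by
    have h4 : 1 - g y / g x = (g x - g y) / g x := by field_simp
    have h5 : 1 - e y * g y / (e x * g x) = (e x * g x - e y * g y) / (e x * g x) := by
      field_simp
    rw [h4, h5, div_div_div_eq]
    rw [show (g x - g y) * (e x * g x) = ((g x - g y) * e x) * g x by ring,
      mul_comm (g x) (e x * g x - e y * g y), mul_div_mul_right _ _ h2.ne']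
  rw [h3, div_mul_div_comm, one_mul, mul_comm (e x) (e x * g x - e y * g y),
    mul_div_mul_right _ _ h1.ne']

/-- `w` is a nonneighbour type seen from `x` -/
theorem nonN_of {X : Type*} (G : SimpleGraph X) (e g : X → ℝ) (he : ∀ x, 0 < e x)
    (hg : ∀ x, 0 < g x)
    (hz : ∀ x y, x ≠ y → 8 * (e x * g x) ≤ e y * g y ∨ 8 * (e y * g y) ≤ e x * g x)
    (x w : X) (hxw : w ≠ x)
    (h : (8 * e x ≤ e w ∧ 8 * g w ≤ g x) ∨
      (8 * e w ≤ e x ∧ 8 * g w ≤ g x ∧ ¬ G.Adj x w) ∨
      (8 * e x ≤ e w ∧ 8 * g x ≤ g w ∧ ¬ G.Adj x w) ∨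
      (8 * e w ≤ e x ∧ 8 * g x ≤ g w ∧ G.Adj x w)) (hn : ¬ G.Adj x w) :
    NonN (g w / g x) (e w * g w / (e x * g x)) := by
  have h1 := he x
  have h2 := hg x
  have h3 := he w
  have h4 := hg w
  have h5 : e w * g w / (e x * g x) = (e w / e x) * (g w / g x) := by
    rw [div_mul_div_comm]
  have hb : 0 < g w / g x := div_pos h4 h2
  have hc : 0 < e w * g w / (e x * g x) := div_pos (mul_pos h3 h4) (mul_pos h1 h2)
  rcases h with h | h | h | h
  · -- active
    have hb2 : g w / g x ≤ 1 / 8 := by
      rw [div_le_div_iff₀ h2 (by norm_num)]; linarith [h.2]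
    have ha2 : 8 ≤ e w / e x := by
      rw [le_div_iff₀ h1]; linarith [h.1]
    rcases hz x w hxw.symm with h6 | h6
    · -- c ≥ 8
      right; right; right
      exact ⟨hb2, by rw [le_div_iff₀ (mul_pos h1 h2)]; exact h6⟩
    · right; right; left
      refine ⟨?_, ?_⟩
      · rw [div_le_div_iff₀ (mul_pos h1 h2) (by norm_num)]; linarith [h6]
      · rw [h5]
        exact mul_le_mul_of_nonneg_right ha2 hb.le
  · left
    refine ⟨by rw [div_le_div_iff₀ h2 (by norm_num)]; linarith [h.2.1], ?_⟩
    rw [h5]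
    have ha2 : 8 * (e w / e x) ≤ 1 := by
      rw [mul_div_assoc', div_le_iff₀ h1]; linarith [h.1]
    calc 8 * (e w / e x * (g w / g x)) = (8 * (e w / e x)) * (g w / g x) := by ring
      _ ≤ 1 * (g w / g x) := mul_le_mul_of_nonneg_right ha2 hb.le
      _ = g w / g x := one_mul _
  · right; left
    refine ⟨by rw [le_div_iff₀ h2]; exact h.2.1, ?_⟩
    rw [h5]
    have ha2 : 8 ≤ e w / e x := by
      rw [le_div_iff₀ h1]; linarith [h.1]
    exact mul_le_mul_of_nonneg_right ha2 hb.le
  · exact absurd h.2.2 hn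

/-- the key separation property -/
theorem key_sep {X : Type*} (G : SimpleGraph X) (e g : X → ℝ) (he : ∀ x, 0 < e x)
    (hg : ∀ x, 0 < g x)
    (hz : ∀ x y, x ≠ y → 8 * (e x * g x) ≤ e y * g y ∨ 8 * (e y * g y) ≤ e x * g x)
    (x : X)
    (h : ∀ y, y ≠ x → (8 * e x ≤ e y ∧ 8 * g y ≤ g x) ∨
      (8 * e y ≤ e x ∧ 8 * g y ≤ g x ∧ ¬ G.Adj x y) ∨
      (8 * e x ≤ e y ∧ 8 * g x ≤ g y ∧ ¬ G.Adj x y) ∨
      (8 * e y ≤ e x ∧ 8 * g x ≤ g y ∧ G.Adj x y))
    (hw : ∀ y w, G.Adj x y → 8 * e x ≤ e y → 8 * g y ≤ g x → ¬ G.Adj x w → w ≠ x →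
      8 * e x ≤ e w → 8 * g w ≤ g x →
      (8 * (e x * g x) ≤ e w * g w ∧ 8 * (e y * g y) ≤ e w * g w) ∨
      (8 * (e w * g w) ≤ e x * g x ∧ 8 * (e w * g w) ≤ e y * g y))
    (y : X) (hy : G.Adj x y) :
    (∀ w, w ≠ x → ¬ G.Adj x w → cr e g x y < cr e g x w) ∨
    (∀ w, w ≠ x → ¬ G.Adj x w → cr e g x w < cr e g x y) := by
  have h1 := he x
  have h2 := hg x
  have h3 := he y
  have h4 := hg y
  have hyx : y ≠ x := hy.ne'
  have hm := mul_pos h1 h2
  have hxi : 0 < 1 / e x := one_div_pos.2 h1
  set b' := g y / g x with hb'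
  set c' := e y * g y / (e x * g x) with hc'
  have h5 : c' = (e y / e x) * b' := by
    rw [hb', hc', div_mul_div_comm]
  have hb0 : 0 < b' := div_pos h4 h2
  have hc0 : 0 < c' := div_pos (mul_pos h3 h4) hm
  have hcz : c' ≤ 1 / 8 ∨ 8 ≤ c' := by
    rcases hz x y hyx.symm with h6 | h6
    · right; rw [le_div_iff₀ hm]; exact h6
    · left; rw [div_le_div_iff₀ hm (by norm_num)]; linarith [h6]
  -- translation of comparisons
  have red1 : ∀ w, TT b' c' < TT (g w / g x) (e w * g w / (e x * g x)) →
      cr e g x y < cr e g x w := fun w h6 => by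
    rw [cr_eq e g he hg x y, cr_eq e g he hg x w]
    exact mul_lt_mul_of_pos_left h6 hxi
  have red2 : ∀ w, TT (g w / g x) (e w * g w / (e x * g x)) < TT b' c' →
      cr e g x w < cr e g x y := fun w h6 => by
    rw [cr_eq e g he hg x y, cr_eq e g he hg x w]
    exact mul_lt_mul_of_pos_left h6 hxi
  have hnon : ∀ w, w ≠ x → ¬ G.Adj x w → NonN (g w / g x) (e w * g w / (e x * g x)) :=
    fun w hwx hn => nonN_of G e g he hg hz x w hwx (h w hwx) hn
  have hposb : ∀ w, 0 < g w / g x := fun w => div_pos (hg w) h2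
  have hposc : ∀ w, 0 < e w * g w / (e x * g x) := fun w => div_pos (mul_pos (he w) (hg w)) hm
  rcases h y hyx with h6 | h6 | h6 | h6
  · -- active
    have hb2 : b' ≤ 1 / 8 := by
      rw [hb', div_le_div_iff₀ h2 (by norm_num)]; linarith [h6.2]
    have ha2 : 8 ≤ e y / e x := by
      rw [le_div_iff₀ h1]; linarith [h6.1]
    have hbc : 8 * b' ≤ c' := by
      rw [h5]; exact mul_le_mul_of_nonneg_right ha2 hb0.le
    rcases hcz with h7 | h7
    · right
      intro w hwx hn
      apply red2
      refine high_active (hposb w) (hposc w) hc0 (hnon w hwx hn) h7 hbc ?_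
      intro h8 h9
      -- w is active
      have h10 : 8 * g w ≤ g x := by
        by_contra hc
        rcases h w hwx with h11 | h11 | h11 | h11
        · exact hc h11.2
        · exact hc h11.2.1
        · have : 8 ≤ g w / g x := by rw [le_div_iff₀ h2]; exact h11.2.1
          linarith
        · exact hn h11.2.2
      have h12 : 8 * e x ≤ e w := by
        have h13 : e w * g w / (e x * g x) = (e w / e x) * (g w / g x) := by
          rw [div_mul_div_comm]
        rw [h13] at h9
        have h14 : 8 ≤ e w / e x := le_of_mul_le_mul_right h9 (hposb w)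
        rwa [le_div_iff₀ h1] at h14
      rcases hw y w hy h6.1 h6.2 hn hwx h12 h10 with h13 | h13
      · exfalso
        have : 8 ≤ e w * g w / (e x * g x) := by rw [le_div_iff₀ hm]; exact h13.1
        linarith
      · rw [hc', mul_div_assoc', div_le_div_iff_of_pos_right hm]
        exact h13.2
    · left
      intro w hwx hn
      apply red1
      refine low_active (hposb w) (hposc w) (hnon w hwx hn) hb2 h7 ?_
      intro h8 h9
      have h10 : 8 * g w ≤ g x := by
        rw [div_le_div_iff₀ h2 (by norm_num)] at h8; linarith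
      have h12 : 8 * e x ≤ e w := by
        rcases h w hwx with h11 | h11 | h11 | h11
        · exact h11.1
        · exfalso
          have h13 : e w * g w ≤ e x * g x := by
            have := he w
            have := hg w
            nlinarith [h11.1, h11.2.1]
          have : e w * g w / (e x * g x) ≤ 1 := by
            rw [div_le_one hm]; exact h13
          linarith
        · exact h11.1
        · exact absurd h11.2.2 hn
      rcases hw y w hy h6.1 h6.2 hn hwx h12 h10 with h13 | h13
      · rw [hc', mul_div_assoc', div_le_div_iff_of_pos_right hm]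
        exact h13.2
      · exfalso
        have : e w * g w / (e x * g x) ≤ 1 / 8 := by
          rw [div_le_div_iff₀ hm (by norm_num)]; linarith [h13.1]
        linarith
  · exact absurd hy h6.2.2
  · exact absurd hy h6.2.2
  · -- inner
    have hb2 : 8 ≤ b' := by rw [hb', le_div_iff₀ h2]; exact h6.2.1
    have ha2 : 8 * (e y / e x) ≤ 1 := by
      rw [mul_div_assoc', div_le_iff₀ h1]; linarith [h6.1]
    have hbc : 8 * c' ≤ b' := by
      rw [h5]
      calc 8 * (e y / e x * b') = (8 * (e y / e x)) * b' := by ring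
        _ ≤ 1 * b' := mul_le_mul_of_nonneg_right ha2 hb0.le
        _ = b' := one_mul _
    rcases hcz with h7 | h7
    · left
      intro w hwx hn
      apply red1
      have h8 := TT_Il hc0 h7 hb2
      have h9 := (hnon w hwx hn).gt_neg (hposb w) (hposc w)
      linarith
    · right
      intro w hwx hn
      apply red2
      have h8 := TT_Ih h7 hbc
      have h9 := (hnon w hwx hn).lt_eight (hposb w) (hposc w)
      linarith

end H71S
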