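import Pool.Agent.Lib.H71S.Geo3

set_option autoImplicit false

namespace H71S

/-- multiplicative form of the geometric lemma -/
theorem geo_mul {X : Type*} [Finite X] (G : SimpleGraph X) (W : Set X) (e g : X → ℝ)
    (he : ∀ x, 0 < e x) (hg : ∀ x, 0 < g x)
    (hW : ∀ x ∈ W, ∀ y ∈ W, ¬ G.Adj x y)
    (hz : ∀ x y, x ≠ y → 8 * (e x * g x) ≤ e y * g y ∨ 8 * (e y * g y) ≤ e x * g x)
    (h : ∀ x ∉ W, ∀ y, y ≠ x → (8 * e x ≤ e y ∧ 8 * g y ≤ g x) ∨
      (8 * e y ≤ e x ∧ 8 * g y ≤ g x ∧ ¬ G.Adj x y) ∨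
      (8 * e x ≤ e y ∧ 8 * g x ≤ g y ∧ ¬ G.Adj x y) ∨
      (8 * e y ≤ e x ∧ 8 * g x ≤ g y ∧ G.Adj x y))
    (hw : ∀ x ∉ W, ∀ y w, G.Adj x y → 8 * e x ≤ e y → 8 * g y ≤ g x → ¬ G.Adj x w → w ≠ x →
      8 * e x ≤ e w → 8 * g w ≤ g x →
      (8 * (e x * g x) ≤ e w * g w ∧ 8 * (e y * g y) ≤ e w * g w) ∨
      (8 * (e w * g w) ≤ e x * g x ∧ 8 * (e w * g w) ≤ e y * g y)) :
    ∃ s : X → (ℝ × ℝ) × (ℝ × ℝ), (∀ v, (s v).1 ≠ (s v).2) ∧
      ∀ u v, u ≠ v → (Gᶜ.Adj u v ↔
        (segment ℝ (s u).1 (s u).2 ∩ segment ℝ (s v).1 (s v).2).Nonempty) := by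
  classical
  -- a bound for the whites
  obtain ⟨B, hB⟩ := (Set.finite_range fun p : X × X => cr e g p.1 p.2).bddAbove
  obtain ⟨B', hB'⟩ := (Set.finite_range fun p : X × X => cr e g p.1 p.2).bddBelow
  have hB2 : ∀ x y, cr e g x y ≤ B := fun x y => hB ⟨(x, y), rfl⟩
  have hB3 : ∀ x y, B' ≤ cr e g x y := fun x y => hB' ⟨(x, y), rfl⟩
  -- intervals
  have hint : ∀ x, ∃ α β, α < β ∧ (∀ w, w ≠ x → ¬ G.Adj x w → α ≤ cr e g x w ∧ cr e g x w ≤ β) ∧
      (x ∉ W → ∀ y, G.Adj x y → cr e g x y < α ∨ β < cr e g x y) := by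
    intro x
    by_cases hx : x ∈ W
    · exact ⟨B' - 1, max B B' + 1, by linarith [le_max_right B B'],
        fun w _ _ => ⟨by linarith [hB3 x w], by linarith [hB2 x w, le_max_left B B']⟩,
        fun h => absurd hx h⟩
    · obtain ⟨α, β, hαβ, h1, h2⟩ := sep_interval
        {t | ∃ w, w ≠ x ∧ ¬ G.Adj x w ∧ t = cr e g x w} {t | ∃ y, G.Adj x y ∧ t = cr e g x y}
        ((Set.finite_range fun w => cr e g x w).subset (by
          rintro t ⟨w, _, _, rfl⟩; exact ⟨w, rfl⟩))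
        ((Set.finite_range fun w => cr e g x w).subset (by
          rintro t ⟨w, _, rfl⟩; exact ⟨w, rfl⟩)) (by
          rintro t ⟨y, hy, rfl⟩
          rcases key_sep G e g he hg hz x (h x hx) (hw x hx) y hy with h3 | h3
          · left; rintro m ⟨w, hwx, hn, rfl⟩; exact h3 w hwx hn
          · right; rintro m ⟨w, hwx, hn, rfl⟩; exact h3 w hwx hn)
      exact ⟨α, β, hαβ, fun w hwx hn => h1 _ ⟨w, hwx, hn, rfl⟩, fun _ y hy => h2 _ ⟨y, hy, rfl⟩⟩
  choose α β hαβ h1 h2 using hint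
  refine ⟨fun x => ((α x, g x - (e x * g x) * α x), (β x, g x - (e x * g x) * β x)), ?_, ?_⟩
  · intro v hv
    exact (hαβ v).ne (congrArg Prod.fst hv)
  · intro u v huv
    -- crossing point
    have hm : e u * g u - e v * g v ≠ 0 := by
      have := mul_pos (he u) (hg u)
      have := mul_pos (he v) (hg v)
      rcases hz u v huv with h3 | h3
      · intro h4; linarith
      · intro h4; linarith
    have hcr : g u - (e u * g u) * cr e g u v = g v - (e v * g v) * cr e g u v := by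
      have h3 : cr e g u v * (e u * g u - e v * g v) = g u - g v := div_mul_cancel₀ _ hm
      linarith
    have huniq : ∀ t : ℝ, g u - (e u * g u) * t = g v - (e v * g v) * t → t = cr e g u v := by
      intro t ht
      unfold cr
      rw [eq_div_iff hm]
      linarith
    have hiff : (segment ℝ ((α u, g u - (e u * g u) * α u) : ℝ × ℝ)
          ((β u, g u - (e u * g u) * β u) : ℝ × ℝ) ∩
        segment ℝ ((α v, g v - (e v * g v) * α v) : ℝ × ℝ)
          ((β v, g v - (e v * g v) * β v) : ℝ × ℝ)).Nonempty ↔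
        (α u ≤ cr e g u v ∧ cr e g u v ≤ β u) ∧ (α v ≤ cr e g u v ∧ cr e g u v ≤ β v) := by
      constructor
      · rintro ⟨p, hp1, hp2⟩
        rw [seg_iff _ _ _ _ (hαβ u).le] at hp1
        rw [seg_iff _ _ _ _ (hαβ v).le] at hp2
        have : p.1 = cr e g u v := huniq _ (by rw [← hp1.2.2, ← hp2.2.2])
        rw [← this]
        exact ⟨⟨hp1.1, hp1.2.1⟩, ⟨hp2.1, hp2.2.1⟩⟩
      · rintro ⟨⟨h3, h4⟩, h5, h6⟩
        refine ⟨(cr e g u v, g u - (e u * g u) * cr e g u v), ?_, ?_⟩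
        · rw [seg_iff _ _ _ _ (hαβ u).le]
          exact ⟨h3, h4, rfl⟩
        · rw [seg_iff _ _ _ _ (hαβ v).le]
          exact ⟨h5, h6, hcr⟩
    show _ ↔ (segment ℝ ((α u, g u - (e u * g u) * α u) : ℝ × ℝ)
          ((β u, g u - (e u * g u) * β u) : ℝ × ℝ) ∩
        segment ℝ ((α v, g v - (e v * g v) * α v) : ℝ × ℝ)
          ((β v, g v - (e v * g v) * β v) : ℝ × ℝ)).Nonempty
    rw [hiff, SimpleGraph.compl_adj]
    constructor
    · rintro ⟨_, hn⟩
      refine ⟨h1 u v huv.symm hn, ?_⟩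
      rw [cr_symm]
      exact h1 v u huv (fun h => hn h.symm)
    · rintro ⟨h3, h4⟩
      refine ⟨huv, fun hadj => ?_⟩
      by_cases hu : u ∈ W
      · by_cases hv : v ∈ W
        · exact hW u hu v hv hadj
        · rcases h2 v hv u hadj.symm with h5 | h5
          · rw [cr_symm] at h5; linarith [h4.1]
          · rw [cr_symm] at h5; linarith [h4.2]
      · rcases h2 u hu v hadj with h5 | h5
        · linarith [h3.1]
        · linarith [h3.2]

/-- **Geometric lemma.** -/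
theorem geo {X : Type*} [Finite X] (G : SimpleGraph X) (W : Set X) (l r : X → ℝ)
    (hW : ∀ x ∈ W, ∀ y ∈ W, ¬ G.Adj x y)
    (hz : ∀ x y, x ≠ y → l x + r x ≠ l y + r y)
    (h : ∀ x ∉ W, ∀ y, y ≠ x → (l y < l x ∧ r x < r y) ∨
      (l x < l y ∧ r x < r y ∧ ¬ G.Adj x y) ∨
      (l y < l x ∧ r y < r x ∧ ¬ G.Adj x y) ∨
      (l x < l y ∧ r y < r x ∧ G.Adj x y))
    (hw : ∀ x ∉ W, ∀ y w, G.Adj x y → l y < l x → r x < r y → ¬ G.Adj x w → w ≠ x →
      l w < l x → r x < r w →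
      (l w + r w < l x + r x ∧ l w + r w < l y + r y) ∨
      (l x + r x < l w + r w ∧ l y + r y < l w + r w)) :
    ∃ s : X → (ℝ × ℝ) × (ℝ × ℝ), (∀ v, (s v).1 ≠ (s v).2) ∧
      ∀ u v, u ≠ v → (Gᶜ.Adj u v ↔
        (segment ℝ (s u).1 (s u).2 ∩ segment ℝ (s v).1 (s v).2).Nonempty) := by
  obtain ⟨K, ⟨⟨hl, hr⟩, hlr⟩, hK⟩ := (((scale_gap l).and (scale_gap r)).and
    (scale_gap (fun x => l x + r x))).and (Filter.eventually_gt_atTop (0 : ℝ)) |>.exists
  have gl : ∀ x y, l x < l y → 8 * Real.exp (-(K * l y)) ≤ Real.exp (-(K * l x)) :=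
    fun x y hxy => exp_gap (hl x y hxy)
  have gr : ∀ x y, r x < r y → 8 * Real.exp (-(K * r y)) ≤ Real.exp (-(K * r x)) :=
    fun x y hxy => exp_gap (hr x y hxy)
  have gz : ∀ x y, l x + r x < l y + r y →
      8 * (Real.exp (-(K * l y)) * Real.exp (-(K * r y))) ≤
        Real.exp (-(K * l x)) * Real.exp (-(K * r x)) := fun x y hxy => by
    have h1 := exp_gap (hlr x y hxy)
    rw [← Real.exp_add, ← Real.exp_add]
    have e1 : -(K * l y) + -(K * r y) = -(K * (l y + r y)) := by ring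
    have e2 : -(K * l x) + -(K * r x) = -(K * (l x + r x)) := by ring
    rw [e1, e2]
    exact h1
  -- converse comparisons
  have cl : ∀ x y, 8 * Real.exp (-(K * l y)) ≤ Real.exp (-(K * l x)) → l x < l y := by
    intro x y hxy
    have h1 : Real.exp (-(K * l y)) < Real.exp (-(K * l x)) := by
      have := Real.exp_pos (-(K * l y)); linarith
    rw [Real.exp_lt_exp] at h1
    by_contra hc
    push Not at hc
    have := mul_le_mul_of_nonneg_left hc hK.le
    linarith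
  have crr : ∀ x y, 8 * Real.exp (-(K * r y)) ≤ Real.exp (-(K * r x)) → r x < r y := by
    intro x y hxy
    have h1 : Real.exp (-(K * r y)) < Real.exp (-(K * r x)) := by
      have := Real.exp_pos (-(K * r y)); linarith
    rw [Real.exp_lt_exp] at h1
    by_contra hc
    push Not at hc
    have := mul_le_mul_of_nonneg_left hc hK.le
    linarith
  refine geo_mul G W (fun x => Real.exp (-(K * l x))) (fun x => Real.exp (-(K * r x)))
    (fun x => Real.exp_pos _) (fun x => Real.exp_pos _) hW ?_ ?_ ?_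
  · intro x y hxy
    rcases lt_or_gt_of_ne (hz x y hxy) with h1 | h1
    · right; exact gz x y h1
    · left; exact gz y x h1
  · intro x hx y hyx
    rcases h x hx y hyx with h1 | h1 | h1 | h1
    · left; exact ⟨gl y x h1.1, gr x y h1.2⟩
    · right; left; exact ⟨gl x y h1.1, gr x y h1.2.1, h1.2.2⟩
    · right; right; left; exact ⟨gl y x h1.1, gr y x h1.2.1, h1.2.2⟩
    · right; right; right; exact ⟨gl x y h1.1, gr y x h1.2.1, h1.2.2⟩
  · intro x hx y w hadj h1 h2 hn hwx h3 h4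
    rcases hw x hx y w hadj (cl y x h1) (crr x y h2) hn hwx (cl w x h3) (crr x w h4) with h5 | h5
    · left; exact ⟨gz w x h5.1, gz w y h5.2⟩
    · right; exact ⟨gz x w h5.1, gz y w h5.2⟩

end H71S
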