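import Pool.Agent.Lib.H71S.Conf
import Pool.Agent.Lib.H71S.Geo4

set_option autoImplicit false

namespace H71S

/-- small perturbations keep strict inequalities -/
theorem ev_lt {X : Type*} [Finite X] (a A : X → ℝ) :
    ∀ᶠ ε in nhdsWithin (0 : ℝ) (Set.Ioi 0), ∀ x y, a x < a y →
      a x + ε * A x < a y + ε * A y := by
  rw [Filter.eventually_all]
  intro x
  rw [Filter.eventually_all]
  intro y
  by_cases h : a x < a y
  · have h1 : Filter.Tendsto (fun ε : ℝ => a x + ε * A x) (nhds 0) (nhds (a x + 0 * A x)) := by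
      apply Continuous.tendsto; fun_prop
    have h2 : Filter.Tendsto (fun ε : ℝ => a y + ε * A y) (nhds 0) (nhds (a y + 0 * A y)) := by
      apply Continuous.tendsto; fun_prop
    have h3 := h1.eventually_lt h2 (by simpa using h)
    exact (h3.filter_mono nhdsWithin_le_nhds).mono fun ε hε _ => hε
  · exact Filter.Eventually.of_forall fun ε hε => absurd hε h

theorem ev_big {X : Type*} [Finite X] (a A : X → ℝ) :
    ∀ᶠ K in Filter.atTop, ∀ x y, a x < a y → K * a x + A x < K * a y + A y := by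
  rw [Filter.eventually_all]
  intro x
  rw [Filter.eventually_all]
  intro y
  by_cases h : a x < a y
  · have := (Filter.tendsto_id.atTop_mul_const (sub_pos.2 h)).eventually_gt_atTop (A x - A y)
    filter_upwards [this] with K hK _
    simp only [id] at hK
    linarith
  · exact Filter.Eventually.of_forall fun K hK => absurd hK h

/-- offsets of the vertices at their slots -/
theorem exists_offsets {X : Type*} [Finite X] (κ : X → ℕ) (p q : X → ℝ) (K : Set X)
    (h : ∀ x ∈ K, ∀ y ∈ K, κ x = κ y → x ≠ y → p x ≠ p y) :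
    ∃ A B : X → ℝ, (∀ x y, κ x < κ y → A x < A y ∧ B x < B y) ∧
      (∀ x y, κ x = κ y → p x < p y → A x < A y) ∧
      (∀ x y, κ x = κ y → q x < q y → B x < B y) ∧
      (∀ x ∈ K, ∀ y ∈ K, x ≠ y → A x + B x ≠ A y + B y) := by
  obtain ⟨C, hC, hC0⟩ := ((ev_big p q).and (Filter.eventually_gt_atTop (0 : ℝ))).exists
  obtain ⟨D, hD1, hD2⟩ := ((ev_big (fun x => (κ x : ℝ)) (fun x => C * p x)).and
    (ev_big (fun x => (κ x : ℝ)) q)).exists
  have h1 : ∀ x y, κ x < κ y → D * κ x + C * p x < D * κ y + C * p y ∧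
      D * κ x + q x < D * κ y + q y := fun x y hxy =>
    ⟨hD1 x y (by exact_mod_cast hxy), hD2 x y (by exact_mod_cast hxy)⟩
  refine ⟨fun x => D * κ x + C * p x, fun x => D * κ x + q x, h1, ?_, ?_, ?_⟩
  · intro x y hk hp
    have := mul_lt_mul_of_pos_left hp hC0
    simp only [hk]
    linarith
  · intro x y hk hp
    simp only [hk]
    linarith
  · intro x hx y hy hxy
    simp only
    rcases lt_trichotomy (κ x) (κ y) with hk | hk | hk
    · have := h1 x y hk
      intro hc; linarith [this.1, this.2]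
    · rcases lt_or_gt_of_ne (h x hx y hy hk hxy) with hp | hp
      · have := hC x y hp
        intro hc
        rw [hk] at hc; linarith
      · have := hC y x hp
        intro hc
        rw [hk] at hc; linarith
    · have := h1 y x hk
      intro hc; linarith [this.1, this.2]

theorem glue {X : Type} [Finite X] (G : SimpleGraph X) (W : Set X) (l r : X → ℝ)
    (S : Set (ℝ × ℝ)) (hS : Chain S)
    (hW : ∀ x ∈ W, ∀ y ∈ W, ¬ G.Adj x y)
    (hzW : ∀ x ∈ W, ∀ y ∈ W, x ≠ y → l x + r x ≠ l y + r y)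
    (hgood : ∀ s ∈ S, ∀ a ∈ W, Good l r s a)
    (κ : X → ℕ) (p q : X → ℝ)
    (hκ : ∀ x ∉ W, ∀ y ∉ W, G.Adj x y → κ x = κ y)
    (hpq : ∀ x ∉ W, ∀ y ∉ W, κ x = κ y → x ≠ y → p x ≠ p y ∧ q x ≠ q y ∧
      (G.Adj x y ↔ (p x < p y ∧ q y < q x) ∨ (p y < p x ∧ q x < q y)))
    (σ : ℕ → ℝ × ℝ) (hσ : ∀ x ∉ W, σ (κ x) ∈ S)
    (hserve : ∀ x ∉ W, ∀ y ∈ W, G.Adj x y → Act l r (σ (κ x)) y)
    (hserve2 : ∀ x ∉ W, ∀ y ∈ W, ∀ w ∈ W, G.Adj x y → ¬ G.Adj x w → Act l r (σ (κ x)) w →
      (l w + r w < (σ (κ x)).1 + (σ (κ x)).2 ∧ l w + r w < l y + r y) ∨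
      ((σ (κ x)).1 + (σ (κ x)).2 < l w + r w ∧ l y + r y < l w + r w)) :
    ∃ s : X → (ℝ × ℝ) × (ℝ × ℝ), (∀ v, (s v).1 ≠ (s v).2) ∧
      ∀ u v, u ≠ v → (Gᶜ.Adj u v ↔
        (segment ℝ (s u).1 (s u).2 ∩ segment ℝ (s v).1 (s v).2).Nonempty) := by
  classical
  obtain ⟨A, B, hAB1, hA, hB, hAB2⟩ := exists_offsets κ p q Wᶜ
    (fun x hx y hy hk hxy => (hpq x hx y hy hk hxy).1)
  -- base points and offsets
  set a : X → ℝ := fun x => if x ∈ W then l x else (σ (κ x)).1 with ha
  set b : X → ℝ := fun x => if x ∈ W then r x else (σ (κ x)).2 with hb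
  set A' : X → ℝ := fun x => if x ∈ W then 0 else A x with hA'
  set B' : X → ℝ := fun x => if x ∈ W then 0 else B x with hB'
  have aW : ∀ x ∈ W, a x = l x ∧ b x = r x ∧ A' x = 0 ∧ B' x = 0 := fun x hx => by
    simp [ha, hb, hA', hB', hx]
  have aK : ∀ x ∉ W, a x = (σ (κ x)).1 ∧ b x = (σ (κ x)).2 ∧ A' x = A x ∧ B' x = B x :=
    fun x hx => by simp [ha, hb, hA', hB', hx]
  obtain ⟨ε, ⟨⟨⟨e1, e2⟩, e3⟩, e4⟩⟩ := (((ev_lt a A').and (ev_lt b B')).and
    (ev_lt (fun x => a x + b x) (fun x => A' x + B' x))).and self_mem_nhdsWithin |>.exists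
  have e0 : 0 < ε := e4
  have e3' : ∀ x y, a x + b x < a y + b y →
      (a x + ε * A' x) + (b x + ε * B' x) < (a y + ε * A' y) + (b y + ε * B' y) := by
    intro x y hxy
    have := e3 x y hxy
    linarith
  have e5 : ∀ x y, a x = a y → A' x < A' y → a x + ε * A' x < a y + ε * A' y := by
    intro x y h1 h2
    have := mul_lt_mul_of_pos_left h2 e0
    linarith
  have e6 : ∀ x y, b x = b y → B' x < B' y → b x + ε * B' x < b y + ε * B' y := by
    intro x y h1 h2
    have := mul_lt_mul_of_pos_left h2 e0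
    linarith
  set l' : X → ℝ := fun x => a x + ε * A' x with hl'
  set r' : X → ℝ := fun x => b x + ε * B' x with hr'
  -- relation of two vertices outside of W
  have KK : ∀ x ∉ W, ∀ y ∉ W, x ≠ y →
      (l' x < l' y ∧ r' x < r' y ∧ ¬ G.Adj x y) ∨ (l' y < l' x ∧ r' y < r' x ∧ ¬ G.Adj x y) ∨
      (l' x < l' y ∧ r' y < r' x ∧ G.Adj x y) ∨ (l' y < l' x ∧ r' x < r' y ∧ G.Adj x y) := by
    intro x hx y hy hxy
    obtain ⟨ax, bx, Ax, Bx⟩ := aK x hx
    obtain ⟨ay, by', Ay, By⟩ := aK y hy
    by_cases hk : κ x = κ y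
    · have haxy : a x = a y := by rw [ax, ay, hk]
      have hbxy : b x = b y := by rw [bx, by', hk]
      obtain ⟨hp, hq, hadj⟩ := hpq x hx y hy hk hxy
      rcases lt_or_gt_of_ne hp with hp1 | hp1
      · have h1 : l' x < l' y := e5 x y haxy (by rw [Ax, Ay]; exact hA x y hk hp1)
        rcases lt_or_gt_of_ne hq with hq1 | hq1
        · left
          refine ⟨h1, e6 x y hbxy (by rw [Bx, By]; exact hB x y hk hq1), ?_⟩
          rw [hadj]
          rintro (h2 | h2)
          · linarith [h2.2]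
          · linarith [h2.1]
        · right; right; left
          exact ⟨h1, e6 y x hbxy.symm (by rw [Bx, By]; exact hB y x hk.symm hq1),
            hadj.2 (Or.inl ⟨hp1, hq1⟩)⟩
      · have h1 : l' y < l' x := e5 y x haxy.symm (by rw [Ax, Ay]; exact hA y x hk.symm hp1)
        rcases lt_or_gt_of_ne hq with hq1 | hq1
        · right; right; right
          exact ⟨h1, e6 x y hbxy (by rw [Bx, By]; exact hB x y hk hq1),
            hadj.2 (Or.inr ⟨hp1, hq1⟩)⟩
        · right; left
          refine ⟨h1, e6 y x hbxy.symm (by rw [Bx, By]; exact hB y x hk.symm hq1), ?_⟩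
          rw [hadj]
          rintro (h2 | h2)
          · linarith [h2.1]
          · linarith [h2.2]
    · have hn : ¬ G.Adj x y := fun hc => hk (hκ x hx y hy hc)
      rcases hS _ (hσ x hx) _ (hσ y hy) with h1 | h1 | h1
      · have haxy : a x = a y := by rw [ax, ay, h1]
        have hbxy : b x = b y := by rw [bx, by', h1]
        rcases lt_or_gt_of_ne hk with hk1 | hk1
        · left
          exact ⟨e5 x y haxy (by rw [Ax, Ay]; exact (hAB1 x y hk1).1),
            e6 x y hbxy (by rw [Bx, By]; exact (hAB1 x y hk1).2), hn⟩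
        · right; left
          exact ⟨e5 y x haxy.symm (by rw [Ax, Ay]; exact (hAB1 y x hk1).1),
            e6 y x hbxy.symm (by rw [Bx, By]; exact (hAB1 y x hk1).2), hn⟩
      · left
        exact ⟨e1 x y (by rw [ax, ay]; exact h1.1), e2 x y (by rw [bx, by']; exact h1.2), hn⟩
      · right; left
        exact ⟨e1 y x (by rw [ax, ay]; exact h1.1), e2 y x (by rw [bx, by']; exact h1.2), hn⟩
  -- relation of a vertex outside of W to one in W
  have KW : ∀ x ∉ W, ∀ y ∈ W,
      (Act l r (σ (κ x)) y ∧ l' y < l' x ∧ r' x < r' y) ∨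
      (l' x < l' y ∧ r' x < r' y ∧ ¬ G.Adj x y) ∨ (l' y < l' x ∧ r' y < r' x ∧ ¬ G.Adj x y) := by
    intro x hx y hy
    obtain ⟨ax, bx, Ax, Bx⟩ := aK x hx
    obtain ⟨ay, by', Ay, By⟩ := aW y hy
    rcases (hgood _ (hσ x hx) y hy).1 with h1 | h1 | h1
    · left
      exact ⟨h1, e1 y x (by rw [ax, ay]; exact h1.1), e2 x y (by rw [bx, by']; exact h1.2)⟩
    · right; left
      refine ⟨e1 x y (by rw [ax, ay]; exact h1.1), e2 x y (by rw [bx, by']; exact h1.2), ?_⟩
      intro hc
      have := (hserve x hx y hy hc).1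
      linarith [h1.1]
    · right; right
      refine ⟨e1 y x (by rw [ax, ay]; exact h1.1), e2 y x (by rw [bx, by']; exact h1.2), ?_⟩
      intro hc
      have := (hserve x hx y hy hc).2
      linarith [h1.2]
  refine geo G W l' r' hW ?_ ?_ ?_
  · -- z is injective
    have hKW : ∀ x ∉ W, ∀ y ∈ W, l' x + r' x ≠ l' y + r' y := by
      intro x hx y hy
      obtain ⟨ax, bx, Ax, Bx⟩ := aK x hx
      obtain ⟨ay, by', Ay, By⟩ := aW y hy
      rcases lt_or_gt_of_ne (hgood _ (hσ x hx) y hy).2 with h1 | h1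
      · exact (e3' y x (by rw [ax, ay, bx, by']; exact h1)).ne'
      · exact (e3' x y (by rw [ax, ay, bx, by']; exact h1)).ne
    intro x y hxy
    by_cases hx : x ∈ W
    · by_cases hy : y ∈ W
      · obtain ⟨ax, bx, Ax, Bx⟩ := aW x hx
        obtain ⟨ay, by', Ay, By⟩ := aW y hy
        simp only [hl', hr', ax, bx, Ax, Bx, ay, by', Ay, By, mul_zero, add_zero]
        exact hzW x hx y hy hxy
      · exact (hKW y hy x hx).symm
    · by_cases hy : y ∈ W
      · exact hKW x hx y hy
      · obtain ⟨ax, bx, Ax, Bx⟩ := aK x hx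
        obtain ⟨ay, by', Ay, By⟩ := aK y hy
        rcases hS _ (hσ x hx) _ (hσ y hy) with h1 | h1 | h1
        · have h2 := hAB2 x hx y hy hxy
          simp only [hl', hr', ax, bx, Ax, Bx, ay, by', Ay, By, h1]
          intro hc
          have h3 : ε * (A x + B x - (A y + B y)) = 0 := by linarith
          rcases mul_eq_zero.1 h3 with h4 | h4
          · exact e0.ne' h4
          · exact h2 (by linarith)
        · exact (e3' x y (by rw [ax, ay, bx, by']; linarith [h1.1, h1.2])).ne
        · exact (e3' y x (by rw [ax, ay, bx, by']; linarith [h1.1, h1.2])).ne'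
  · -- relations
    intro x hx y hyx
    by_cases hy : y ∈ W
    · rcases KW x hx y hy with h1 | h1 | h1
      · left; exact h1.2
      · right; left; exact h1
      · right; right; left; exact h1
    · rcases KK x hx y hy hyx.symm with h1 | h1 | h1 | h1
      · right; left; exact h1
      · right; right; left; exact h1
      · right; right; right; exact h1
      · left; exact ⟨h1.1, h1.2.1⟩
  · -- separation
    intro x hx y w hadj h1 h2 hn hwx h3 h4
    by_cases hw : w ∈ W
    · obtain ⟨aw, bw, Aw, Bw⟩ := aW w hw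
      obtain ⟨ax, bx, Ax, Bx⟩ := aK x hx
      have hact : Act l r (σ (κ x)) w := by
        rcases KW x hx w hw with h5 | h5 | h5
        · exact h5.1
        · linarith [h5.1]
        · linarith [h5.2.1]
      by_cases hy : y ∈ W
      · obtain ⟨ay, by', Ay, By⟩ := aW y hy
        rcases hserve2 x hx y hy w hw hadj hn hact with h5 | h5
        · left
          exact ⟨e3' w x (by rw [aw, bw, ax, bx]; exact h5.1),
            e3' w y (by rw [aw, bw, ay, by']; exact h5.2)⟩
        · right
          exact ⟨e3' x w (by rw [aw, bw, ax, bx]; exact h5.1),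
            e3' y w (by rw [aw, bw, ay, by']; exact h5.2)⟩
      · obtain ⟨ay, by', Ay, By⟩ := aK y hy
        have hk := hκ x hx y hy hadj
        rcases lt_or_gt_of_ne (hgood _ (hσ x hx) w hw).2 with h5 | h5
        · left
          exact ⟨e3' w x (by rw [aw, bw, ax, bx]; exact h5),
            e3' w y (by rw [aw, bw, ay, by', ← hk]; exact h5)⟩
        · right
          exact ⟨e3' x w (by rw [aw, bw, ax, bx]; exact h5),
            e3' y w (by rw [aw, bw, ay, by', ← hk]; exact h5)⟩
    · exfalso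
      rcases KK x hx w hw hwx.symm with h5 | h5 | h5 | h5
      · linarith [h5.1]
      · linarith [h5.2.1]
      · exact hn h5.2.2
      · exact hn h5.2.2

end H71S
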