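import Pool.Agent.Lib.H71S.Rem

set_option autoImplicit false

namespace H71S

variable {V : Type}

/-- the numbers chosen in the ins case -/
structure Nums (r : V → ℝ) (P : List V) (q : V) (Q : List V) (a : V)
    (a0 b0 a1 b1 L κ μ : ℝ) : Prop where
  hκ : 0 < κ
  hL0 : b0 ≤ L
  hLQ : ∀ p ∈ Q, r p ≤ L
  hLq : L + 4 * κ < r q
  hL1 : L + 4 * κ < b1
  ha : a0 + 8 * κ ≤ a1
  hμ0 : b0 < μ
  hμ1 : μ ≤ L + κ
  hμa : μ ≤ r a

theorem exists_nums {P Q R : List V} {q a y : V} {I : List V} {l r : V → ℝ} {a0 b0 a1 b1 : ℝ}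
    (h : Start l r (P ++ q :: Q) y I a0 b0 a1 b1) (hq : q :: Q = R ++ [a]) :
    ∃ L κ μ, Nums r P q Q a a0 b0 a1 b1 L κ μ := by
  have hm := h.mono
  rw [List.pairwise_append] at hm
  obtain ⟨_, hm1, _⟩ := hm
  rw [List.pairwise_cons] at hm1
  have h1 : ∀ p ∈ Q, r p < r q := fun p hp => (hm1.1 p hp).2
  have h2 : ∀ p ∈ Q, r p < b1 := by
    intro p hp
    cases P with
    | nil => exact (h.head q Q rfl).2 p hp
    | cons p0 P => exact (h.head p0 (P ++ q :: Q) rfl).2 p (by simp [hp])
  have hb0 : b0 < min (r q) b1 := lt_min (h.rP q (by simp)) h.hb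
  obtain ⟨L, h3, h4, h5⟩ := exists_bound Q r b0 (min (r q) b1) hb0
    (fun p hp => lt_min (h1 p hp) (h2 p hp))
  have ha := h.ha
  have haR : a ∈ q :: Q := by rw [hq]; simp
  have hra : b0 < r a := h.rP a (by
    rcases List.mem_cons.1 haR with h6 | h6
    · simp [h6]
    · simp [h6])
  set κ := min (min (r q) b1 - L) (a1 - a0) / 8 with hκ
  have hκ0 : 0 < κ := by
    rw [hκ]
    have : 0 < min (min (r q) b1 - L) (a1 - a0) := lt_min (by linarith) (by linarith)
    linarith
  have hκ1 : 8 * κ ≤ min (r q) b1 - L := by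
    have := min_le_left (min (r q) b1 - L) (a1 - a0)
    rw [hκ]; linarith
  have hκ2 : 8 * κ ≤ a1 - a0 := by
    have := min_le_right (min (r q) b1 - L) (a1 - a0)
    rw [hκ]; linarith
  have h6 := min_le_left (r q) b1
  have h7 := min_le_right (r q) b1
  refine ⟨L, κ, min (L + κ) (r a), hκ0, h3, h5, by linarith, by linarith, by linarith,
    lt_min (by linarith) hra, min_le_left _ _, min_le_right _ _⟩

/-- facts on the path -/
theorem path_facts {P Q R : List V} {q a y : V} {I : List V} {l r : V → ℝ} {a0 b0 a1 b1 : ℝ}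
    (h : Start l r (P ++ q :: Q) y I a0 b0 a1 b1) (hq : q :: Q = R ++ [a]) :
    (∀ w ∈ P, ∀ v ∈ q :: Q, l w + r w < l v + r v ∧ r v < r w) ∧
    (∀ w ∈ P ++ q :: Q, w ≠ a → l w + r w < l a + r a ∧ r a < r w) ∧
    (∀ p ∈ Q, l q + r q < l p + r p ∧ r p < r q) := by
  have hm := h.mono
  refine ⟨?_, ?_, ?_⟩
  · rw [List.pairwise_append] at hm
    exact fun w hw v hv => hm.2.2 w hw v hv
  · rw [hq, ← List.append_assoc, List.pairwise_append] at hm
    intro w hw hwa
    refine hm.2.2 w ?_ a (by simp)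
    rw [hq, ← List.append_assoc] at hw
    rcases List.mem_append.1 hw with hw | hw
    · exact hw
    · exact absurd (by simpa using hw) hwa
  · rw [List.pairwise_append, List.pairwise_cons] at hm
    exact fun p hp => hm.2.1.1 p hp

theorem ins_start1 {P Q R : List V} {q a z y : V} {I J : List V} {l r : V → ℝ}
    {a0 b0 a1 b1 L κ μ : ℝ}
    (h : Start l r (P ++ q :: Q) y (z :: (I ++ J)) a0 b0 a1 b1) (hq : q :: Q = R ++ [a])
    (n : Nums r P q Q a a0 b0 a1 b1 L κ μ) (hlz : l z = a0 + 2 * κ) (hrz : r z = L + 3 * κ) :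
    Start l r (q :: Q) z I (a0 + 3 * κ) (b0 + 3 * (μ - b0) / 4) (a0 + 7 * κ / 2) (L + κ) := by
  obtain ⟨hκ, hL0, hLQ, hLq, hL1, ha, hμ0, hμ1, hμa⟩ := n
  obtain ⟨f1, f2, f3⟩ := path_facts h hq
  refine ⟨?_, by linarith, by linarith, ?_, ?_, ?_, by rw [hlz]; linarith, by rw [hrz]; linarith,
    by rw [hlz, hrz]; linarith, ?_, ?_⟩
  · have h1 := h.nd
    have h2 : (q :: Q ++ z :: I).Sublist (P ++ q :: Q ++ y :: (z :: (I ++ J))) := by
      rw [List.append_assoc]
      refine List.Sublist.trans ?_ (List.sublist_append_right _ _)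
      apply List.Sublist.append_left
      refine List.Sublist.cons _ ?_
      apply List.Sublist.cons_cons
      exact List.sublist_append_left _ _
    exact h1.sublist h2
  · intro p hp
    have := h.lP p (List.mem_append_right _ hp)
    linarith
  · intro p hp
    have hp' : p ∈ P ++ q :: Q := List.mem_append_right _ hp
    by_cases hpa : p = a
    · rw [hpa]; linarith
    · have := (f2 p hp' hpa).2
      linarith
  · intro p hp
    have := h.zP p (List.mem_append_right _ hp)
    linarith
  · have hm := h.mono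
    rw [List.pairwise_append] at hm
    exact hm.2.1
  · intro p P' hP
    obtain ⟨rfl, rfl⟩ := List.cons.inj hP
    refine ⟨by linarith, fun p hp => ?_⟩
    have := hLQ p hp
    linarith

theorem ins_start2 {P Q R : List V} {q a z y : V} {I J : List V} {l r : V → ℝ}
    {a0 b0 a1 b1 L κ μ : ℝ}
    (h : Start l r (P ++ q :: Q) y (z :: (I ++ J)) a0 b0 a1 b1) (hq : q :: Q = R ++ [a])
    (n : Nums r P q Q a a0 b0 a1 b1 L κ μ) (hlz : l z = a0 + 2 * κ) (hrz : r z = L + 3 * κ) :
    Start l r (P ++ [q, z]) y J (a0 + 5 * κ) (L + 2 * κ) a1 b1 := by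
  obtain ⟨hκ, hL0, hLQ, hLq, hL1, ha, hμ0, hμ1, hμa⟩ := n
  obtain ⟨f1, f2, f3⟩ := path_facts h hq
  have e1 : P ++ [q, z] = (P ++ [q]) ++ [z] := by simp
  have hPq : ∀ p ∈ P ++ [q], p ∈ P ++ q :: Q := by
    intro p hp; simp at hp ⊢; tauto
  have hrq : ∀ p ∈ P ++ [q], r q ≤ r p := by
    intro p hp
    simp at hp
    rcases hp with hp | rfl
    · exact (f1 p hp q (by simp)).2.le
    · exact le_rfl
  refine ⟨?_, by linarith, by linarith, ?_, ?_, ?_, ?_, h.ry, h.zy, ?_, ?_⟩
  · have h1 := h.nd
    have h2 : (P ++ q :: (z :: (y :: J))).Subperm (P ++ q :: Q ++ y :: (z :: (I ++ J))) := by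
      rw [List.append_assoc, List.cons_append]
      rw [List.subperm_append_left, List.subperm_cons]
      refine List.Subperm.trans ?_ (List.sublist_append_right Q _).subperm
      refine (List.Perm.swap y z J).subperm.trans ?_
      rw [List.subperm_cons, List.subperm_cons]
      exact (List.sublist_append_right I J).subperm
    have h3 : (P ++ [q, z] ++ y :: J) = (P ++ q :: (z :: (y :: J))) := by simp
    rw [h3]
    obtain ⟨l', hp, hs⟩ := h2
    exact hp.nodup_iff.1 (h1.sublist hs)
  · intro p hp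
    rw [e1] at hp
    rcases List.mem_append.1 hp with hp | hp
    · have := h.lP p (hPq p hp)
      linarith
    · simp at hp; rw [hp, hlz]; linarith
  · intro p hp
    rw [e1] at hp
    rcases List.mem_append.1 hp with hp | hp
    · have := hrq p hp
      linarith
    · simp at hp; rw [hp, hrz]; linarith
  · intro p hp
    rw [e1] at hp
    rcases List.mem_append.1 hp with hp | hp
    · have := h.zP p (hPq p hp)
      linarith
    · simp at hp; rw [hp, hrz, hlz]; linarith
  · have := h.ly
    linarith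
  · rw [e1, List.pairwise_append]
    refine ⟨?_, by simp, ?_⟩
    · refine h.mono.sublist ?_
      apply List.Sublist.append_left
      simp
    · intro p hp b hb
      have hbz : b = z := by simpa using hb
      subst hbz
      have h1 := hrq p hp
      have h2 := h.zP p (hPq p hp)
      rw [hlz, hrz]
      exact ⟨by linarith, by linarith⟩
  · intro p P' hP
    cases P with
    | nil =>
      simp at hP
      obtain ⟨rfl, rfl⟩ := hP
      have h1 := h.head q Q rfl
      refine ⟨h1.1, fun w hw => ?_⟩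
      have hwz : w = z := by simpa using hw
      rw [hwz, hrz]; linarith
    | cons p0 P =>
      simp at hP
      obtain ⟨rfl, rfl⟩ := hP
      have h1 := h.head p0 (P ++ q :: Q) rfl
      refine ⟨h1.1, fun w hw => ?_⟩
      by_cases hwz : w = z
      · rw [hwz, hrz]; linarith
      · exact h1.2 w (by simp at hw ⊢; tauto)

end H71S
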