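import Pool.Agent.Lib.H71S.Ins

set_option autoImplicit false

namespace H71S

variable {V : Type}

theorem Start.congr {l r l' r' : V → ℝ} {P : List V} {y : V} {I : List V} {a0 b0 a1 b1 : ℝ}
    (h : Start l r P y I a0 b0 a1 b1) (hA : ∀ w ∈ P ++ [y], l' w = l w ∧ r' w = r w) :
    Start l' r' P y I a0 b0 a1 b1 := by
  have hP : ∀ w ∈ P, l' w = l w ∧ r' w = r w := fun w hw => hA w (by simp [hw])
  have hy : l' y = l y ∧ r' y = r y := hA y (by simp)
  refine ⟨h.nd, h.ha, h.hb, ?_, ?_, ?_, ?_, ?_, ?_, ?_, ?_⟩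
  · intro p hp; rw [(hP p hp).1]; exact h.lP p hp
  · intro p hp; rw [(hP p hp).2]; exact h.rP p hp
  · intro p hp; rw [(hP p hp).1, (hP p hp).2]; exact h.zP p hp
  · rw [hy.1]; exact h.ly
  · rw [hy.2]; exact h.ry
  · rw [hy.1, hy.2]; exact h.zy
  · refine h.mono.imp_of_mem ?_
    intro a b ha hb hab
    rw [(hP a ha).1, (hP a ha).2, (hP b hb).1, (hP b hb).2]
    exact hab
  · intro p P' hPP
    have h1 := h.head p P' hPP
    refine ⟨?_, fun q hq => ?_⟩
    · rw [(hP p (by simp [hPP])).2]; exact h1.1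
    · rw [(hP q (by simp [hPP, hq])).2]; exact h1.2 q hq

theorem Nums.congr {r r' : V → ℝ} {P : List V} {q : V} {Q : List V} {a : V}
    {a0 b0 a1 b1 L κ μ : ℝ} (h : Nums r P q Q a a0 b0 a1 b1 L κ μ)
    (hq : ∀ w ∈ q :: Q, r' w = r w) (ha : r' a = r a) : Nums r' P q Q a a0 b0 a1 b1 L κ μ := by
  refine ⟨h.hκ, h.hL0, ?_, ?_, h.hL1, h.ha, h.hμ0, h.hμ1, ?_⟩
  · intro p hp; rw [hq p (by simp [hp])]; exact h.hLQ p hp
  · rw [hq q (by simp)]; exact h.hLq
  · rw [ha]; exact h.hμa

theorem ins_out {P Q R : List V} {q a z y : V} {I J : List V} {F G : List (V × V × V)}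
    {l r : V → ℝ} {a0 b0 a1 b1 L κ μ : ℝ}
    (h : Start l r (P ++ q :: Q) y (z :: (I ++ J)) a0 b0 a1 b1) (hq : q :: Q = R ++ [a])
    (n : Nums r P q Q a a0 b0 a1 b1 L κ μ) (hlz : l z = a0 + 2 * κ) (hrz : r z = L + 3 * κ)
    {S1 S2 : Set (ℝ × ℝ)}
    (o1 : Out l r (q :: Q) z I F (a0 + 3 * κ) (b0 + 3 * (μ - b0) / 4) (a0 + 7 * κ / 2) (L + κ) S1)
    (o2 : Out l r (P ++ [q, z]) y J G (a0 + 5 * κ) (L + 2 * κ) a1 b1 S2) :
    Out l r (P ++ q :: Q) y (z :: (I ++ J)) ((a, z, y) :: (F ++ G)) a0 b0 a1 b1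
      ({(a0 + κ, b0 + (μ - b0) / 4)} ∪ ({(a0 + 5 * κ / 2, b0 + (μ - b0) / 2)} ∪ (S1 ∪ S2))) := by
  obtain ⟨f1, f2, f3⟩ := path_facts h hq
  obtain ⟨hκ, hL0, hLQ, hLq, hL1, ha, hμ0, hμ1, hμa⟩ := n
  set A := P ++ q :: Q ++ y :: (z :: (I ++ J)) with hA
  set sA : ℝ × ℝ := (a0 + κ, b0 + (μ - b0) / 4) with hsA
  set sB : ℝ × ℝ := (a0 + 5 * κ / 2, b0 + (μ - b0) / 2) with hsB
  set S : Set (ℝ × ℝ) := {sA} ∪ ({sB} ∪ (S1 ∪ S2)) with hS
  have mA : sA ∈ S := Or.inl rfl
  have mB : sB ∈ S := Or.inr (Or.inl rfl)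
  have m1 : ∀ s ∈ S1, s ∈ S := fun s hs => Or.inr (Or.inr (Or.inl hs))
  have m2 : ∀ s ∈ S2, s ∈ S := fun s hs => Or.inr (Or.inr (Or.inr hs))
  have hy1 := h.ly
  have hy2 := h.ry
  have hy3 := h.zy
  have lP := h.lP
  have zP := h.zP
  have haPQ : a ∈ P ++ q :: Q := by
    rw [hq]; simp
  have haqQ : a ∈ q :: Q := by
    rw [hq]; simp
  -- r of the path is at least μ
  have rP : ∀ p ∈ P ++ q :: Q, μ ≤ r p := by
    intro p hp
    by_cases hpa : p = a
    · rw [hpa]; exact hμa
    · have := (f2 p hp hpa).2; linarith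
  have b1I := o1.box
  have b2J := o2.box
  -- activity
  have actA : ∀ p ∈ P ++ q :: Q, Act l r sA p := fun p hp => by
    have h1 := lP p hp
    have h2 := rP p hp
    exact ⟨by simp only [hsA]; linarith, by simp only [hsA]; linarith⟩
  have actB : ∀ p ∈ P ++ q :: Q, Act l r sB p := fun p hp => by
    have h1 := lP p hp
    have h2 := rP p hp
    exact ⟨by simp only [hsB]; linarith, by simp only [hsB]; linarith⟩
  have actAy : Act l r sA y := ⟨by simp only [hsA]; linarith, by simp only [hsA]; linarith⟩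
  have actBy : Act l r sB y := ⟨by simp only [hsB]; linarith, by simp only [hsB]; linarith⟩
  have actBz : Act l r sB z :=
    ⟨by simp only [hsB]; rw [hlz]; linarith, by simp only [hsB]; rw [hrz]; linarith⟩
  have nAz : ¬ Act l r sA z := by
    rintro ⟨h1, _⟩; simp only [hsA] at h1; rw [hlz] at h1; linarith
  have nAI : ∀ w ∈ I, ¬ Act l r sA w := by
    rintro w hw ⟨h1, _⟩
    have := (b1I w hw).1
    simp only [hsA] at h1; linarith
  have nBI : ∀ w ∈ I, ¬ Act l r sB w := by
    rintro w hw ⟨h1, _⟩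
    have := (b1I w hw).1
    simp only [hsB] at h1; linarith
  have nAJ : ∀ w ∈ J, ¬ Act l r sA w := by
    rintro w hw ⟨h1, _⟩
    have := (b2J w hw).1
    simp only [hsA] at h1; linarith
  have nBJ : ∀ w ∈ J, ¬ Act l r sB w := by
    rintro w hw ⟨h1, _⟩
    have := (b2J w hw).1
    simp only [hsB] at h1; linarith
  have hza := zP a haPQ
  -- case split of membership in A
  have memA : ∀ w ∈ A, w ∈ P ++ q :: Q ∨ w = y ∨ w = z ∨ w ∈ I ∨ w ∈ J := by
    intro w hw
    rw [hA] at hw
    rcases List.mem_append.1 hw with hw | hw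
    · exact Or.inl hw
    · right
      simpa using hw
  -- lifting from the first child
  have sub1 : ∀ w ∈ q :: Q ++ z :: I, w ∈ A := by
    intro w hw; rw [hA]; simp at hw ⊢; tauto
  have out1 : ∀ s ∈ S1, ∀ w ∈ A, w ∈ q :: Q ++ z :: I ∨ OutS (q :: Q ++ z :: I) l r s w := by
    intro s hs w hw
    obtain ⟨h1, h2, h3, h4⟩ := o1.sbox s hs
    rcases memA w hw with h5 | h5 | h5 | h5 | h5
    · rcases List.mem_append.1 h5 with h6 | h6
      · right; right; left
        have h7 := zP w h5
        refine ⟨by linarith, fun v hv => ?_⟩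
        rcases List.mem_append.1 hv with hv | hv
        · exact (f1 w h6 v hv).1
        · rcases List.mem_cons.1 hv with rfl | hv
          · rw [hlz, hrz]; linarith
          · obtain ⟨h8, h9, h10, h11⟩ := b1I v hv
            linarith
      · left; exact List.mem_append_left _ h6
    · right; right; right
      rw [h5]
      refine ⟨by linarith, fun v hv => ?_⟩
      rcases List.mem_append.1 hv with hv | hv
      · have := zP v (List.mem_append_right _ hv)
        linarith
      · rcases List.mem_cons.1 hv with rfl | hv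
        · rw [hlz, hrz]; linarith
        · obtain ⟨h8, h9, h10, h11⟩ := b1I v hv
          linarith
    · left; rw [h5]; simp
    · left; simp [h5]
    · right; left
      rintro ⟨h6, _⟩
      have := (b2J w h5).1
      linarith
  have sub2 : ∀ w ∈ P ++ [q, z] ++ y :: J, w ∈ A := by
    intro w hw; rw [hA]; simp at hw ⊢; tauto
  have out2 : ∀ s ∈ S2, ∀ w ∈ A, w ∈ P ++ [q, z] ++ y :: J ∨
      OutS (P ++ [q, z] ++ y :: J) l r s w := by
    intro s hs w hw
    obtain ⟨h1, h2, h3, h4⟩ := o2.sbox s hs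
    rcases memA w hw with h5 | h5 | h5 | h5 | h5
    · rcases List.mem_append.1 h5 with h6 | h6
      · left; simp [h6]
      · rcases List.mem_cons.1 h6 with h7 | h7
        · left; simp [h7]
        · right; left
          rintro ⟨_, h8⟩
          have := hLQ w h7
          linarith
    · left; simp [h5]
    · left; simp [h5]
    · right; left
      rintro ⟨_, h8⟩
      have := (b1I w h5).2.2.2
      linarith
    · left; simp [h5]
  -- the pair (a, y)
  have pay : PairS A l r sA a y := by
    refine ⟨by rw [hA]; exact List.mem_append_left _ haPQ, by rw [hA]; simp, actA a haPQ, actAy,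
      by simp only [hsA]; linarith, by simp only [hsA]; linarith, ?_⟩
    intro w hw hwa hwy hact
    rcases memA w hw with h5 | h5 | h5 | h5 | h5
    · exact Or.inl (f2 w h5 hwa).1
    · exact absurd h5 hwy
    · rw [h5] at hact; exact absurd hact nAz
    · exact absurd hact (nAI w h5)
    · exact absurd hact (nAJ w h5)
  have fazy : FaceS A l r sB a z y := by
    refine ⟨by rw [hA]; exact List.mem_append_left _ haPQ, by rw [hA]; simp, by rw [hA]; simp,
      actB a haPQ, actBz, actBy, ?_⟩
    intro w hw hwa hwz hwy hact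
    rcases memA w hw with h5 | h5 | h5 | h5 | h5
    · left
      have h6 := zP w h5
      refine ⟨by simp only [hsB]; linarith, (f2 w h5 hwa).1, by rw [hlz, hrz]; linarith,
        by linarith⟩
    · exact absurd h5 hwy
    · exact absurd h5 hwz
    · exact absurd hact (nBI w h5)
    · exact absurd hact (nBJ w h5)
  -- the pair (q, z)
  have pqz : ∃ s ∈ S, PairS A l r s q z := by
    obtain ⟨s, hs, h1⟩ := o1.hd q Q rfl
    exact ⟨s, m1 s hs, h1.lift sub1 (out1 s hs)⟩
  have paz : ∃ s ∈ S, PairS A l r s a z := by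
    obtain ⟨s, hs, h1⟩ := o1.last R a hq
    exact ⟨s, m1 s hs, h1.lift sub1 (out1 s hs)⟩
  have pzy : ∃ s ∈ S, PairS A l r s z y := by
    obtain ⟨s, hs, h1⟩ := o2.last (P ++ [q]) z (by simp)
    exact ⟨s, m2 s hs, h1.lift sub2 (out2 s hs)⟩
  have PP1 : ∀ c d, PP (q :: Q ++ z :: I) l r S1 (q :: Q) c d →
      PP A l r S (P ++ q :: Q) c d := fun c d hcd =>
    hcd.lift m1 sub1 out1 fun hc => Or.inl (prepend_consec hc)
  have PP2 : ∀ c d, PP (P ++ [q, z] ++ y :: J) l r S2 (P ++ [q, z]) c d →
      PP A l r S (P ++ q :: Q) c d := fun c d hcd => by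
    refine hcd.lift m2 sub2 out2 fun hc => ?_
    obtain ⟨X, Y, hXY⟩ := hc
    rcases List.eq_nil_or_concat Y with hY | ⟨Y', z', hY⟩
    · subst hY
      have e1 : (P ++ [q]) ++ [z] = (X ++ [c]) ++ [d] := by simpa using hXY
      have e2 := List.append_inj' e1 rfl
      have e3 := List.append_inj' e2.1 rfl
      have hc : c = q := by simpa using e3.2.symm
      have hd : d = z := by simpa using e2.2.symm
      rw [hc, hd]
      exact Or.inr pqz
    · subst hY
      left
      have e1 : (P ++ [q]) ++ [z] = (X ++ c :: d :: Y') ++ [z'] := by simpa using hXY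
      have e2 := List.append_inj' e1 rfl
      have e3 : P ++ q :: Q = (P ++ [q]) ++ Q := by simp
      rw [e3, e2.1]
      exact ⟨X, Y' ++ Q, by simp⟩
  refine ⟨?_, ?_, ?_, ?_, ?_, ?_, ?_, ?_, ?_, ?_, ?_⟩
  · -- box
    intro w hw
    rcases List.mem_cons.1 hw with rfl | hw
    · rw [hlz, hrz]; exact ⟨by linarith, by linarith, by linarith, by linarith⟩
    · rcases List.mem_append.1 hw with hw | hw
      · obtain ⟨h1, h2, h3, h4⟩ := b1I w hw
        exact ⟨by linarith, by linarith, by linarith, by linarith⟩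
      · obtain ⟨h1, h2, h3, h4⟩ := b2J w hw
        exact ⟨by linarith, by linarith, by linarith, by linarith⟩
  · -- inj
    rw [List.pairwise_cons, List.pairwise_append]
    refine ⟨?_, o1.inj, o2.inj, ?_⟩
    · intro w hw
      rw [hlz, hrz]
      rcases List.mem_append.1 hw with hw | hw
      · obtain ⟨h1, h2, h3, h4⟩ := b1I w hw
        intro hc; linarith
      · obtain ⟨h1, h2, h3, h4⟩ := b2J w hw
        intro hc; linarith
    · intro v hv w hw
      obtain ⟨h1, h2, h3, h4⟩ := b1I v hv
      obtain ⟨h5, h6, h7, h8⟩ := b2J w hw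
      intro hc; linarith
  · -- sbox
    rintro s (rfl | rfl | hs | hs)
    · simp only [hsA]; exact ⟨by linarith, by linarith, by linarith, by linarith⟩
    · simp only [hsB]; exact ⟨by linarith, by linarith, by linarith, by linarith⟩
    · obtain ⟨h1, h2, h3, h4⟩ := o1.sbox s hs
      exact ⟨by linarith, by linarith, by linarith, by linarith⟩
    · obtain ⟨h1, h2, h3, h4⟩ := o2.sbox s hs
      exact ⟨by linarith, by linarith, by linarith, by linarith⟩
  · -- chain
    refine (Chain.singleton _).union ((Chain.singleton _).union (o1.chain.union o2.chain ?_) ?_) ?_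
    · intro s hs t ht
      obtain ⟨h1, h2, h3, h4⟩ := o1.sbox s hs
      obtain ⟨h5, h6, h7, h8⟩ := o2.sbox t ht
      exact ⟨by linarith, by linarith⟩
    · rintro s rfl t (ht | ht)
      · obtain ⟨h1, h2, h3, h4⟩ := o1.sbox t ht
        simp only [hsB]; exact ⟨by linarith, by linarith⟩
      · obtain ⟨h1, h2, h3, h4⟩ := o2.sbox t ht
        simp only [hsB]; exact ⟨by linarith, by linarith⟩
    · rintro s rfl t (rfl | ht | ht)
      · simp only [hsA, hsB]; exact ⟨by linarith, by linarith⟩
      · obtain ⟨h1, h2, h3, h4⟩ := o1.sbox t ht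
        simp only [hsA]; exact ⟨by linarith, by linarith⟩
      · obtain ⟨h1, h2, h3, h4⟩ := o2.sbox t ht
        simp only [hsA]; exact ⟨by linarith, by linarith⟩
  · -- good
    rintro s (rfl | rfl | hs | hs) w hw
    · rcases memA w hw with h5 | h5 | h5 | h5 | h5
      · have := zP w h5
        exact ⟨Or.inl (actA w h5), by simp only [hsA]; intro hc; linarith⟩
      · rw [h5]; exact ⟨Or.inl actAy, by simp only [hsA]; intro hc; linarith⟩
      · rw [h5]
        refine ⟨Or.inr (Or.inl ⟨?_, ?_⟩), ?_⟩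
        · simp only [hsA]; rw [hlz]; linarith
        · simp only [hsA]; rw [hrz]; linarith
        · simp only [hsA]; rw [hlz, hrz]; intro hc; linarith
      · obtain ⟨h1, h2, h3, h4⟩ := b1I w h5
        refine ⟨Or.inr (Or.inl ⟨?_, ?_⟩), ?_⟩
        · simp only [hsA]; linarith
        · simp only [hsA]; linarith
        · simp only [hsA]; intro hc; linarith
      · obtain ⟨h1, h2, h3, h4⟩ := b2J w h5
        refine ⟨Or.inr (Or.inl ⟨?_, ?_⟩), ?_⟩
        · simp only [hsA]; linarith
        · simp only [hsA]; linarith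
        · simp only [hsA]; intro hc; linarith
    · rcases memA w hw with h5 | h5 | h5 | h5 | h5
      · have := zP w h5
        exact ⟨Or.inl (actB w h5), by simp only [hsB]; intro hc; linarith⟩
      · rw [h5]; exact ⟨Or.inl actBy, by simp only [hsB]; intro hc; linarith⟩
      · rw [h5]; exact ⟨Or.inl actBz, by simp only [hsB]; rw [hlz, hrz]; intro hc; linarith⟩
      · obtain ⟨h1, h2, h3, h4⟩ := b1I w h5
        refine ⟨Or.inr (Or.inl ⟨?_, ?_⟩), ?_⟩
        · simp only [hsB]; linarith
        · simp only [hsB]; linarith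
        · simp only [hsB]; intro hc; linarith
      · obtain ⟨h1, h2, h3, h4⟩ := b2J w h5
        refine ⟨Or.inr (Or.inl ⟨?_, ?_⟩), ?_⟩
        · simp only [hsB]; linarith
        · simp only [hsB]; linarith
        · simp only [hsB]; intro hc; linarith
    · obtain ⟨h1, h2, h3, h4⟩ := o1.sbox s hs
      rcases memA w hw with h5 | h5 | h5 | h5 | h5
      · rcases List.mem_append.1 h5 with h6 | h6
        · have h7 := lP w h5
          have h8 := zP w h5
          have h9 := (f1 w h6 q (by simp)).2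
          exact ⟨Or.inl ⟨by linarith, by linarith⟩, by intro hc; linarith⟩
        · exact o1.good s hs w (List.mem_append_left _ h6)
      · rw [h5]; exact ⟨Or.inl ⟨by linarith, by linarith⟩, by intro hc; linarith⟩
      · exact o1.good s hs w (by rw [h5]; simp)
      · exact o1.good s hs w (by simp [h5])
      · obtain ⟨h6, h7, h8, h9⟩ := b2J w h5
        exact ⟨Or.inr (Or.inl ⟨by linarith, by linarith⟩), by intro hc; linarith⟩
    · obtain ⟨h1, h2, h3, h4⟩ := o2.sbox s hs
      rcases memA w hw with h5 | h5 | h5 | h5 | h5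
      · rcases List.mem_append.1 h5 with h6 | h6
        · exact o2.good s hs w (by simp [h6])
        · rcases List.mem_cons.1 h6 with h7 | h7
          · exact o2.good s hs w (by simp [h7])
          · have h8 := lP w h5
            have h9 := zP w h5
            have h10 := hLQ w h7
            exact ⟨Or.inr (Or.inr ⟨by linarith, by linarith⟩), by intro hc; linarith⟩
      · exact o2.good s hs w (by simp [h5])
      · exact o2.good s hs w (by simp [h5])
      · obtain ⟨h6, h7, h8, h9⟩ := b1I w h5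
        exact ⟨Or.inr (Or.inr ⟨by linarith, by linarith⟩), by intro hc; linarith⟩
      · exact o2.good s hs w (by simp [h5])
  · -- last
    intro R' a' hR'
    have : a' = a := by
      rw [hq, ← List.append_assoc] at hR'
      have := List.append_inj' hR' rfl
      simpa using this.2.symm
    rw [this]
    exact ⟨sA, mA, pay⟩
  · -- head
    intro a' R' hR'
    obtain ⟨R2, hR2⟩ : ∃ R2, P ++ [q, z] = a' :: R2 := by
      cases P with
      | nil =>
        simp at hR'
        exact ⟨[z], by simp [hR'.1]⟩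
      | cons p P =>
        simp at hR'
        exact ⟨P ++ [q, z], by simp [hR'.1]⟩
    obtain ⟨s, hs, h1⟩ := o2.hd a' R2 hR2
    exact ⟨s, m2 s hs, h1.lift sub2 (out2 s hs)⟩
  · -- faces
    intro f hf
    rcases List.mem_cons.1 hf with rfl | hf
    · exact ⟨sB, mB, fazy⟩
    · rcases List.mem_append.1 hf with hf | hf
      · obtain ⟨s, hs, h1⟩ := o1.face f hf
        exact ⟨s, m1 s hs, h1.lift sub1 (out1 s hs)⟩
      · obtain ⟨s, hs, h1⟩ := o2.face f hf
        exact ⟨s, m2 s hs, h1.lift sub2 (out2 s hs)⟩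
  · intro f hf
    rcases List.mem_cons.1 hf with rfl | hf
    · exact Or.inr paz
    · rcases List.mem_append.1 hf with hf | hf
      · exact PP1 _ _ (o1.p1 f hf)
      · exact PP2 _ _ (o2.p1 f hf)
  · intro f hf
    rcases List.mem_cons.1 hf with rfl | hf
    · exact Or.inr pzy
    · rcases List.mem_append.1 hf with hf | hf
      · exact PP1 _ _ (o1.p2 f hf)
      · exact PP2 _ _ (o2.p2 f hf)
  · intro f hf
    rcases List.mem_cons.1 hf with rfl | hf
    · exact Or.inr ⟨sA, mA, pay⟩
    · rcases List.mem_append.1 hf with hf | hf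
      · exact PP1 _ _ (o1.p3 f hf)
      · exact PP2 _ _ (o2.p3 f hf)

end H71S
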