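import Pool.Agent.Lib.H71S.Star

set_option autoImplicit false

/-!
# Stellar subdivision of the faces of a map
-/

namespace H71S

open Equiv Equiv.Perm

variable {D V : Type}

/-- a triangulated map without loops -/
structure Tg (φ α : Perm D) (lam : D → V) : Prop where
  lm : LM φ α lam
  loop : ∀ d, α d ≠ d → lam (α d) ≠ lam d
  tri : ∀ d, α d ≠ d → φ (φ (φ d)) = d

section

variable (φ α : Perm D) (U : D → Prop) [DecidablePred U]

def sF : D × Fin 3 → D × Fin 3
  | (d, 0) => if U d then (d, 1) else (φ d, 0)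
  | (d, 1) => if U d then (d, 2) else (d, 1)
  | (d, 2) => if U d then (d, 0) else (d, 2)

def sF' : D × Fin 3 → D × Fin 3
  | (d, 0) => if U d then (d, 2) else (φ⁻¹ d, 0)
  | (d, 1) => if U d then (d, 0) else (d, 1)
  | (d, 2) => if U d then (d, 1) else (d, 2)

def sA : D × Fin 3 → D × Fin 3
  | (d, 0) => (α d, 0)
  | (d, 1) => if U d then (φ d, 2) else (d, 1)
  | (d, 2) => if U d then (φ⁻¹ d, 1) else (d, 2)

end

theorem exists_g3 {E C : Type} (a b c : E → C) : ∃ g : E × Fin 3 → C,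
    (∀ d, g (d, 0) = a d) ∧ (∀ d, g (d, 1) = b d) ∧ ∀ d, g (d, 2) = c d :=
  ⟨fun x => ![a x.1, b x.1, c x.1] x.2, fun _ => rfl, fun _ => rfl, fun _ => rfl⟩

theorem exists_ite {E C : Type} (U : E → Prop) (p : ∀ d, U d → C) (q : ∀ d, ¬ U d → C) :
    ∃ a : E → C, (∀ d (hd : U d), a d = p d hd) ∧ (∀ d (hd : ¬ U d), a d = q d hd) := by
  classical
  exact ⟨fun d => if hd : U d then p d hd else q d hd, fun d hd => dif_pos hd,
    fun d hd => dif_neg hd⟩

theorem cases3 {E : Type} {P : E × Fin 3 → Prop} (h0 : ∀ d, P (d, 0)) (h1 : ∀ d, P (d, 1))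
    (h2 : ∀ d, P (d, 2)) : ∀ x, P x := by
  rintro ⟨d, i⟩
  fin_cases i
  · exact h0 d
  · exact h1 d
  · exact h2 d

theorem stel [Finite D] (φ α : Perm D) (lam : D → V) (U : D → Prop) (h : LM φ α lam)
    (loop : ∀ d, α d ≠ d → lam (α d) ≠ lam d)
    (hU : ∀ d, U (φ d) ↔ U d) (hUl : ∀ d, U d → α d ≠ d)
    (hUt : ∀ d, α d ≠ d → ¬ U d → φ (φ (φ d)) = d) :
    ∃ (F A : Perm (D × Fin 3)) (L : D × Fin 3 → V ⊕ Quotient (SameCycle.setoid φ)),
      Tg F A L ∧ (∀ d, α d ≠ d → A (d, 0) ≠ (d, 0)) ∧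
      (∀ d, L (d, 0) = Sum.inl (lam d)) ∧ (∀ d, A (d, 0) = (α d, 0)) ∧
      (∀ d, ¬ U d → F (d, 0) = (φ d, 0)) ∧
      (∀ x, A x ≠ x → (∃ d, α d ≠ d ∧ L x = Sum.inl (lam d)) ∨ ∃ q, L x = Sum.inr q) := by
  classical
  have φφ : ∀ d, φ (φ⁻¹ d) = d := fun d => φ.apply_symm_apply d
  have φφ' : ∀ d, φ⁻¹ (φ d) = d := fun d => φ.symm_apply_apply d
  have hU' : ∀ d, U (φ⁻¹ d) ↔ U d := fun d => by
    rw [← hU, φφ]
  have inv := h.inv
  set F : Perm (D × Fin 3) :=
    { toFun := sF φ U
      invFun := sF' φ U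
      left_inv := by
        rintro ⟨d, i⟩
        fin_cases i
        · change sF' φ U (if U d then (d, 1) else (φ d, 0)) = (d, 0)
          by_cases hd : U d
          · rw [if_pos hd]
            change (if U d then (d, 0) else (d, 1)) = ((d, 0) : D × Fin 3)
            rw [if_pos hd]
          · rw [if_neg hd]
            change (if U (φ d) then (φ d, 2) else (φ⁻¹ (φ d), 0)) = ((d, 0) : D × Fin 3)
            rw [if_neg (fun hc => hd ((hU d).1 hc)), φφ']
        · change sF' φ U (if U d then (d, 2) else (d, 1)) = (d, 1)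
          by_cases hd : U d
          · rw [if_pos hd]
            change (if U d then (d, 1) else (d, 2)) = ((d, 1) : D × Fin 3)
            rw [if_pos hd]
          · rw [if_neg hd]
            change (if U d then (d, 0) else (d, 1)) = ((d, 1) : D × Fin 3)
            rw [if_neg hd]
        · change sF' φ U (if U d then (d, 0) else (d, 2)) = (d, 2)
          by_cases hd : U d
          · rw [if_pos hd]
            change (if U d then (d, 2) else (φ⁻¹ d, 0)) = ((d, 2) : D × Fin 3)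
            rw [if_pos hd]
          · rw [if_neg hd]
            change (if U d then (d, 1) else (d, 2)) = ((d, 2) : D × Fin 3)
            rw [if_neg hd]
      right_inv := by
        rintro ⟨d, i⟩
        fin_cases i
        · change sF φ U (if U d then (d, 2) else (φ⁻¹ d, 0)) = (d, 0)
          by_cases hd : U d
          · rw [if_pos hd]
            change (if U d then (d, 0) else (d, 2)) = ((d, 0) : D × Fin 3)
            rw [if_pos hd]
          · rw [if_neg hd]
            change (if U (φ⁻¹ d) then (φ⁻¹ d, 1) else (φ (φ⁻¹ d), 0)) = ((d, 0) : D × Fin 3)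
            rw [if_neg (fun hc => hd ((hU' d).1 hc)), φφ]
        · change sF φ U (if U d then (d, 0) else (d, 1)) = (d, 1)
          by_cases hd : U d
          · rw [if_pos hd]
            change (if U d then (d, 1) else (φ d, 0)) = ((d, 1) : D × Fin 3)
            rw [if_pos hd]
          · rw [if_neg hd]
            change (if U d then (d, 2) else (d, 1)) = ((d, 1) : D × Fin 3)
            rw [if_neg hd]
        · change sF φ U (if U d then (d, 1) else (d, 2)) = (d, 2)
          by_cases hd : U d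
          · rw [if_pos hd]
            change (if U d then (d, 2) else (d, 1)) = ((d, 2) : D × Fin 3)
            rw [if_pos hd]
          · rw [if_neg hd]
            change (if U d then (d, 0) else (d, 2)) = ((d, 2) : D × Fin 3)
            rw [if_neg hd] } with hF
  have sAA : Function.Involutive (sA φ α U) := by
    rintro ⟨d, i⟩
    fin_cases i
    · change ((α (α d), 0) : D × Fin 3) = (d, 0)
      rw [inv]
    · change sA φ α U (if U d then (φ d, 2) else (d, 1)) = (d, 1)
      by_cases hd : U d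
      · rw [if_pos hd]
        change (if U (φ d) then (φ⁻¹ (φ d), 1) else (φ d, 2)) = ((d, 1) : D × Fin 3)
        rw [if_pos ((hU d).2 hd), φφ']
      · rw [if_neg hd]
        change (if U d then (φ d, 2) else (d, 1)) = ((d, 1) : D × Fin 3)
        rw [if_neg hd]
    · change sA φ α U (if U d then (φ⁻¹ d, 1) else (d, 2)) = (d, 2)
      by_cases hd : U d
      · rw [if_pos hd]
        change (if U (φ⁻¹ d) then (φ (φ⁻¹ d), 2) else (φ⁻¹ d, 1)) = ((d, 2) : D × Fin 3)
        rw [if_pos ((hU' d).2 hd), φφ]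
      · rw [if_neg hd]
        change (if U d then (φ⁻¹ d, 1) else (d, 2)) = ((d, 2) : D × Fin 3)
        rw [if_neg hd]
  set A : Perm (D × Fin 3) := sAA.toPerm _ with hA
  have F0 : ∀ d, U d → F (d, 0) = (d, 1) := fun d hd => if_pos hd
  have F1 : ∀ d, U d → F (d, 1) = (d, 2) := fun d hd => if_pos hd
  have F2 : ∀ d, U d → F (d, 2) = (d, 0) := fun d hd => if_pos hd
  have F0' : ∀ d, ¬ U d → F (d, 0) = (φ d, 0) := fun d hd => if_neg hd
  have F1' : ∀ d, ¬ U d → F (d, 1) = (d, 1) := fun d hd => if_neg hd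
  have F2' : ∀ d, ¬ U d → F (d, 2) = (d, 2) := fun d hd => if_neg hd
  have A0 : ∀ d, A (d, 0) = (α d, 0) := fun d => rfl
  have A1 : ∀ d, U d → A (d, 1) = (φ d, 2) := fun d hd => if_pos hd
  have A2 : ∀ d, U d → A (d, 2) = (φ⁻¹ d, 1) := fun d hd => if_pos hd
  have A1' : ∀ d, ¬ U d → A (d, 1) = (d, 1) := fun d hd => if_neg hd
  have A2' : ∀ d, ¬ U d → A (d, 2) = (d, 2) := fun d hd => if_neg hd
  have Ainv : ∀ x, A (A x) = x := sAA
  set σ := φ * α with hσ
  have S0 : ∀ d, U (α d) → (F * A) (d, 0) = (α d, 1) := fun d hd => by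
    rw [Equiv.Perm.mul_apply, A0, F0 _ hd]
  have S0' : ∀ d, ¬ U (α d) → (F * A) (d, 0) = (σ d, 0) := fun d hd => by
    rw [Equiv.Perm.mul_apply, A0, F0' _ hd]; rfl
  have S1 : ∀ d, U d → (F * A) (d, 1) = (φ d, 0) := fun d hd => by
    rw [Equiv.Perm.mul_apply, A1 _ hd, F2 _ ((hU d).2 hd)]
  have S2 : ∀ d, U d → (F * A) (d, 2) = (φ⁻¹ d, 2) := fun d hd => by
    rw [Equiv.Perm.mul_apply, A2 _ hd, F1 _ ((hU' d).2 hd)]
  have S1' : ∀ d, ¬ U d → (F * A) (d, 1) = (d, 1) := fun d hd => by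
    rw [Equiv.Perm.mul_apply, A1' _ hd, F1' _ hd]
  have S2' : ∀ d, ¬ U d → (F * A) (d, 2) = (d, 2) := fun d hd => by
    rw [Equiv.Perm.mul_apply, A2' _ hd, F2' _ hd]
  have hsc : ∀ {E : Type} (f : Perm E) (d : E), SameCycle f d (f d) :=
    fun f d => ⟨1, by rw [zpow_one]⟩
  have hUinv : ∀ a b, SameCycle φ a b → (U a ↔ U b) := by
    intro a b hab
    let s : Setoid D :=
      { r := fun a b => U a ↔ U b
        iseqv := ⟨fun _ => Iff.rfl, fun h => h.symm, fun h1 h2 => h1.trans h2⟩ }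
    exact sc_le (s := s) (fun a => (hU a).symm) hab
  let Uq : Quotient (SameCycle.setoid φ) → Prop :=
    Quotient.lift U (fun a b hab => propext (hUinv a b hab))
  have C0 : cyc φ + cyc α + cyc σ = Nat.card D + 2 * comps φ α := h.g0
  have n1 : Nat.card {d // U d} + Nat.card {d // ¬ U d} = Nat.card D := by
    rw [← Nat.card_sum]
    exact Nat.card_congr (Equiv.sumCompl _)
  have n2 : Nat.card {q : Quotient (SameCycle.setoid φ) // Uq q} +
      Nat.card {q : Quotient (SameCycle.setoid φ) // ¬ Uq q} = cyc φ := by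
    rw [← Nat.card_sum]
    exact Nat.card_congr (Equiv.sumCompl _)
  have n3 : Nat.card (D × Fin 3) = 3 * Nat.card D := by
    rw [Nat.card_prod, Nat.card_fin, mul_comm]
  have n4 : Nat.card ({d // ¬ U d} × Bool) = 2 * Nat.card {d // ¬ U d} := by
    rw [Nat.card_prod, Nat.card_eq_fintype_card (α := Bool), Fintype.card_bool, mul_comm]
  -- faces
  have k1 : Nat.card ({d // U d} ⊕ ({q : Quotient (SameCycle.setoid φ) // ¬ Uq q} ⊕
      ({d // ¬ U d} × Bool))) ≤ cyc F := by
    obtain ⟨a, ha, ha'⟩ := exists_ite (C := {d // U d} ⊕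
      ({q : Quotient (SameCycle.setoid φ) // ¬ Uq q} ⊕ ({d // ¬ U d} × Bool))) U
      (fun d hd => Sum.inl ⟨d, hd⟩) (fun d hd => Sum.inr (Sum.inl ⟨Quotient.mk _ d, hd⟩))
    obtain ⟨b, hb, hb'⟩ := exists_ite (C := {d // U d} ⊕
      ({q : Quotient (SameCycle.setoid φ) // ¬ Uq q} ⊕ ({d // ¬ U d} × Bool))) U
      (fun d hd => Sum.inl ⟨d, hd⟩) (fun d hd => Sum.inr (Sum.inr (⟨d, hd⟩, false)))
    obtain ⟨c, hc, hc'⟩ := exists_ite (C := {d // U d} ⊕
      ({q : Quotient (SameCycle.setoid φ) // ¬ Uq q} ⊕ ({d // ¬ U d} × Bool))) U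
      (fun d hd => Sum.inl ⟨d, hd⟩) (fun d hd => Sum.inr (Sum.inr (⟨d, hd⟩, true)))
    obtain ⟨g, e0, e1, e2⟩ := exists_g3 a b c
    refine cyc_ge F g (cases3 ?_ ?_ ?_) ?_
    · intro d
      by_cases hd : U d
      · rw [F0 d hd, e1, e0, ha d hd, hb d hd]
      · have h2 : ¬ U (φ d) := fun hc => hd ((hU d).1 hc)
        rw [F0' d hd, e0, e0, ha' d hd, ha' _ h2]
        refine congrArg Sum.inr (congrArg Sum.inl (Subtype.ext ?_))
        exact Quotient.sound (s := SameCycle.setoid φ) (hsc φ d).symm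
    · intro d
      by_cases hd : U d
      · rw [F1 d hd, e2, e1, hb d hd, hc d hd]
      · rw [F1' d hd]
    · intro d
      by_cases hd : U d
      · rw [F2 d hd, e0, e2, ha d hd, hc d hd]
      · rw [F2' d hd]
    · rintro (⟨d, hd⟩ | ⟨q, hq⟩ | ⟨⟨d, hd⟩, _ | _⟩)
      · exact ⟨(d, 0), by rw [e0, ha d hd]⟩
      · obtain ⟨d, rfl⟩ := Quotient.exists_rep q
        exact ⟨(d, 0), by rw [e0, ha' d hq]⟩
      · exact ⟨(d, 1), by rw [e1, hb' d hd]⟩
      · exact ⟨(d, 2), by rw [e2, hc' d hd]⟩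
  -- edges
  have k2 : Nat.card ((Quotient (SameCycle.setoid α)) ⊕ ({d // U d} ⊕
      ({d // ¬ U d} × Bool))) ≤ cyc A := by
    obtain ⟨b, hb, hb'⟩ := exists_ite (C := (Quotient (SameCycle.setoid α)) ⊕ ({d // U d} ⊕
      ({d // ¬ U d} × Bool))) U
      (fun d hd => Sum.inr (Sum.inl ⟨φ d, (hU d).2 hd⟩))
      (fun d hd => Sum.inr (Sum.inr (⟨d, hd⟩, false)))
    obtain ⟨c, hc, hc'⟩ := exists_ite (C := (Quotient (SameCycle.setoid α)) ⊕ ({d // U d} ⊕
      ({d // ¬ U d} × Bool))) U
      (fun d hd => Sum.inr (Sum.inl ⟨d, hd⟩)) (fun d hd => Sum.inr (Sum.inr (⟨d, hd⟩, true)))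
    obtain ⟨g, e0, e1, e2⟩ := exists_g3 (fun d => Sum.inl (Quotient.mk _ d)) b c
    refine cyc_ge A g (cases3 ?_ ?_ ?_) ?_
    · intro d
      rw [A0, e0, e0]
      exact congrArg Sum.inl (Quotient.sound (s := SameCycle.setoid α) (hsc α d).symm)
    · intro d
      by_cases hd : U d
      · rw [A1 d hd, e2, e1, hb d hd, hc _ ((hU d).2 hd)]
      · rw [A1' d hd]
    · intro d
      by_cases hd : U d
      · rw [A2 d hd, e1, e2, hc d hd, hb _ ((hU' d).2 hd)]
        exact congrArg Sum.inr (congrArg Sum.inl (Subtype.ext (φφ d)))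
      · rw [A2' d hd]
    · rintro (q | ⟨d, hd⟩ | ⟨⟨d, hd⟩, _ | _⟩)
      · obtain ⟨d, rfl⟩ := Quotient.exists_rep q
        exact ⟨(d, 0), e0 d⟩
      · exact ⟨(d, 2), by rw [e2, hc d hd]⟩
      · exact ⟨(d, 1), by rw [e1, hb' d hd]⟩
      · exact ⟨(d, 2), by rw [e2, hc' d hd]⟩
  -- vertices
  have k3 : Nat.card ((Quotient (SameCycle.setoid σ)) ⊕
      ({q : Quotient (SameCycle.setoid φ) // Uq q} ⊕ ({d // ¬ U d} × Bool))) ≤ cyc (F * A) := by
    obtain ⟨b, hb, hb'⟩ := exists_ite (C := (Quotient (SameCycle.setoid σ)) ⊕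
      ({q : Quotient (SameCycle.setoid φ) // Uq q} ⊕ ({d // ¬ U d} × Bool))) U
      (fun d hd => Sum.inl (Quotient.mk _ (φ d)))
      (fun d hd => Sum.inr (Sum.inr (⟨d, hd⟩, false)))
    obtain ⟨c, hc, hc'⟩ := exists_ite (C := (Quotient (SameCycle.setoid σ)) ⊕
      ({q : Quotient (SameCycle.setoid φ) // Uq q} ⊕ ({d // ¬ U d} × Bool))) U
      (fun d hd => Sum.inr (Sum.inl ⟨Quotient.mk _ d, hd⟩))
      (fun d hd => Sum.inr (Sum.inr (⟨d, hd⟩, true)))
    obtain ⟨g, e0, e1, e2⟩ := exists_g3 (fun d => Sum.inl (Quotient.mk _ d)) b c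
    refine cyc_ge (F * A) g (cases3 ?_ ?_ ?_) ?_
    · intro d
      by_cases hd : U (α d)
      · rw [S0 d hd, e1, e0, hb _ hd]
        exact congrArg Sum.inl (Quotient.sound (s := SameCycle.setoid σ) (hsc σ d).symm)
      · rw [S0' d hd, e0, e0]
        exact congrArg Sum.inl (Quotient.sound (s := SameCycle.setoid σ) (hsc σ d).symm)
    · intro d
      by_cases hd : U d
      · rw [S1 d hd, e0, e1, hb d hd]
      · rw [S1' d hd]
    · intro d
      by_cases hd : U d
      · rw [S2 d hd, e2, e2, hc d hd, hc _ ((hU' d).2 hd)]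
        refine congrArg Sum.inr (congrArg Sum.inl (Subtype.ext ?_))
        refine Quotient.sound (s := SameCycle.setoid φ) ?_
        have := hsc φ (φ⁻¹ d)
        rw [φφ] at this
        exact this
      · rw [S2' d hd]
    · rintro (q | ⟨q, hq⟩ | ⟨⟨d, hd⟩, _ | _⟩)
      · obtain ⟨d, rfl⟩ := Quotient.exists_rep q
        exact ⟨(d, 0), e0 d⟩
      · obtain ⟨d, rfl⟩ := Quotient.exists_rep q
        exact ⟨(d, 2), by rw [e2, hc d hq]⟩
      · exact ⟨(d, 1), by rw [e1, hb' d hd]⟩
      · exact ⟨(d, 2), by rw [e2, hc' d hd]⟩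
  -- components
  have hcs0 : ∀ d e, cs φ α d e → cs F A (d, 0) (e, 0) := by
    intro d e hde
    let s : Setoid D := (cs F A).comap (fun d => (d, 0))
    refine cs_le (s := s) (fun x => ?_) (fun x => ?_) hde
    · change cs F A (x, 0) (φ x, 0)
      by_cases hx : U x
      · have e1 := cs_left F A (x, 0)
        rw [F0 x hx] at e1
        have e2 := cs_mul F A (x, 1)
        rw [S1 x hx] at e2
        exact (cs F A).trans e1 e2
      · have e1 := cs_left F A (x, 0)
        rwa [F0' x hx] at e1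
    · exact cs_right F A (x, 0)
  have k4 : comps F A ≤ Nat.card ((Quotient (cs φ α)) ⊕ ({d // ¬ U d} × Bool)) := by
    refine comps_le F A (Sum.elim (fun q => (q.out, 0))
      (fun y => (y.1.1, if y.2 then 1 else 2))) ?_
    have hz : ∀ d, cs F A ((Quotient.mk (cs φ α) d).out, 0) (d, 0) := fun d =>
      hcs0 _ _ (Quotient.exact (Quotient.out_eq _))
    refine cases3 ?_ ?_ ?_
    · intro d
      exact ⟨Sum.inl (Quotient.mk _ d), hz d⟩
    · intro d
      by_cases hd : U d
      · refine ⟨Sum.inl (Quotient.mk _ d), (cs F A).trans (hz d) ?_⟩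
        have e1 := cs_left F A (d, 0)
        rwa [F0 d hd] at e1
      · exact ⟨Sum.inr (⟨d, hd⟩, true), (cs F A).refl _⟩
    · intro d
      by_cases hd : U d
      · refine ⟨Sum.inl (Quotient.mk _ d), (cs F A).trans (hz d) ?_⟩
        have e1 := cs_left F A (d, 2)
        rw [F2 d hd] at e1
        exact (cs F A).symm e1
      · exact ⟨Sum.inr (⟨d, hd⟩, false), (cs F A).refl _⟩
  have n5 : Nat.card (Quotient (cs φ α)) = comps φ α := rfl
  have n6 : Nat.card (Quotient (SameCycle.setoid σ)) = cyc σ := rfl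
  have n7 : Nat.card (Quotient (SameCycle.setoid α)) = cyc α := rfl
  simp only [Nat.card_sum] at k1 k2 k3 k4
  have g0 : G0 F A := by
    apply G0_of_le
    omega
  obtain ⟨L, L0, L1, L2⟩ := exists_g3 (C := V ⊕ Quotient (SameCycle.setoid φ))
    (fun d => Sum.inl (lam d)) (fun d => Sum.inl (lam (φ d)))
    (fun d => Sum.inr (Quotient.mk (SameCycle.setoid φ) d))
  have l0 : ∀ d, A (d, 0) ≠ (d, 0) → α d ≠ d := by
    intro d hd hc
    exact hd (by rw [A0, hc])
  have l0' : ∀ d, α d ≠ d → A (d, 0) ≠ (d, 0) := by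
    intro d hd hc
    rw [A0] at hc
    exact hd (congrArg Prod.fst hc)
  have l1 : ∀ d, A (d, 1) ≠ (d, 1) → U d := by
    intro d hd
    by_contra hc
    exact hd (A1' d hc)
  have l2 : ∀ d, A (d, 2) ≠ (d, 2) → U d := by
    intro d hd
    by_contra hc
    exact hd (A2' d hc)
  have key1 : ∀ x, A x ≠ x → (∃ e, α e ≠ e ∧ L x = Sum.inl (lam e) ∧
      SameCycle (F * A) (e, 0) x) ∨ (∃ e, U e ∧ x = (e, 2)) := by
    refine cases3 ?_ ?_ ?_
    · intro d hd
      exact Or.inl ⟨d, l0 d hd, L0 d, SameCycle.refl _ _⟩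
    · intro d hd
      have h1 := l1 d hd
      refine Or.inl ⟨φ d, hUl _ ((hU d).2 h1), L1 d, ?_⟩
      have h2 := hsc (F * A) (d, 1)
      rw [S1 d h1] at h2
      exact h2.symm
    · intro d hd
      exact Or.inr ⟨d, l2 d hd, rfl⟩
  have key2 : ∀ e e', α e ≠ e → α e' ≠ e' → lam e = lam e' →
      SameCycle (F * A) (e, 0) (e', 0) := by
    intro e e' he he' hee
    have h1 : SameCycle σ e e' := h.dist e e' he he' hee
    let s : Setoid D := (SameCycle.setoid (F * A)).comap (fun d => (d, 0))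
    refine sc_le (s := s) (fun x => ?_) h1
    change SameCycle (F * A) (x, 0) (σ x, 0)
    by_cases hx : U (α x)
    · have h2 := hsc (F * A) (x, 0)
      have h3 := hsc (F * A) (α x, 1)
      rw [S0 x hx] at h2
      rw [S1 _ hx] at h3
      exact h2.trans h3
    · have h2 := hsc (F * A) (x, 0)
      rwa [S0' x hx] at h2
  have key3 : ∀ e e', U e → U e' → SameCycle φ e e' →
      SameCycle (F * A) (e, 2) (e', 2) := by
    intro e e' he he' hee
    let s : Setoid D := (SameCycle.setoid (F * A)).comap (fun d => if U d then (d, 2) else (e, 2))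
    have h1 : s e e' := by
      refine sc_le (s := s) (fun x => ?_) hee
      change SameCycle (F * A) (if U x then (x, 2) else (e, 2))
        (if U (φ x) then (φ x, 2) else (e, 2))
      by_cases hx : U x
      · rw [if_pos hx, if_pos ((hU x).2 hx)]
        have h2 := hsc (F * A) (φ x, 2)
        rw [S2 _ ((hU x).2 hx), φφ'] at h2
        exact h2.symm
      · rw [if_neg hx, if_neg (fun hc => hx ((hU x).1 hc))]
    change SameCycle (F * A) (if U e then (e, 2) else (e, 2))
      (if U e' then (e', 2) else (e, 2)) at h1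
    rwa [if_pos he, if_pos he'] at h1
  refine ⟨F, A, L, ⟨⟨Ainv, g0, ?_, ?_, ?_⟩, ?_, ?_⟩, l0', L0, A0, F0', ?_⟩
  · -- vertices
    refine cases3 ?_ ?_ ?_
    · intro d
      by_cases hd : U (α d)
      · rw [S0 d hd, L1, L0]
        exact congrArg Sum.inl (h.vert d)
      · rw [S0' d hd, L0, L0]
        exact congrArg Sum.inl (h.vert d)
    · intro d
      by_cases hd : U d
      · rw [S1 d hd, L0, L1]
      · rw [S1' d hd]
    · intro d
      by_cases hd : U d
      · rw [S2 d hd, L2, L2]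
        refine congrArg Sum.inr (Quotient.sound (s := SameCycle.setoid φ) ?_)
        have := hsc φ (φ⁻¹ d)
        rw [φφ] at this
        exact this
      · rw [S2' d hd]
  · -- dead
    refine cases3 ?_ ?_ ?_
    · intro d hd
      rw [A0] at hd
      have h1 : α d = d := congrArg Prod.fst hd
      rw [F0' d (fun hc => hUl d hc h1), h.dead d h1]
    · intro d hd
      by_cases h1 : U d
      · rw [A1 d h1] at hd
        have h3 : (2 : Fin 3) = 1 := congrArg Prod.snd hd
        exact absurd h3 (by decide)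
      · exact F1' d h1
    · intro d hd
      by_cases h1 : U d
      · rw [A2 d h1] at hd
        have h3 : (1 : Fin 3) = 2 := congrArg Prod.snd hd
        exact absurd h3 (by decide)
      · exact F2' d h1
  · -- distinct vertices
    intro x y hx hy hxy
    rcases key1 x hx with ⟨e, h1, h2, h3⟩ | ⟨e, h1, rfl⟩
    · rcases key1 y hy with ⟨e', h1', h2', h3'⟩ | ⟨e', h1', rfl⟩
      · rw [h2, h2'] at hxy
        exact h3.symm.trans ((key2 e e' h1 h1' (Sum.inl.inj hxy)).trans h3')
      · rw [h2, L2] at hxy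
        exact absurd hxy Sum.inl_ne_inr
    · rcases key1 y hy with ⟨e', h1', h2', h3'⟩ | ⟨e', h1', rfl⟩
      · rw [h2', L2] at hxy
        exact absurd hxy Sum.inr_ne_inl
      · rw [L2, L2] at hxy
        exact key3 e e' h1 h1' (Quotient.exact (s := SameCycle.setoid φ) (Sum.inr.inj hxy))
  · -- no loops
    refine cases3 ?_ ?_ ?_
    · intro d hd
      rw [A0, L0, L0]
      exact fun hc => loop d (l0 d hd) (Sum.inl.inj hc)
    · intro d hd
      rw [A1 d (l1 d hd), L2, L1]
      exact Sum.inr_ne_inl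
    · intro d hd
      rw [A2 d (l2 d hd), L2, L1]
      exact Sum.inl_ne_inr
  · -- triangles
    refine cases3 ?_ ?_ ?_
    · intro d hd
      by_cases h1 : U d
      · rw [F0 d h1, F1 d h1, F2 d h1]
      · have h2 : ¬ U (φ d) := fun hc => h1 ((hU d).1 hc)
        have h3 : ¬ U (φ (φ d)) := fun hc => h2 ((hU _).1 hc)
        rw [F0' d h1, F0' _ h2, F0' _ h3, hUt d (l0 d hd) h1]
    · intro d hd
      have h1 := l1 d hd
      rw [F1 d h1, F2 d h1, F0 d h1]
    · intro d hd
      have h1 := l2 d hd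
      rw [F2 d h1, F0 d h1, F1 d h1]
  · intro x hx
    rcases key1 x hx with ⟨e, h1, h2, h3⟩ | ⟨e, h1, rfl⟩
    · exact Or.inl ⟨e, h1, h2⟩
    · exact Or.inr ⟨_, L2 e⟩

end H71S
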