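import Pool.Agent.Lib.H71S.Peel3
import Pool.Agent.Lib.H71S.Stel

set_option autoImplicit false

/-!
# From triangulated maps to one triangulated disc
-/

namespace H71S

open Equiv Equiv.Perm

variable {D V : Type}

theorem Disc.add {u v : V} {I : List V} {F : List (V × V × V)} (h : Disc [u] v I F) (w : V) :
    ∃ G, Disc [u] v (w :: I) G ∧ ∀ f ∈ F, f ∈ G := by
  have h1 : Disc ([] ++ u :: ([] ++ [w])) v ([] ++ I) ((u, w, v) :: ([] ++ F)) :=
    Disc.cut (Disc.nil u w) h
  have h2 : Disc ([] ++ [u]) v (w :: I) ((u, w, v) :: (u, w, v) :: F) := Disc.ins h1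
  exact ⟨_, h2, fun f hf => by simp [hf]⟩

theorem Disc.join {u v u' v' : V} {I J : List V} {F G : List (V × V × V)} (h : Disc [u] v I F)
    (h' : Disc [u'] v' J G) :
    ∃ H, Disc [u] v (u' :: v' :: (J ++ I)) H ∧ (∀ f ∈ F, f ∈ H) ∧ ∀ f ∈ G, f ∈ H := by
  have h1 : Disc ([] ++ u :: ([] ++ [u'])) v ([] ++ I) ((u, u', v) :: ([] ++ F)) :=
    Disc.cut (Disc.nil u u') h
  have h2 : Disc ([u] ++ u' :: ([] ++ [v'])) v (J ++ I)
      ((u', v', v) :: (G ++ ((u, u', v) :: F))) := Disc.cut h' h1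
  have h3 : Disc ([u] ++ [u']) v (v' :: (J ++ I))
      ((u', v', v) :: (u', v', v) :: (G ++ ((u, u', v) :: F))) := Disc.ins h2
  have h4 : Disc ([] ++ [u]) v (u' :: v' :: (J ++ I))
      ((u, u', v) :: (u', v', v) :: (u', v', v) :: (G ++ ((u, u', v) :: F))) := Disc.ins h3
  exact ⟨_, h4, fun f hf => by simp [hf], fun f hf => by simp [hf]⟩

theorem Tg.head {φ α : Perm D} {lam : D → V} (h : Tg φ α lam) (d : D) :
    lam (φ d) = lam (α d) := by
  have := h.lm.vert (α d)
  rwa [Equiv.Perm.mul_apply, h.lm.inv] at this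

theorem Tg.live {φ α : Perm D} {lam : D → V} (h : Tg φ α lam) {s d : D} (hs : α s ≠ s)
    (hd : cs φ α s d) : α d ≠ d := by
  intro hc
  have := isolated (h.lm.dead d hc) hc hd
  exact hs (by rw [this, hc])

theorem Tg.comp [Finite D] {φ α : Perm D} {lam : D → V} (h : Tg φ α lam) {s : D}
    (hs : α s ≠ s) : ∃ u v I F, Disc [u] v I F ∧ (u :: v :: I).Nodup ∧
      (∀ w, w ∈ u :: v :: I ↔ ∃ d, cs φ α s d ∧ lam d = w) ∧
      ∀ d, cs φ α s d → Tri F (lam d) (lam (φ d)) (lam (φ (φ d))) := by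
  have c1 : cs φ α s (φ s) := cs_left _ _ _
  have c2 : cs φ α s (φ (φ s)) := (cs φ α).trans c1 (cs_left _ _ _)
  have l1 : lam (φ s) ≠ lam s := by rw [h.head]; exact h.loop s hs
  have l2 : lam (φ (φ s)) ≠ lam (φ s) := by rw [h.head]; exact h.loop _ (h.live hs c1)
  have l3 : lam s ≠ lam (φ (φ s)) := by
    have := h.loop _ (h.live hs c2)
    rwa [← h.head, h.tri s hs] at this
  have hpl : Pl φ α lam s [φ s, φ (φ s)] := by
    refine ⟨⟨h.lm.inv, h.lm.g0, h.head⟩, ⟨rfl, rfl, h.tri s hs⟩, ?_, ?_, ?_, ?_⟩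
    · simp only [List.nodup_cons, List.mem_cons, List.not_mem_nil, or_false, not_or,
        not_false_iff, List.nodup_nil, and_true]
      exact ⟨⟨fun hc => l1 (by rw [← hc]), fun hc => l3 (by rw [← hc])⟩,
        fun hc => l2 (by rw [← hc])⟩
    · exact fun d hd => h.loop d (h.live hs hd)
    · exact fun d hd _ _ => h.tri d (h.live hs hd)
    · exact fun d d' hd hd' hdd => h.lm.dist d d' (h.live hs hd) (h.live hs hd') hdd
  obtain ⟨I, F, p⟩ := peel _ φ α s [φ s, φ (φ s)] hpl (by simp)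
    (by simp [l1, Ne.symm l2, Ne.symm l3]) le_rfl
  have hd : Disc ([] ++ [lam (φ s), lam (φ (φ s))]) (lam s) I F := p.disc
  have hd2 := Disc.ins hd
  refine ⟨lam (φ s), lam s, lam (φ (φ s)) :: I, _, hd2, ?_, ?_, ?_⟩
  · have h1 : (lam (φ s) :: lam s :: lam (φ (φ s)) :: I).Perm
        ([φ s, φ (φ s)].map lam ++ lam s :: I) := by
      change List.Perm _ (lam (φ s) :: lam (φ (φ s)) :: lam s :: I)
      exact (List.Perm.swap _ _ _).cons _
    exact h1.nodup_iff.2 p.nd
  · intro w
    constructor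
    · intro hw
      simp only [List.mem_cons] at hw
      rcases hw with rfl | rfl | rfl | hw
      · exact ⟨_, c1, rfl⟩
      · exact ⟨s, (cs φ α).refl _, rfl⟩
      · exact ⟨_, c2, rfl⟩
      · exact p.inner w hw
    · rintro ⟨d, hd, rfl⟩
      have := p.all d hd
      simp only [List.map_cons, List.map_nil, List.cons_append, List.nil_append,
        List.mem_cons] at this ⊢
      tauto
  · intro d hd
    by_cases h1 : d = s
    · rw [h1]
      refine ⟨_, List.mem_cons_self, fun x => ?_⟩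
      simp only
      tauto
    · by_cases h2 : d = φ s
      · rw [h2, h.tri s hs]
        refine ⟨_, List.mem_cons_self, fun x => Iff.rfl⟩
      · by_cases h3 : d = φ (φ s)
        · rw [h3, h.tri s hs]
          refine ⟨_, List.mem_cons_self, fun x => ?_⟩
          simp only
          tauto
        · exact (p.face d hd (by simp [h2, h3]) h1).mono (fun f hf => List.mem_cons_of_mem _ hf)

theorem Tg.all [Finite D] {φ α : Perm D} {lam : D → V} (h : Tg φ α lam) (S : Set V)
    (hS : S.Finite) {u0 v0 : V} (huv : u0 ≠ v0) (hu : u0 ∈ S) (hv : v0 ∈ S)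
    (hlab : ∀ d, α d ≠ d → lam d ∈ S ∧ lam d ≠ u0 ∧ lam d ≠ v0) :
    ∃ I F, Disc [u0] v0 I F ∧ (u0 :: v0 :: I).Nodup ∧ (∀ w, w ∈ u0 :: v0 :: I ↔ w ∈ S) ∧
      ∀ d, α d ≠ d → Tri F (lam d) (lam (φ d)) (lam (φ (φ d))) := by
  classical
  have key : ∀ (n : ℕ) (I : List V) (F : List (V × V × V)), Disc [u0] v0 I F →
      (u0 :: v0 :: I).Nodup → (∀ w ∈ u0 :: v0 :: I, w ∈ S) →
      (∀ d, α d ≠ d → lam d ∈ u0 :: v0 :: I → ∀ e, cs φ α d e →
        lam e ∈ u0 :: v0 :: I ∧ Tri F (lam e) (lam (φ e)) (lam (φ (φ e)))) →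
      {w | w ∈ S ∧ w ∉ u0 :: v0 :: I}.ncard ≤ n →
      ∃ I F, Disc [u0] v0 I F ∧ (u0 :: v0 :: I).Nodup ∧ (∀ w, w ∈ u0 :: v0 :: I ↔ w ∈ S) ∧
      ∀ d, α d ≠ d → Tri F (lam d) (lam (φ d)) (lam (φ (φ d))) := by
    intro n
    induction n with
    | zero =>
      intro I F hd hnd hsub hinv hn
      have hfin : {w | w ∈ S ∧ w ∉ u0 :: v0 :: I}.Finite := hS.subset fun w hw => hw.1
      have h0 : {w | w ∈ S ∧ w ∉ u0 :: v0 :: I} = ∅ := by
        rw [← Set.ncard_eq_zero hfin]; omega
      have hall : ∀ w ∈ S, w ∈ u0 :: v0 :: I := by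
        intro w hw
        by_contra hc
        have : w ∈ {w | w ∈ S ∧ w ∉ u0 :: v0 :: I} := ⟨hw, hc⟩
        rw [h0] at this
        exact this
      refine ⟨I, F, hd, hnd, fun w => ⟨hsub w, hall w⟩, fun d hd' => ?_⟩
      exact (hinv d hd' (hall _ (hlab d hd').1) d ((cs φ α).refl _)).2
    | succ n ih =>
      intro I F hd hnd hsub hinv hn
      by_cases hall : ∀ w ∈ S, w ∈ u0 :: v0 :: I
      · refine ⟨I, F, hd, hnd, fun w => ⟨hsub w, hall w⟩, fun d hd' => ?_⟩
        exact (hinv d hd' (hall _ (hlab d hd').1) d ((cs φ α).refl _)).2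
      · push Not at hall
        obtain ⟨w, hwS, hw⟩ := hall
        have hfin : {w | w ∈ S ∧ w ∉ u0 :: v0 :: I}.Finite := hS.subset fun w hw => hw.1
        have hdec : ∀ J : List V, (∀ x ∈ I, x ∈ J) → w ∈ J →
            {w | w ∈ S ∧ w ∉ u0 :: v0 :: J}.ncard ≤ n := by
          intro J hJ hwJ
          have : {w | w ∈ S ∧ w ∉ u0 :: v0 :: J}.ncard <
              {w | w ∈ S ∧ w ∉ u0 :: v0 :: I}.ncard := by
            refine Set.ncard_lt_ncard ⟨fun x hx => ⟨hx.1, fun hc => hx.2 ?_⟩, fun hc => ?_⟩ hfin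
            · simp only [List.mem_cons] at hc ⊢
              rcases hc with hc | hc | hc
              · exact Or.inl hc
              · exact Or.inr (Or.inl hc)
              · exact Or.inr (Or.inr (hJ x hc))
            · have h1 : w ∈ {w | w ∈ S ∧ w ∉ u0 :: v0 :: J} := hc ⟨hwS, hw⟩
              exact h1.2 (by simp [hwJ])
          omega
        by_cases hs : ∃ s, α s ≠ s ∧ lam s = w
        · obtain ⟨s, hs, rfl⟩ := hs
          obtain ⟨u, v, J, G, hD, hnd2, hmem, hface⟩ := h.comp hs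
          obtain ⟨H, hH, hHF, hHG⟩ := hd.join hD
          have hout : ∀ x ∈ u :: v :: J, x ∉ u0 :: v0 :: I := by
            intro x hx hc
            obtain ⟨d, hd1, rfl⟩ := (hmem x).1 hx
            exact hw (hinv d (h.live hs hd1) hc s ((cs φ α).symm hd1)).1
          have hperm : (u0 :: v0 :: (u :: v :: (J ++ I))).Perm
              ((u0 :: v0 :: I) ++ (u :: v :: J)) := by
            have e1 : (u :: v :: (J ++ I)) = (u :: v :: J) ++ I := rfl
            rw [e1]
            exact ((List.perm_append_comm).cons v0).cons u0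
          have hmem2 : ∀ x, x ∈ u0 :: v0 :: (u :: v :: (J ++ I)) ↔
              x ∈ u0 :: v0 :: I ∨ x ∈ u :: v :: J := by
            intro x
            rw [hperm.mem_iff, List.mem_append]
          refine ih _ H hH ?_ ?_ ?_ (hdec _ (fun x hx => by simp [hx]) ?_)
          · rw [hperm.nodup_iff, List.nodup_append]
            refine ⟨hnd, hnd2, ?_⟩
            intro a ha b hb hab
            exact hout b hb (hab ▸ ha)
          · intro x hx
            rcases (hmem2 x).1 hx with hx | hx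
            · exact hsub x hx
            · obtain ⟨d, hd1, rfl⟩ := (hmem x).1 hx
              exact (hlab d (h.live hs hd1)).1
          · intro d hd1 hd2 e he
            rcases (hmem2 _).1 hd2 with hd2 | hd2
            · obtain ⟨k1, k2⟩ := hinv d hd1 hd2 e he
              exact ⟨(hmem2 _).2 (Or.inl k1), k2.mono hHF⟩
            · obtain ⟨d', hd1', hd2'⟩ := (hmem _).1 hd2
              have h3 : cs φ α d' d :=
                cs_of_sameCycle_mul (h.lm.dist d' d (h.live hs hd1') hd1 hd2')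
              have h4 : cs φ α s e := (cs φ α).trans hd1' ((cs φ α).trans h3 he)
              exact ⟨(hmem2 _).2 (Or.inr ((hmem _).2 ⟨e, h4, rfl⟩)), (hface e h4).mono hHG⟩
          · have : lam s ∈ u :: v :: J := (hmem _).2 ⟨s, (cs φ α).refl _, rfl⟩
            simp only [List.mem_cons, List.mem_append] at this ⊢
            tauto
        · obtain ⟨H, hH, hHF⟩ := hd.add w
          have hmem2 : ∀ x, x ∈ u0 :: v0 :: (w :: I) ↔ x ∈ u0 :: v0 :: I ∨ x = w := by
            intro x
            simp only [List.mem_cons]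
            tauto
          have hperm : (u0 :: v0 :: (w :: I)).Perm (w :: u0 :: v0 :: I) :=
            (((List.Perm.swap _ _ _).cons u0).trans (List.Perm.swap _ _ _))
          refine ih _ H hH ?_ ?_ ?_ (hdec _ (fun x hx => by simp [hx]) (by simp))
          · rw [hperm.nodup_iff, List.nodup_cons]
            exact ⟨hw, hnd⟩
          · intro x hx
            rcases (hmem2 x).1 hx with hx | rfl
            · exact hsub x hx
            · exact hwS
          · intro d hd1 hd2 e he
            rcases (hmem2 _).1 hd2 with hd2 | hd2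
            · obtain ⟨k1, k2⟩ := hinv d hd1 hd2 e he
              exact ⟨(hmem2 _).2 (Or.inl k1), k2.mono hHF⟩
            · exact absurd ⟨d, hd1, hd2⟩ hs
  refine key _ [] [] (Disc.nil u0 v0) (by simp [huv]) ?_ ?_ le_rfl
  · intro w hw
    simp at hw
    rcases hw with rfl | rfl
    · exact hu
    · exact hv
  · intro d hd1 hd2
    simp at hd2
    rcases hd2 with hd2 | hd2
    · exact absurd hd2 (hlab d hd1).2.1
    · exact absurd hd2 (hlab d hd1).2.2

end H71S
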