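import Pool.Agent.Lib.H71S.FromRot

set_option autoImplicit false

/-!
# Deletion and contraction of edges in labelled maps of genus zero
-/

namespace H71S

open Equiv Equiv.Perm

variable {D V : Type}

theorem ncl_mrg_le [Finite D] (r : Setoid D) (x y : D) : ncl r ≤ ncl (mrg r x y) + 1 := by
  by_cases h : r x y
  · have : ncl r ≤ ncl (mrg r x y) := ncl_anti fun a b hab => mrg_self h hab
    omega
  · exact (ncl_mrg r h).ge

/-- deletion of an edge, in general -/
theorem G0.del' [Finite D] [DecidableEq D] {f g : Perm D} (h : G0 f g) {x y : D}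
    (hg : g x = y) (hg' : g y = x) (hxy : x ≠ y) :
    G0 (f * swap x y) (g * swap x y) ∧ (f * swap x y) * (g * swap x y) = f * g := by
  by_cases h1 : SameCycle f x y
  · have h3 : (f * swap x y) * (g * swap x y) = f * g := by
      rw [swap_conj hg hg', mul_assoc, ← mul_assoc (swap x y), swap_mul_self, one_mul]
    refine ⟨?_, h3⟩
    have c1 := cyc_swap_same f hxy h1
    have c2 := cyc_swap_same g hxy ⟨1, by simpa using hg⟩
    have h0 : cyc f + cyc g + cyc (f * g) = Nat.card D + 2 * comps f g := h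
    set s := cs (f * swap x y) (g * swap x y) with hs
    have hle : ∀ a b, cs f g a b → mrg s x y a b := by
      intro a b hab
      have hxy' : mrg s x y x y := Or.inr (Or.inl ⟨s.refl _, s.refl _⟩)
      have l : ∀ a, mrg s x y a ((f * swap x y) a) := fun a => Or.inl (cs_left _ _ _)
      have r : ∀ a, mrg s x y a ((g * swap x y) a) := fun a => Or.inl (cs_right _ _ _)
      refine cs_le (s := mrg s x y) (fun a => ?_) (fun a => ?_) hab
      · by_cases ha : a = x
        · have := l y
          rw [Equiv.Perm.mul_apply, swap_apply_right] at this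
          rw [ha]; exact (mrg s x y).trans hxy' this
        · by_cases hb : a = y
          · have := l x
            rw [Equiv.Perm.mul_apply, swap_apply_left] at this
            rw [hb]; exact (mrg s x y).trans ((mrg s x y).symm hxy') this
          · have := l a
            rwa [Equiv.Perm.mul_apply, swap_apply_of_ne_of_ne ha hb] at this
      · by_cases ha : a = x
        · rw [ha, hg]; exact hxy'
        · by_cases hb : a = y
          · rw [hb, hg']; exact (mrg s x y).symm hxy'
          · have := r a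
            rwa [Equiv.Perm.mul_apply, swap_apply_of_ne_of_ne ha hb] at this
    have h4 : ncl (mrg s x y) ≤ comps f g := ncl_anti hle
    have h5 := ncl_mrg_le s x y
    have h6 : comps (f * swap x y) (g * swap x y) = ncl s := rfl
    apply G0_of_le
    rw [h3]
    omega
  · obtain ⟨k1, k2, -⟩ := h.del hg hg' h1
    exact ⟨k1, k2⟩

theorem G0.rot [Finite D] {f g : Perm D} (h : G0 f g) (hg : ∀ d, g (g d) = d) :
    G0 (f * g) g := by
  have h1 : f * g * g = f := by
    ext1 d
    simp [hg]
  have h2 : comps (f * g) g ≤ comps f g := by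
    refine ncl_anti fun a b hab => ?_
    refine cs_le (s := cs (f * g) g) (fun a => ?_) (fun a => cs_right _ _ _) hab
    have h3 : (f * g) (g a) = f a := by simp [hg]
    have h4 := cs_left (f * g) g (g a)
    rw [h3] at h4
    exact (cs _ _).trans (cs_right _ _ _) h4
  have h0 : cyc f + cyc g + cyc (f * g) = Nat.card D + 2 * comps f g := h
  apply G0_of_le
  rw [h1]
  omega

theorem skip_lab [DecidableEq D] {f : Perm D} {lam : D → V} (h : ∀ d, lam (f d) = lam d) (r d : D) :
    lam (skip f r d) = lam d := by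
  by_cases h1 : f d = r
  · rw [skip_eq f r h1, h, ← h1, h]
  · by_cases h2 : d = r
    · rw [h2, skip_self]
    · rw [skip_ne f r h2 h1, h]

/-- the effect of killing the edge `r, r'` -/
structure Killed (φ α φ2 α2 : Perm D) (r r' : D) : Prop where
  f1 : φ2 r = r
  f2 : φ2 r' = r'
  a1 : α2 r = r
  a2 : α2 r' = r'
  a3 : ∀ d, d ≠ r → d ≠ r' → α2 d = α d

theorem LM.del [Finite D] [DecidableEq D] {φ α : Perm D} {lam : D → V} (h : LM φ α lam)
    {r r' : D} (hr : α r = r') (hne : r ≠ r') :
    ∃ φ2 α2 : Perm D, LM φ2 α2 lam ∧ Killed φ α φ2 α2 r r' := by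
  have hr' : α r' = r := by rw [← hr, h.inv]
  obtain ⟨g1, m1⟩ := h.g0.del' hr hr' hne
  set φ1 := φ * swap r r' with hφ1
  set α2 := α * swap r r' with hα2
  have α2r : α2 r = r := by simp [hα2, hr']
  have α2r' : α2 r' = r' := by simp [hα2, hr]
  have α2o : ∀ d, d ≠ r → d ≠ r' → α2 d = α d := fun d hd hd' => by
    simp [hα2, swap_apply_of_ne_of_ne hd hd']
  obtain ⟨g2, m2, c2⟩ := G0.skip g1 α2r
  set φa := skip φ1 r with hφa
  obtain ⟨g3, m3, c3⟩ := G0.skip g2 α2r'
  set φ2 := skip φa r' with hφ2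
  have φar : φa r = r := skip_self _ _
  have φ2r : φ2 r = r := by
    rw [hφ2, skip_ne φa r' hne (by rw [φar]; exact hne), φar]
  have φ2r' : φ2 r' = r' := skip_self _ _
  have hσ : φ2 * α2 = skip (skip (φ * α) r) r' := by rw [m3, m2, m1]
  refine ⟨φ2, α2, ⟨?_, g3, ?_, ?_, ?_⟩, ⟨φ2r, φ2r', α2r, α2r', α2o⟩⟩
  · intro d
    by_cases hd : d = r
    · rw [hd, α2r, α2r]
    · by_cases hd' : d = r'
      · rw [hd', α2r', α2r']
      · rw [α2o d hd hd', α2o, h.inv]
        · intro hc; exact hd' (by rw [← h.inv d, hc, hr])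
        · intro hc; exact hd (by rw [← h.inv d, hc, hr'])
  · intro d
    rw [hσ]
    exact skip_lab (skip_lab h.vert r) r' d
  · intro d hd
    by_cases h1 : d = r
    · rw [h1, φ2r]
    · by_cases h2 : d = r'
      · rw [h2, φ2r']
      · rw [α2o d h1 h2] at hd
        have h3 := h.dead d hd
        have e0 : φ1 d = d := by
          rw [hφ1, Equiv.Perm.mul_apply, swap_apply_of_ne_of_ne h1 h2, h3]
        have e1 : φa d = d := by rw [hφa, skip_ne φ1 r h1 (by rw [e0]; exact h1), e0]
        rw [hφ2, skip_ne φa r' h2 (by rw [e1]; exact h2), e1]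
  · intro a b ha hb hab
    have ha1 : a ≠ r := fun hc => ha (by rw [hc, α2r])
    have ha2 : a ≠ r' := fun hc => ha (by rw [hc, α2r'])
    have hb1 : b ≠ r := fun hc => hb (by rw [hc, α2r])
    have hb2 : b ≠ r' := fun hc => hb (by rw [hc, α2r'])
    rw [α2o a ha1 ha2] at ha
    rw [α2o b hb1 hb2] at hb
    rw [hσ]
    exact skip_sameCycle _ _ ha2 hb2 (skip_sameCycle _ _ ha1 hb1 (h.dist a b ha hb hab))

theorem LM.contract [Finite D] [DecidableEq D] [DecidableEq V] {φ α : Perm D} {lam : D → V}
    (h : LM φ α lam) {r r' : D} (hr : α r = r') (hl : lam r ≠ lam r') :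
    ∃ φ2 α2 : Perm D, LM φ2 α2 (fun d => if lam d = lam r then lam r' else lam d) ∧
      Killed φ α φ2 α2 r r' := by
  have hr' : α r' = r := by rw [← hr, h.inv]
  have hne : r ≠ r' := fun hc => hl (by rw [hc])
  have hσlam : ∀ d, lam ((φ * α) d) = lam d := h.vert
  have hns : ¬ SameCycle (φ * α) r r' := by
    intro hc
    let s : Setoid D := (⊥ : Setoid V).comap lam
    exact hl (sc_le (s := s) (fun a => (hσlam a).symm) hc)
  obtain ⟨g1, m1, -⟩ := (h.g0.rot h.inv).del hr hr' hns
  have e0 : φ * α * α = φ := by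
    ext1 d
    simp [h.inv]
  rw [e0] at m1
  set σ1 := φ * α * swap r r' with hσ1
  set α2 := α * swap r r' with hα2
  have α2r : α2 r = r := by simp [hα2, hr']
  have α2r' : α2 r' = r' := by simp [hα2, hr]
  have α2o : ∀ d, d ≠ r → d ≠ r' → α2 d = α d := fun d hd hd' => by
    simp [hα2, swap_apply_of_ne_of_ne hd hd']
  have α2i : ∀ d, α2 (α2 d) = d := by
    intro d
    by_cases hd : d = r
    · rw [hd, α2r, α2r]
    · by_cases hd' : d = r'
      · rw [hd', α2r', α2r']
      · rw [α2o d hd hd', α2o, h.inv]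
        · intro hc; exact hd' (by rw [← h.inv d, hc, hr])
        · intro hc; exact hd (by rw [← h.inv d, hc, hr'])
  obtain ⟨g2, m2, -⟩ := G0.skip g1 α2r
  obtain ⟨g3, m3, -⟩ := G0.skip g2 α2r'
  set σ2 := skip (skip σ1 r) r' with hσ2
  have hφ2 : σ2 * α2 = skip (skip φ r) r' := by rw [m3, m2, m1]
  set φ2 := skip (skip φ r) r' with hφ2'
  have hσφ : φ2 * α2 = σ2 := by
    rw [← hφ2]
    ext1 d
    simp [α2i]
  have φar : skip φ r r = r := skip_self _ _
  have φ2r : φ2 r = r := by
    rw [hφ2', skip_ne _ r' hne (by rw [φar]; exact hne), φar]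
  have φ2r' : φ2 r' = r' := skip_self _ _
  set lam2 : D → V := fun d => if lam d = lam r then lam r' else lam d with hlam2
  have l1 : ∀ d, lam2 (σ1 d) = lam2 d := by
    intro d
    rw [hσ1, Equiv.Perm.mul_apply]
    by_cases h1 : d = r
    · rw [h1, swap_apply_left, hlam2]
      simp only [hσlam, if_true]
      rw [if_neg hl.symm]
    · by_cases h2 : d = r'
      · rw [h2, swap_apply_right, hlam2]
        simp only [hσlam, if_true]
        rw [if_neg hl.symm]
      · rw [swap_apply_of_ne_of_ne h1 h2, hlam2]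
        simp only [hσlam]
  refine ⟨φ2, α2, ⟨α2i, ?_, ?_, ?_, ?_⟩, ⟨φ2r, φ2r', α2r, α2r', α2o⟩⟩
  · have := g3.rot α2i
    rwa [hφ2] at this
  · intro d
    rw [hσφ]
    exact skip_lab (skip_lab l1 r) r' d
  · intro d hd
    by_cases h1 : d = r
    · rw [h1, φ2r]
    · by_cases h2 : d = r'
      · rw [h2, φ2r']
      · rw [α2o d h1 h2] at hd
        have h3 := h.dead d hd
        have e1 : skip φ r d = d := by rw [skip_ne φ r h1 (by rw [h3]; exact h1), h3]
        rw [hφ2', skip_ne _ r' h2 (by rw [e1]; exact h2), e1]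
  · intro a b ha hb hab
    have ha1 : a ≠ r := fun hc => ha (by rw [hc, α2r])
    have ha2 : a ≠ r' := fun hc => ha (by rw [hc, α2r'])
    have hb1 : b ≠ r := fun hc => hb (by rw [hc, α2r])
    have hb2 : b ≠ r' := fun hc => hb (by rw [hc, α2r'])
    rw [α2o a ha1 ha2] at ha
    rw [α2o b hb1 hb2] at hb
    have hrl : α r ≠ r := by rw [hr]; exact hne.symm
    have hrl' : α r' ≠ r' := by rw [hr']; exact hne
    rw [hσφ]
    refine skip_sameCycle _ _ ha2 hb2 (skip_sameCycle _ _ ha1 hb1 ?_)
    rw [hσ1, swap_merge _ hns]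
    simp only [hlam2] at hab
    by_cases h1 : lam a = lam r
    · by_cases h2 : lam b = lam r
      · exact Or.inl (h.dist a b ha hb (h1.trans h2.symm))
      · rw [if_pos h1, if_neg h2] at hab
        exact Or.inr (Or.inl ⟨h.dist a r ha hrl h1, h.dist r' b hrl' hb hab⟩)
    · by_cases h2 : lam b = lam r
      · rw [if_neg h1, if_pos h2] at hab
        exact Or.inr (Or.inr ⟨h.dist a r' ha hrl' hab, h.dist r b hrl hb h2.symm⟩)
      · rw [if_neg h1, if_neg h2] at hab
        exact Or.inl (h.dist a b ha hb hab)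

end H71S
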