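import Pool.Agent.Lib.H71S.Call
import Pool.Agent.Lib.H71S.Glue

set_option autoImplicit false

namespace H71S

/-- `a` and `b` are the two ends of the root edge, or two corners of one face -/
def Side {V : Type} (u v : V) (F : List (V × V × V)) (a b : V) : Prop :=
  (a = u ∧ b = v) ∨ ∃ f ∈ F, (a = f.1 ∧ b = f.2.1) ∨ (a = f.2.1 ∧ b = f.2.2) ∨
    (a = f.1 ∧ b = f.2.2)

theorem not_consec_single {V : Type} (u a b : V) : ¬ Consec [u] a b := by
  rintro ⟨X, Y, h⟩
  have := congrArg List.length h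
  simp at this
  omega

/-- the configuration of a triangulated disc -/
theorem disc_conf {V : Type} {u v : V} {I : List V} {F : List (V × V × V)}
    (hT : Disc [u] v I F) (hnd : (u :: v :: I).Nodup) :
    ∃ (l r : V → ℝ) (S : Set (ℝ × ℝ)), Chain S ∧
      (∀ x ∈ u :: v :: I, ∀ y ∈ u :: v :: I, x ≠ y → l x + r x ≠ l y + r y) ∧
      (∀ s ∈ S, ∀ a ∈ u :: v :: I, Good l r s a) ∧
      (∀ a b, Side u v F a b → ∃ s ∈ S, PairS (u :: v :: I) l r s a b) ∧
      (∀ f ∈ F, ∃ s ∈ S, FaceS (u :: v :: I) l r s f.1 f.2.1 f.2.2) := by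
  classical
  obtain ⟨I', F', hR, hI, hF⟩ := hT.reg
  have hperm : ([u] ++ v :: I').Perm (u :: v :: I) := by
    simpa using (hI.cons v).cons u
  have hnd' : ([u] ++ v :: I').Nodup := hperm.nodup_iff.2 hnd
  have huv : u ≠ v := by
    rw [List.nodup_cons] at hnd
    exact fun hc => hnd.1 (by simp [hc])
  have hnd2 := hnd'
  rw [List.cons_append, List.nil_append, List.nodup_cons, List.nodup_cons] at hnd2
  obtain ⟨hu, hv, hI'⟩ := hnd2
  have huI : u ∉ I' := fun hc => hu (by simp [hc])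
  set l0 : V → ℝ := fun x => if x = u then -10 else -1 with hl0
  set r0 : V → ℝ := fun x => if x = u then 5 else 10 with hr0
  have lu : l0 u = -10 := by simp [hl0]
  have ru : r0 u = 5 := by simp [hr0]
  have lv : l0 v = -1 := by simp [hl0, huv.symm]
  have rv : r0 v = 10 := by simp [hr0, huv.symm]
  have hs : Start l0 r0 [u] v I' 0 0 1 1 := by
    refine ⟨hnd', by norm_num, by norm_num, ?_, ?_, ?_, by rw [lv]; norm_num, by rw [rv]; norm_num,
      by rw [lv, rv]; norm_num, by simp, ?_⟩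
    · intro p hp; simp at hp; rw [hp, lu]; norm_num
    · intro p hp; simp at hp; rw [hp, ru]; norm_num
    · intro p hp; simp at hp; rw [hp, lu, ru]; norm_num
    · intro p P' hP
      obtain ⟨rfl, rfl⟩ := List.cons.inj hP
      exact ⟨by rw [ru]; norm_num, by simp⟩
  obtain ⟨l, r, S, hch, ho⟩ := call hR l0 r0 0 0 1 1 hs
  have zu : l u + r u = -5 := by
    rw [(hch u huI).1, (hch u huI).2, lu, ru]; norm_num
  have zv : l v + r v = 9 := by
    rw [(hch v hv).1, (hch v hv).2, lv, rv]; norm_num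
  have zI : ∀ x ∈ I', 0 < l x + r x ∧ l x + r x < 2 := by
    intro x hx
    obtain ⟨h1, h2, h3, h4⟩ := ho.box x hx
    exact ⟨by linarith, by linarith⟩
  have hmem : ∀ x, x ∈ u :: v :: I ↔ x ∈ [u] ++ v :: I' := fun x => hperm.mem_iff.symm
  have hmem2 : ∀ x, x ∈ u :: v :: I → x = u ∨ x = v ∨ x ∈ I' := by
    intro x hx
    rw [hmem] at hx
    simpa using hx
  have hpairS : ∀ s a b, PairS ([u] ++ v :: I') l r s a b → PairS (u :: v :: I) l r s a b := by
    intro s a b h
    exact h.lift (fun w hw => (hmem w).2 hw) (fun w hw => Or.inl ((hmem w).1 hw))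
  have hPP : ∀ a b, PP ([u] ++ v :: I') l r S [u] a b →
      ∃ s ∈ S, PairS (u :: v :: I) l r s a b := by
    rintro a b (h | ⟨s, hs, h⟩)
    · exact absurd h (not_consec_single u a b)
    · exact ⟨s, hs, hpairS s a b h⟩
  refine ⟨l, r, S, ho.chain, ?_, ?_, ?_, ?_⟩
  · intro x hx y hy hxy
    rcases hmem2 x hx with h1 | h1 | h1
    · rcases hmem2 y hy with h2 | h2 | h2
      · exact absurd (h1.trans h2.symm) hxy
      · rw [h1, h2, zu, zv]; norm_num
      · rw [h1, zu]
        have := zI y h2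
        intro hc; linarith
    · rcases hmem2 y hy with h2 | h2 | h2
      · rw [h1, h2, zu, zv]; norm_num
      · exact absurd (h1.trans h2.symm) hxy
      · rw [h1, zv]
        have := zI y h2
        intro hc; linarith
    · rcases hmem2 y hy with h2 | h2 | h2
      · rw [h2, zu]
        have := zI x h1
        intro hc; linarith
      · rw [h2, zv]
        have := zI x h1
        intro hc; linarith
      · have : Std.Symm (fun p q => l p + r p ≠ l q + r q) := ⟨fun _ _ h => h.symm⟩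
        exact ho.inj.forall h1 h2 hxy
  · intro s hs a ha
    exact ho.good s hs a ((hmem a).1 ha)
  · rintro a b (⟨rfl, rfl⟩ | ⟨f, hf, h⟩)
    · obtain ⟨s, hs, h1⟩ := ho.last [] a rfl
      exact ⟨s, hs, hpairS s _ _ h1⟩
    · have hf' : f ∈ F' := hF.mem_iff.2 hf
      rcases h with ⟨rfl, rfl⟩ | ⟨rfl, rfl⟩ | ⟨rfl, rfl⟩
      · exact hPP _ _ (ho.p1 f hf')
      · exact hPP _ _ (ho.p2 f hf')
      · exact hPP _ _ (ho.p3 f hf')
  · intro f hf
    obtain ⟨s, hs, h1⟩ := ho.face f (hF.mem_iff.2 hf)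
    exact ⟨s, hs, h1.lift (fun w hw => (hmem w).2 hw) (fun w hw => Or.inl ((hmem w).1 hw))⟩

/-- **Main theorem**, for a triangulation given by its decomposition. -/
theorem main_disc {X : Type} [Finite X] (G : SimpleGraph X) (W : Set X)
    (hW : ∀ x ∈ W, ∀ y ∈ W, ¬ G.Adj x y)
    {u v : X} {I : List X} {F : List (X × X × X)} (hT : Disc [u] v I F)
    (hnd : (u :: v :: I).Nodup) (hTW : ∀ x, x ∈ W ↔ x ∈ u :: v :: I)
    (κ : X → ℕ) (p q : X → ℝ)
    (hκ : ∀ x ∉ W, ∀ y ∉ W, G.Adj x y → κ x = κ y)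
    (hpq : ∀ x ∉ W, ∀ y ∉ W, κ x = κ y → x ≠ y → p x ≠ p y ∧ q x ≠ q y ∧
      (G.Adj x y ↔ (p x < p y ∧ q y < q x) ∨ (p y < p x ∧ q x < q y)))
    (hatt : ∀ k : ℕ, (∃ a b, Side u v F a b ∧
        ∀ x ∉ W, κ x = k → ∀ y ∈ W, G.Adj x y → y = a ∨ y = b) ∨
      (∃ f ∈ F, ∀ x ∉ W, κ x = k → (∀ y ∈ W, ¬ G.Adj x y) ∨
        (∀ y ∈ W, G.Adj x y ↔ y = f.1 ∨ y = f.2.1 ∨ y = f.2.2))) :
    ∃ s : X → (ℝ × ℝ) × (ℝ × ℝ), (∀ v, (s v).1 ≠ (s v).2) ∧
      ∀ u v, u ≠ v → (Gᶜ.Adj u v ↔
        (segment ℝ (s u).1 (s u).2 ∩ segment ℝ (s v).1 (s v).2).Nonempty) := by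
  obtain ⟨l, r, S, hS, hinj, hgood, hpair, hface⟩ := disc_conf hT hnd
  -- the slots
  have hslot : ∀ k : ℕ, ∃ s ∈ S, (∀ x ∉ W, κ x = k → ∀ y ∈ W, G.Adj x y → Act l r s y) ∧
      (∀ x ∉ W, κ x = k → ∀ y ∈ W, ∀ w ∈ W, G.Adj x y → ¬ G.Adj x w → Act l r s w →
      (l w + r w < s.1 + s.2 ∧ l w + r w < l y + r y) ∨
      (s.1 + s.2 < l w + r w ∧ l y + r y < l w + r w)) := by
    intro k
    rcases hatt k with ⟨a, b, hab, h1⟩ | ⟨f, hf, h1⟩
    · obtain ⟨s, hs, ha, hb, h2, h3, h4, h5, h6⟩ := hpair a b hab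
      refine ⟨s, hs, ?_, ?_⟩
      · intro x hx hk y hy hadj
        rcases h1 x hx hk y hy hadj with rfl | rfl
        · exact h2
        · exact h3
      · intro x hx hk y hy w hw hadj hn hact
        have hwy : w ≠ y := fun hc => hn (hc ▸ hadj)
        rcases h1 x hx hk y hy hadj with h7 | h7
        · subst h7
          by_cases hwb : w = b
          · right; rw [hwb]; exact ⟨h5, by linarith⟩
          · rcases h6 w ((hTW w).1 hw) hwy hwb hact with h8 | h8
            · left; exact ⟨by linarith, h8⟩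
            · right; exact ⟨by linarith, by linarith⟩
        · subst h7
          by_cases hwa : w = a
          · left; rw [hwa]; exact ⟨h4, by linarith⟩
          · rcases h6 w ((hTW w).1 hw) hwa hwy hact with h8 | h8
            · left; exact ⟨by linarith, by linarith⟩
            · right; exact ⟨by linarith, h8⟩
    · obtain ⟨s, hs, ha, hb, hc, h2, h3, h4, h6⟩ := hface f hf
      refine ⟨s, hs, ?_, ?_⟩
      · intro x hx hk y hy hadj
        rcases h1 x hx hk with h7 | h7
        · exact absurd hadj (h7 y hy)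
        · rcases (h7 y hy).1 hadj with rfl | rfl | rfl
          · exact h2
          · exact h3
          · exact h4
      · intro x hx hk y hy w hw hadj hn hact
        rcases h1 x hx hk with h7 | h7
        · exact absurd hadj (h7 y hy)
        · have h8 := (h7 y hy).1 hadj
          have h9 : ¬ (w = f.1 ∨ w = f.2.1 ∨ w = f.2.2) := fun hc => hn ((h7 w hw).2 hc)
          push Not at h9
          rcases h6 w ((hTW w).1 hw) h9.1 h9.2.1 h9.2.2 hact with h10 | h10
          · left
            refine ⟨h10.1, ?_⟩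
            rcases h8 with rfl | rfl | rfl
            · exact h10.2.1
            · exact h10.2.2.1
            · exact h10.2.2.2
          · right
            refine ⟨h10.1, ?_⟩
            rcases h8 with rfl | rfl | rfl
            · exact h10.2.1
            · exact h10.2.2.1
            · exact h10.2.2.2
  choose σ hσS hσ1 hσ2 using hslot
  refine glue G W l r S hS hW ?_ ?_ κ p q hκ hpq σ (fun x _ => hσS _) ?_ ?_
  · intro x hx y hy hxy
    exact hinj x ((hTW x).1 hx) y ((hTW y).1 hy) hxy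
  · intro s hs a ha
    exact hgood s hs a ((hTW a).1 ha)
  · intro x hx y hy hadj
    exact hσ1 _ x hx rfl y hy hadj
  · intro x hx y hy w hw hadj hn hact
    exact hσ2 _ x hx rfl y hy w hw hadj hn hact

end H71S
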