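import Pool.Agent.Lib.H71S.Cyc

set_option autoImplicit false

/-!
# Operations on pairs of permutations of genus zero
-/

namespace H71S

open Equiv Equiv.Perm

variable {D : Type}

/-- genus zero (all components are spheres) -/
def G0 (f g : Perm D) : Prop := cyc f + cyc g + cyc (f * g) = Nat.card D + 2 * comps f g

theorem cyc_lswap_same [Finite D] [DecidableEq D] (f : Perm D) {x y : D} (hxy : x ≠ y)
    (h : SameCycle f x y) : cyc (swap x y * f) = cyc f + 1 := by
  rw [swap_mul_eq_mul_swap]
  refine cyc_swap_same f (fun hc => hxy (f⁻¹.injective hc)) ?_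
  simpa using h

theorem G0.split [Finite D] [DecidableEq D] {f g : Perm D} (h : G0 f g) {x y : D} (hxy : x ≠ y)
    (h1 : SameCycle f x y) (h2 : SameCycle (f * g) x y) :
    G0 (swap x y * f) g ∧ ¬ cs (swap x y * f) g x y ∧
      (∀ a b, cs f g a b ↔ mrg (cs (swap x y * f) g) x y a b) := by
  have c1 := cyc_lswap_same f hxy h1
  have c2 := cyc_lswap_same (f * g) hxy h2
  have c3 := euler' (swap x y * f) g
  have h0 : cyc f + cyc g + cyc (f * g) = Nat.card D + 2 * comps f g := h
  rw [mul_assoc] at c3
  have hle : ∀ a b, cs f g a b → mrg (cs (swap x y * f) g) x y a b := by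
    intro a b hab
    refine cs_le (s := mrg (cs (swap x y * f) g) x y) (fun a => ?_)
      (fun a => Or.inl (cs_right _ _ _)) hab
    have h3 := cs_left (swap x y * f) g a
    rw [Equiv.Perm.mul_apply] at h3
    by_cases ha : f a = x
    · rw [ha, swap_apply_left] at h3
      rw [ha]
      exact Or.inr (Or.inr ⟨h3, (cs _ g).refl _⟩)
    · by_cases hb : f a = y
      · rw [hb, swap_apply_right] at h3
        rw [hb]
        exact Or.inr (Or.inl ⟨h3, (cs _ g).refl _⟩)
      · rw [swap_apply_of_ne_of_ne ha hb] at h3
        exact Or.inl h3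
  have hge : ∀ a b, mrg (cs (swap x y * f) g) x y a b → cs f g a b := by
    intro a b hab
    refine mrg_le (s := cs f g) (fun a b hab => ?_) (cs_of_sameCycle h1) hab
    refine cs_le (s := cs f g) (fun a => ?_) (fun a => cs_right _ _ _) hab
    have h3 := cs_left f g a
    rw [Equiv.Perm.mul_apply]
    by_cases ha : f a = x
    · rw [ha] at h3
      rw [ha, swap_apply_left]
      exact (cs f g).trans h3 (cs_of_sameCycle h1)
    · by_cases hb : f a = y
      · rw [hb] at h3
        rw [hb, swap_apply_right]
        exact (cs f g).trans h3 ((cs f g).symm (cs_of_sameCycle h1))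
      · rw [swap_apply_of_ne_of_ne ha hb]
        exact h3
  have hnot : ¬ cs (swap x y * f) g x y := by
    intro hc
    have : comps (swap x y * f) g ≤ comps f g := ncl_anti fun a b hab => mrg_self hc (hle a b hab)
    omega
  refine ⟨?_, hnot, fun a b => ⟨hle a b, hge a b⟩⟩
  have h4 := ncl_mrg (cs (swap x y * f) g) hnot
  have h5 : ncl (mrg (cs (swap x y * f) g) x y) = comps f g :=
    le_antisymm (ncl_anti hle) (ncl_anti hge)
  have h6 : comps (swap x y * f) g = ncl (cs (swap x y * f) g) := rfl
  unfold G0
  rw [mul_assoc]
  omega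

theorem swap_conj [DecidableEq D] {g : Perm D} {x y : D} (hg : g x = y) (hg' : g y = x) :
    g * swap x y = swap x y * g := by
  ext a
  simp only [Equiv.Perm.mul_apply]
  by_cases h1 : a = x
  · subst h1; rw [swap_apply_left, hg', hg, swap_apply_right]
  · by_cases h2 : a = y
    · subst h2; rw [swap_apply_right, hg, hg', swap_apply_left]
    · rw [swap_apply_of_ne_of_ne h1 h2, swap_apply_of_ne_of_ne]
      · intro hc; exact h2 (g.injective (hc.trans hg'.symm))
      · intro hc; exact h1 (g.injective (hc.trans hg.symm))

theorem G0.del [Finite D] [DecidableEq D] {f g : Perm D} (h : G0 f g) {x y : D}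
    (hg : g x = y) (hg' : g y = x) (h1 : ¬ SameCycle f x y) :
    G0 (f * swap x y) (g * swap x y) ∧ (f * swap x y) * (g * swap x y) = f * g ∧
      (∀ a b, cs f g a b ↔ cs (f * swap x y) (g * swap x y) a b) := by
  have hxy : x ≠ y := fun hc => h1 (hc ▸ SameCycle.refl _ _)
  have h3 : (f * swap x y) * (g * swap x y) = f * g := by
    rw [swap_conj hg hg', mul_assoc, ← mul_assoc (swap x y), swap_mul_self, one_mul]
  have c1 := cyc_swap_diff f h1
  have c2 := cyc_swap_same g hxy ⟨1, by simpa using hg⟩
  have c3 := euler' (f * swap x y) (g * swap x y)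
  have h0 : cyc f + cyc g + cyc (f * g) = Nat.card D + 2 * comps f g := h
  rw [h3] at c3
  have hm : SameCycle (f * swap x y) x y :=
    (swap_merge f h1 x y).2 (Or.inr (Or.inl ⟨SameCycle.refl _ _, SameCycle.refl _ _⟩))
  have hxy' : cs (f * swap x y) (g * swap x y) x y := cs_of_sameCycle hm
  have hle : ∀ a b, cs f g a b → cs (f * swap x y) (g * swap x y) a b := by
    intro a b hab
    set s := cs (f * swap x y) (g * swap x y) with hs
    have l : ∀ a, s a ((f * swap x y) a) := fun a => cs_left _ _ _
    have r : ∀ a, s a ((g * swap x y) a) := fun a => cs_right _ _ _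
    refine cs_le (s := s) (fun a => ?_) (fun a => ?_) hab
    · by_cases ha : a = x
      · have := l y
        rw [Equiv.Perm.mul_apply, swap_apply_right] at this
        rw [ha]; exact s.trans hxy' this
      · by_cases hb : a = y
        · have := l x
          rw [Equiv.Perm.mul_apply, swap_apply_left] at this
          rw [hb]; exact s.trans (s.symm hxy') this
        · have := l a
          rwa [Equiv.Perm.mul_apply, swap_apply_of_ne_of_ne ha hb] at this
    · by_cases ha : a = x
      · rw [ha, hg]; exact hxy'
      · by_cases hb : a = y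
        · rw [hb, hg']; exact s.symm hxy'
        · have := r a
          rwa [Equiv.Perm.mul_apply, swap_apply_of_ne_of_ne ha hb] at this
  have hle2 : comps (f * swap x y) (g * swap x y) ≤ comps f g := ncl_anti hle
  have heq : comps (f * swap x y) (g * swap x y) = comps f g := by omega
  have hgxy : cs f g x y := by
    have := cs_right f g x
    rwa [hg] at this
  refine ⟨?_, h3, fun a b => ⟨hle a b, ?_⟩⟩
  · unfold G0
    rw [h3]
    omega
  · intro hab
    refine cs_le (s := cs f g) (fun a => ?_) (fun a => ?_) hab
    · by_cases ha : a = x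
      · rw [ha, Equiv.Perm.mul_apply, swap_apply_left]
        exact (cs f g).trans hgxy (cs_left _ _ _)
      · by_cases hb : a = y
        · rw [hb, Equiv.Perm.mul_apply, swap_apply_right]
          exact (cs f g).trans ((cs f g).symm hgxy) (cs_left _ _ _)
        · rw [Equiv.Perm.mul_apply, swap_apply_of_ne_of_ne ha hb]
          exact cs_left _ _ _
    · by_cases ha : a = x
      · rw [ha, Equiv.Perm.mul_apply, swap_apply_left, hg']
      · by_cases hb : a = y
        · rw [hb, Equiv.Perm.mul_apply, swap_apply_right, hg]
        · rw [Equiv.Perm.mul_apply, swap_apply_of_ne_of_ne ha hb]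
          exact cs_right _ _ _

/-- remove a point from a permutation (it becomes a fixed point) -/
def skip [DecidableEq D] (f : Perm D) (r : D) : Perm D := swap r (f r) * f

theorem skip_self [DecidableEq D] (f : Perm D) (r : D) : skip f r r = r := by
  simp [skip]

theorem skip_eq [DecidableEq D] (f : Perm D) (r : D) {d : D} (h : f d = r) : skip f r d = f r := by
  simp [skip, h]

theorem skip_ne [DecidableEq D] (f : Perm D) (r : D) {d : D} (hd : d ≠ r) (h : f d ≠ r) :
    skip f r d = f d := by
  simp only [skip, Equiv.Perm.mul_apply]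
  rw [swap_apply_of_ne_of_ne h]
  intro hc
  exact hd (f.injective hc)

theorem skip_sameCycle [Finite D] [DecidableEq D] (f : Perm D) (r : D) {a b : D} (ha : a ≠ r)
    (hb : b ≠ r) (h : SameCycle f a b) : SameCycle (skip f r) a b := by
  have key : ∀ a b, SameCycle f a b → SameCycle (skip f r) (if a = r then f r else a)
      (if b = r then f r else b) := by
    intro a b hab
    let s : Setoid D := (SameCycle.setoid (skip f r)).comap (fun a => if a = r then f r else a)
    refine sc_le (s := s) (fun a => ?_) hab
    change SameCycle (skip f r) (if a = r then f r else a) (if f a = r then f r else f a)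
    by_cases h1 : a = r
    · rw [if_pos h1, h1]
      by_cases h2 : f r = r
      · rw [if_pos h2]
      · rw [if_neg h2]
    · rw [if_neg h1]
      by_cases h2 : f a = r
      · rw [if_pos h2, ← skip_eq f r h2]
        exact ⟨1, by simp⟩
      · rw [if_neg h2, ← skip_ne f r h1 h2]
        exact ⟨1, by simp⟩
  have := key a b h
  rwa [if_neg ha, if_neg hb] at this

theorem isolated {f g : Perm D} {r : D} (hf : f r = r) (hg : g r = r) {a : D}
    (h : cs f g a r) : a = r := by
  let s : Setoid D :=
    { r := fun a b => a = r ↔ b = r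
      iseqv := ⟨fun _ => Iff.rfl, fun h => h.symm, fun h1 h2 => h1.trans h2⟩ }
  have : s a r := by
    refine cs_le (s := s) (fun a => ?_) (fun a => ?_) h
    · change a = r ↔ f a = r
      constructor
      · rintro rfl; exact hf
      · intro hc; exact f.injective (hc.trans hf.symm)
    · change a = r ↔ g a = r
      constructor
      · rintro rfl; exact hg
      · intro hc; exact g.injective (hc.trans hg.symm)
  exact this.2 rfl

theorem G0.skip [Finite D] [DecidableEq D] {f g : Perm D} (h : G0 f g) {r : D} (hg : g r = r) :
    G0 (skip f r) g ∧ H71S.skip f r * g = H71S.skip (f * g) r ∧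
      (∀ a b, a ≠ r → b ≠ r → (cs f g a b ↔ cs (H71S.skip f r) g a b)) := by
  have h3 : H71S.skip f r * g = H71S.skip (f * g) r := by
    unfold H71S.skip
    rw [mul_assoc, Equiv.Perm.mul_apply, hg]
  by_cases hr : f r = r
  · have : H71S.skip f r = f := by
      unfold H71S.skip
      rw [hr, swap_self]
      exact one_mul f
    rw [this] at h3 ⊢
    exact ⟨h, h3, fun a b _ _ => Iff.rfl⟩
  · obtain ⟨k1, k2, k3⟩ := h.split (x := r) (y := f r) (fun hc => hr hc.symm) ⟨1, by simp⟩
      ⟨1, by simp [hg]⟩
    refine ⟨k1, h3, fun a b ha hb => ?_⟩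
    have hs : H71S.skip f r = swap r (f r) * f := rfl
    rw [k3, ← hs]
    constructor
    · rintro (h4 | ⟨h4, h5⟩ | ⟨h4, h5⟩)
      · exact h4
      · exact absurd (isolated (skip_self f r) hg h4) ha
      · exact absurd (isolated (skip_self f r) hg ((cs _ _).symm h5)) hb
    · exact fun h4 => Or.inl h4

end H71S
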