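import Pool.Agent.Lib.H71S.Run
import Pool.Agent.Lib.H71S.Defs

set_option autoImplicit false

/-!
# Peeling a plane triangulation
-/

namespace H71S

open Equiv Equiv.Perm

variable {D V : Type}

/-- a component of a labelled map of genus zero, with outer face walk `s, M` -/
structure Pl (φ α : Perm D) (lam : D → V) (s : D) (M : List D) : Prop where
  pm : PM φ α lam
  run : Run φ s M s
  nd : (s :: M).Nodup
  loop : ∀ d, cs φ α s d → lam (α d) ≠ lam d
  tri : ∀ d, cs φ α s d → d ∉ M → d ≠ s → φ (φ (φ d)) = d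
  dist : ∀ d d', cs φ α s d → cs φ α s d' → lam d = lam d' → SameCycle (φ * α) d d'

theorem Run.mem_cs [Finite D] {φ α : Perm D} {a b : D} {l : List D} (h : Run φ a l b) {y : D}
    (hy : y ∈ l ∨ y = b) : cs φ α a y := cs_of_sameCycle (h.same y hy)

theorem step1 [Finite D] [DecidableEq D] {φ α : Perm D} {lam : D → V} {s r : D} {L : List D}
    (h : Pl φ α lam s (L ++ [r])) (hl : lam s ≠ lam r)
    (h1 : α r ∉ L ++ [r]) (h2 : α r ≠ s) :
    ∃ (φ2 α2 : Perm D) (e1 e2 : D), Pl φ2 α2 lam s (L ++ [e1, e2]) ∧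
      lam e1 = lam r ∧ lam e2 ≠ lam r ∧ lam e2 ≠ lam s ∧
      (∀ d, cs φ2 α2 s d → cs φ α s d ∧ d ≠ r) ∧
      (∀ d, cs φ α s d → cs φ2 α2 s d ∨ lam d = lam r ∨ lam d = lam s) ∧
      (∀ d, cs φ α s d → d ∉ L ++ [r] → d ≠ s →
        (∀ x, (x = lam d ∨ x = lam (φ d) ∨ x = lam (φ (φ d))) ↔
          (x = lam r ∨ x = lam e2 ∨ x = lam s)) ∨
        (cs φ2 α2 s d ∧ d ∉ L ++ [e1, e2] ∧ φ2 d = φ d ∧ φ2 (φ2 d) = φ (φ d))) := by
  obtain ⟨r', hr⟩ : ∃ r', α r = r' := ⟨_, rfl⟩
  rw [hr] at h1 h2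
  have hr' : α r' = r := by rw [← hr, h.pm.inv]
  obtain ⟨run1, run2⟩ := Run.append.1 h.run
  have hφr : φ r = s := run2
  have hsr : s ≠ r := fun hc => hl (by rw [hc])
  have hout : ∀ e, SameCycle φ r' e → e ≠ s ∧ e ∉ L ++ [r] := by
    intro e he
    constructor
    · rintro rfl
      rcases h.run.closed_same he (Or.inl rfl) with h3 | h3
      · exact h2 h3
      · exact h1 h3
    · intro hc
      rcases h.run.closed_same he (Or.inr hc) with h3 | h3
      · exact h2 h3
      · exact h1 h3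
  have hcr : cs φ α s r := h.run.mem_cs (Or.inl (by simp))
  have hcr' : cs φ α s r' := (cs φ α).trans hcr (by
    have := cs_right φ α r
    rwa [hr] at this)
  have htri := h.tri r' hcr' h1 h2
  obtain ⟨e1, he1⟩ : ∃ e1, φ r' = e1 := ⟨_, rfl⟩
  obtain ⟨e2, he2⟩ : ∃ e2, φ e1 = e2 := ⟨_, rfl⟩
  rw [he1, he2] at htri
  have s1 : SameCycle φ r' e1 := ⟨1, by rw [zpow_one]; exact he1⟩
  have s2 : SameCycle φ r' e2 := s1.trans ⟨1, by rw [zpow_one]; exact he2⟩
  have c1 : cs φ α s e1 := (cs φ α).trans hcr' (cs_of_sameCycle s1)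
  have c2 : cs φ α s e2 := (cs φ α).trans hcr' (cs_of_sameCycle s2)
  have l1 : lam e1 = lam r := by rw [← he1, h.pm.head, hr']
  have lr' : lam r' = lam s := by rw [← hφr, h.pm.head, hr]
  have l2 : lam e2 ≠ lam r := by
    rw [← l1]
    have := h.loop e1 c1
    rwa [← h.pm.head, he2] at this
  have l3 : lam e2 ≠ lam s := by
    have := h.loop e2 c2
    rw [← h.pm.head, htri, lr'] at this
    exact fun hc => this hc.symm
  obtain ⟨o1s, o1M⟩ := hout e1 s1
  obtain ⟨o2s, o2M⟩ := hout e2 s2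
  have o1L : e1 ∉ L := fun hc => o1M (by simp [hc])
  have o1r : e1 ≠ r := fun hc => o1M (by simp [hc])
  have o2L : e2 ∉ L := fun hc => o2M (by simp [hc])
  have o2r : e2 ≠ r := fun hc => o2M (by simp [hc])
  have hL' : r' ∉ L := fun hc => h1 (by simp [hc])
  have hrr' : r' ≠ r := fun hc => h1 (by simp [hc])
  have ne1r' : e1 ≠ r' := fun hc => hl (by rw [← lr', ← hc, l1])
  have ne2r' : e2 ≠ r' := fun hc => l3 (by rw [hc, lr'])
  have ne12 : e1 ≠ e2 := fun hc => l2 (by rw [← hc, l1])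
  have hnd := h.nd
  rw [List.nodup_cons, List.nodup_append] at hnd
  obtain ⟨hs, hLnd, -, hLr⟩ := hnd
  have hsL : s ∉ L := fun hc => hs (by simp [hc])
  have hrL : r ∉ L := fun hc => hLr r hc r (by simp) rfl
  have hn : ¬ SameCycle φ r r' := fun hc => (hout r hc.symm).2 (by simp)
  obtain ⟨φ2, α2, pm2, f1, f2, f3, f4, f5, f6, f7, f8, f9, f10⟩ :=
    h.pm.del hr hn (by rw [hφr]; exact hsr) (by rw [he1]; exact ne1r')
  rw [he1] at f6
  rw [hφr] at f7
  -- the new run
  have hxL : ∀ x, (x = s ∨ x ∈ L) → x ≠ r ∧ x ≠ r' ∧ φ x ≠ r' := by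
    rintro x hx
    refine ⟨?_, ?_, ?_⟩
    · rintro rfl
      rcases hx with rfl | hx
      · exact hsr rfl
      · exact hrL hx
    · rintro rfl
      rcases hx with rfl | hx
      · exact h2 rfl
      · exact hL' hx
    · intro hc
      have h3 : SameCycle φ r' x := SameCycle.symm ⟨1, by rw [zpow_one]; exact hc⟩
      obtain ⟨h4, h5⟩ := hout x h3
      rcases hx with rfl | hx
      · exact h4 rfl
      · exact h5 (by simp [hx])
  have runA : Run φ2 s L e1 := by
    refine run1.replace hrL ?_ ?_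
    · intro x hx1 hx2
      obtain ⟨h3, h4, h5⟩ := hxL x hx1
      exact f8 x h3 h4 hx2 h5
    · intro x hx1 hx2
      obtain ⟨h3, h4, h5⟩ := hxL x hx1
      exact f6 x h3 h4 hx2
  have g1 : φ2 e1 = e2 := by rw [f8 e1 o1r ne1r' (by rw [he2]; exact o2r) (by rw [he2]; exact ne2r'), he2]
  have g2 : φ2 e2 = s := f7 e2 o2r ne2r' htri
  have run2 : Run φ2 s (L ++ [e1, e2]) s := Run.append.2 ⟨runA, g1, g2⟩
  have hsr' : s ≠ r' := fun hc => h2 hc.symm
  -- components
  have iso1 : ∀ d, cs φ2 α2 s d → d ≠ r := by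
    rintro d hd rfl
    exact hsr (isolated f1 f3 hd)
  have iso2 : ∀ d, cs φ2 α2 s d → d ≠ r' := by
    rintro d hd rfl
    exact hsr' (isolated f2 f4 hd)
  have hdown : ∀ d, cs φ2 α2 s d → cs φ α s d := fun d hd =>
    (f9 s d hsr hsr' (iso1 d hd) (iso2 d hd)).2 hd
  have hup : ∀ d, cs φ α s d → d ≠ r → d ≠ r' → cs φ2 α2 s d := fun d hd h3 h4 =>
    (f9 s d hsr hsr' h3 h4).1 hd
  -- darts off the boundary
  have hoff : ∀ d, cs φ α s d → d ∉ L ++ [r] → d ≠ s → d ≠ r' → d ≠ e1 → d ≠ e2 →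
      φ2 d = φ d ∧ φ2 (φ2 d) = φ (φ d) ∧ φ2 (φ2 (φ2 d)) = φ (φ (φ d)) ∧ φ (φ (φ d)) = d := by
    intro d hd k1 k2 k3 k4 k5
    have ht := h.tri d hd k1 k2
    have hcyc : ∀ x, x = d ∨ x = φ d ∨ x = φ (φ d) → SameCycle φ d x := by
      rintro x (rfl | rfl | rfl)
      · exact SameCycle.refl _ _
      · exact ⟨1, by rw [zpow_one]⟩
      · exact ⟨2, by simp [zpow_ofNat, pow_succ]⟩
    have hno : ∀ x, x = d ∨ x = φ d ∨ x = φ (φ d) → x ≠ r ∧ x ≠ r' := by
      intro x hx
      constructor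
      · rintro rfl
        rcases h.run.closed_same (hcyc x hx) (Or.inr (by simp)) with h3 | h3
        · exact k2 h3
        · exact k1 h3
      · rintro rfl
        rcases hx with hx | hx | hx
        · exact k3 hx.symm
        · rw [← hx, he1] at ht
          have h6 : φ e1 = d := ht
          exact k5 (by rw [← h6, he2])
        · rw [← hx, he1] at ht
          exact k4 ht.symm
    have hstep : ∀ x, x = d ∨ x = φ d ∨ x = φ (φ d) → φ2 x = φ x := by
      intro x hx
      have h3 := hno x hx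
      have h4 : φ x = d ∨ φ x = φ d ∨ φ x = φ (φ d) := by
        rcases hx with rfl | rfl | rfl
        · exact Or.inr (Or.inl rfl)
        · exact Or.inr (Or.inr rfl)
        · exact Or.inl ht
      have h5 := hno _ h4
      exact f8 x h3.1 h3.2 h5.1 h5.2
    have m1 := hstep d (Or.inl rfl)
    have m2 := hstep (φ d) (Or.inr (Or.inl rfl))
    have m3 := hstep (φ (φ d)) (Or.inr (Or.inr rfl))
    refine ⟨m1, by rw [m1, m2], by rw [m1, m2, m3], ht⟩
  refine ⟨φ2, α2, e1, e2, ⟨pm2, run2, ?_, ?_, ?_, ?_⟩, l1, l2, l3, fun d hd =>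
    ⟨hdown d hd, iso1 d hd⟩, ?_, ?_⟩
  · rw [List.nodup_cons, List.nodup_append]
    refine ⟨by simp [hsL, o1s.symm, o2s.symm], hLnd, by simp [ne12], ?_⟩
    intro a ha b hb
    simp at hb
    rcases hb with rfl | rfl
    · rintro rfl; exact o1L ha
    · rintro rfl; exact o2L ha
  · intro d hd
    rw [f5 d (iso1 d hd) (iso2 d hd)]
    exact h.loop d (hdown d hd)
  · intro d hd hM hs'
    have k1 : d ∉ L := fun hc => hM (by simp [hc])
    obtain ⟨m1, m2, m3, m4⟩ := hoff d (hdown d hd) (by simp [k1, iso1 d hd]) hs' (iso2 d hd)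
      (fun hc => hM (by simp [hc])) (fun hc => hM (by simp [hc]))
    rw [m3, m4]
  · intro d d' hd hd' hdd
    exact f10 d d' (iso1 d hd) (iso2 d hd) (iso1 d' hd') (iso2 d' hd')
      (h.dist d d' (hdown d hd) (hdown d' hd') hdd)
  · intro d hd
    by_cases k1 : d = r
    · exact Or.inr (Or.inl (by rw [k1]))
    · by_cases k2 : d = r'
      · exact Or.inr (Or.inr (by rw [k2, lr']))
      · exact Or.inl (hup d hd k1 k2)
  · intro d hd k1 k2
    by_cases k3 : d = r'
    · left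
      intro x
      rw [k3, he1, he2, lr', l1]
      tauto
    · by_cases k4 : d = e1
      · left
        intro x
        rw [k4, he2, htri, l1, lr']
      · by_cases k5 : d = e2
        · left
          intro x
          rw [k5, htri, he1, l1, lr']
          tauto
        · right
          obtain ⟨m1, m2, -, -⟩ := hoff d hd k1 k2 k3 k4 k5
          have k6 : d ≠ r := fun hc => k1 (by simp [hc])
          have k7 : d ∉ L := fun hc => k1 (by simp [hc])
          exact ⟨hup d hd k6 k3, by simp [k7, k4, k5], m1, m2⟩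

end H71S
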