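import Pool.Agent.Lib.H71S.Peel

set_option autoImplicit false

/-!
# Peeling a plane triangulation, second step
-/

namespace H71S

open Equiv Equiv.Perm

variable {D V : Type}

theorem step2 [Finite D] [DecidableEq D] {φ α : Perm D} {lam : D → V} {s x e1 y : D}
    {L1 L2 : List D}
    (h : Pl φ α lam s (L1 ++ x :: (L2 ++ [e1, y]))) (hl : lam x = lam y) :
    ∃ φ3 : Perm D, Pl φ3 α lam e1 (x :: L2) ∧ Pl φ3 α lam s (L1 ++ [y]) ∧
      (∀ d, cs φ3 α e1 d → cs φ α s d) ∧ (∀ d, cs φ3 α s d → cs φ α s d) ∧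
      (∀ d, cs φ α s d → cs φ3 α e1 d ∨ cs φ3 α s d) ∧
      (∀ d d', cs φ3 α e1 d → cs φ3 α s d' → lam d = lam d' → lam d = lam y) ∧
      (∀ d, cs φ α s d → d ∉ L1 ++ x :: (L2 ++ [e1, y]) → d ≠ s →
        φ3 d = φ d ∧ φ3 (φ3 d) = φ (φ d) ∧
        ((cs φ3 α e1 d ∧ d ∉ x :: L2 ∧ d ≠ e1) ∨ (cs φ3 α s d ∧ d ∉ L1 ++ [y] ∧ d ≠ s))) := by
  have hrun := h.run
  obtain ⟨r1, r2⟩ := Run.append.1 hrun
  obtain ⟨r3, r4, r5⟩ := Run.append.1 r2
  have r5' : φ y = s := r5
  have hnd := h.nd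
  rw [List.nodup_cons, List.nodup_append, List.nodup_cons, List.nodup_append] at hnd
  obtain ⟨n1, n2, ⟨n3, n4, n5, n6⟩, n7⟩ := hnd
  simp only [List.mem_append, List.mem_cons, List.not_mem_nil, or_false, not_or] at n1 n3
  obtain ⟨sL1, sx, sL2, se1, sy⟩ := n1
  obtain ⟨xL2, xe1, xy⟩ := n3
  have e1L2 : e1 ∉ L2 := fun hc => n6 e1 hc e1 (by simp) rfl
  have yL2 : y ∉ L2 := fun hc => n6 y hc y (by simp) rfl
  have e1y : e1 ≠ y := by
    intro hc; rw [hc] at n5; simp at n5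
  have xL1 : x ∉ L1 := fun hc => n7 x hc x (by simp) rfl
  have e1L1 : e1 ∉ L1 := fun hc => n7 e1 hc e1 (by simp) rfl
  have yL1 : y ∉ L1 := fun hc => n7 y hc y (by simp) rfl
  have L12 : ∀ a, a ∈ L1 → a ∉ L2 := fun a ha hb => n7 a ha a (by simp [hb]) rfl
  have cx : cs φ α s x := hrun.mem_cs (Or.inl (by simp))
  have cy : cs φ α s y := hrun.mem_cs (Or.inl (by simp))
  have same : SameCycle φ x y := r2.same y (Or.inl (by simp))
  obtain ⟨pm3, k1, k2, k3⟩ := h.pm.split xy hl same (h.dist x y cx cy hl)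
  set φ3 := swap x y * φ with hφ3
  have v1 : ∀ d, φ d = x → φ3 d = y := fun d hd => by
    rw [hφ3, Equiv.Perm.mul_apply, hd, swap_apply_left]
  have v2 : ∀ d, φ d = y → φ3 d = x := fun d hd => by
    rw [hφ3, Equiv.Perm.mul_apply, hd, swap_apply_right]
  have v3 : ∀ d, φ d ≠ x → φ d ≠ y → φ3 d = φ d := fun d hd hd' => by
    rw [hφ3, Equiv.Perm.mul_apply, swap_apply_of_ne_of_ne hd hd']
  have inj1 : ∀ d, φ d = y → d = e1 := fun d hd => φ.injective (hd.trans r4.symm)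
  obtain ⟨x0, hx0, hx0'⟩ := r1.pred x (Or.inr rfl)
  have inj2 : ∀ d, φ d = x → d = s ∨ d ∈ L1 := by
    intro d hd
    have : d = x0 := φ.injective (hd.trans hx0'.symm)
    rw [this]; exact hx0
  -- the new runs
  have A1 : Run φ3 s L1 y := by
    refine r1.replace xL1 ?_ ?_
    · intro d hd hdx
      refine v3 d hdx (fun hc => ?_)
      rw [inj1 d hc] at hd
      rcases hd with hd | hd
      · exact se1 hd.symm
      · exact e1L1 hd
    · intro d hd hdx
      exact v1 d hdx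
  have A2 : φ3 y = s := by
    rw [v3 y (by rw [r5']; exact sx) (by rw [r5']; exact sy), r5']
  have runB : Run φ3 s (L1 ++ [y]) s := Run.append.2 ⟨A1, A2⟩
  have A3 : Run φ3 x L2 e1 := by
    refine r3.congr ?_
    intro d hd
    refine v3 d (fun hc => ?_) (fun hc => ?_)
    · rcases inj2 d hc with h1 | h1
      · rw [h1] at hd
        rcases hd with hd | hd
        · exact sx hd
        · exact sL2 hd
      · rcases hd with hd | hd
        · rw [hd] at h1; exact xL1 h1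
        · exact L12 d h1 hd
    · rw [inj1 d hc] at hd
      rcases hd with hd | hd
      · exact xe1 hd.symm
      · exact e1L2 hd
  have runA : Run φ3 e1 (x :: L2) e1 := ⟨v2 e1 r4, A3⟩
  -- components
  have ce : cs φ3 α e1 x := runA.mem_cs (Or.inl (by simp))
  have cys : cs φ3 α s y := runB.mem_cs (Or.inl (by simp))
  have hsep : ∀ d, cs φ3 α e1 d → ¬ cs φ3 α s d := by
    intro d h1 h2
    apply k1
    exact (cs φ3 α).trans ((cs φ3 α).symm ce) ((cs φ3 α).trans h1
      ((cs φ3 α).trans ((cs φ3 α).symm h2) cys))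
  have down : ∀ a b, cs φ3 α a b → cs φ α a b := fun a b hab => (k2 a b).2 (Or.inl hab)
  have ce1 : cs φ α s e1 := hrun.mem_cs (Or.inl (by simp))
  have downA : ∀ d, cs φ3 α e1 d → cs φ α s d := fun d hd => (cs φ α).trans ce1 (down _ _ hd)
  have downB : ∀ d, cs φ3 α s d → cs φ α s d := fun d hd => down _ _ hd
  have up : ∀ d, cs φ α s d → cs φ3 α e1 d ∨ cs φ3 α s d := by
    intro d hd
    rcases (k2 s d).1 hd with h1 | ⟨h1, h2⟩ | ⟨h1, h2⟩
    · exact Or.inr h1
    · exact Or.inr ((cs φ3 α).trans cys h2)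
    · exact Or.inl ((cs φ3 α).trans ce h2)
  have distAB : ∀ d d', cs φ α s d → cs φ α s d' → lam d = lam d' →
      SameCycle (φ3 * α) d d' ∨ (cs φ3 α d x ∧ cs φ3 α y d' ∧ lam d = lam y) ∨
      (cs φ3 α d y ∧ cs φ3 α x d' ∧ lam d = lam y) := by
    intro d d' hd hd' hdd
    rcases k3 d d' (h.dist d d' hd hd' hdd) with h1 | ⟨h1, h2⟩ | ⟨h1, h2⟩
    · exact Or.inl h1
    · exact Or.inr (Or.inl ⟨cs_of_sameCycle_mul h1, cs_of_sameCycle_mul h2,
        by rw [pm3.lam_same h1, hl]⟩)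
    · exact Or.inr (Or.inr ⟨cs_of_sameCycle_mul h1, cs_of_sameCycle_mul h2,
        pm3.lam_same h1⟩)
  -- darts off the boundary
  have hoff : ∀ d, cs φ α s d → d ∉ L1 ++ x :: (L2 ++ [e1, y]) → d ≠ s →
      φ3 d = φ d ∧ φ3 (φ3 d) = φ (φ d) ∧ φ3 (φ3 (φ3 d)) = φ (φ (φ d)) := by
    intro d hd j1 j2
    have hcyc : ∀ z, SameCycle φ d z → φ3 z = φ z := by
      intro z hz
      have hz' : z ≠ s ∧ z ∉ L1 ++ x :: (L2 ++ [e1, y]) := by
        constructor
        · rintro rfl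
          rcases hrun.closed_same hz (Or.inl rfl) with h3 | h3
          · exact j2 h3
          · exact j1 h3
        · intro hc
          rcases hrun.closed_same hz (Or.inr hc) with h3 | h3
          · exact j2 h3
          · exact j1 h3
      refine v3 z (fun hc => ?_) (fun hc => ?_)
      · rcases inj2 z hc with h1 | h1
        · exact hz'.1 h1
        · exact hz'.2 (by simp [h1])
      · exact hz'.2 (by rw [inj1 z hc]; simp)
    have m1 := hcyc d (SameCycle.refl _ _)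
    have m2 := hcyc (φ d) ⟨1, by rw [zpow_one]⟩
    have m3 := hcyc (φ (φ d)) ⟨2, by simp [zpow_ofNat, pow_succ]⟩
    exact ⟨m1, by rw [m1, m2], by rw [m1, m2, m3]⟩
  refine ⟨φ3, ⟨pm3, runA, ?_, ?_, ?_, ?_⟩, ⟨pm3, runB, ?_, ?_, ?_, ?_⟩, downA, downB, up, ?_, ?_⟩
  · rw [List.nodup_cons, List.nodup_cons]
    refine ⟨?_, xL2, n4⟩
    simp [e1L2, Ne.symm xe1]
  · exact fun d hd => h.loop d (downA d hd)
  · intro d hd j1 j2
    have j3 : d ∉ L1 ++ x :: (L2 ++ [e1, y]) := by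
      intro hc
      have : d = x ∨ d ∈ L2 ∨ d = e1 ∨ (d ∈ L1 ++ [y]) := by
        simp only [List.mem_append, List.mem_cons, List.not_mem_nil, or_false] at hc ⊢
        tauto
      rcases this with h1 | h1 | h1 | h1
      · exact j1 (by simp [h1])
      · exact j1 (by simp [h1])
      · exact j2 h1
      · exact hsep d hd (runB.mem_cs (Or.inl h1))
    have j4 : d ≠ s := fun hc => hsep d hd (by rw [hc])
    obtain ⟨m1, m2, m3⟩ := hoff d (downA d hd) j3 j4
    rw [m3]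
    exact h.tri d (downA d hd) j3 j4
  · intro d d' hd hd' hdd
    rcases distAB d d' (downA d hd) (downA d' hd') hdd with h1 | ⟨h1, h2, h3⟩ | ⟨h1, h2, h3⟩
    · exact h1
    · exact absurd ((cs φ3 α).trans cys h2) (hsep d' hd')
    · exact absurd ((cs φ3 α).trans cys ((cs φ3 α).symm h1)) (hsep d hd)
  · rw [List.nodup_cons, List.nodup_append]
    refine ⟨by simp [sL1, sy], n2, by simp, ?_⟩
    intro a ha b hb
    simp at hb
    rw [hb]
    rintro rfl
    exact yL1 ha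
  · exact fun d hd => h.loop d (downB d hd)
  · intro d hd j1 j2
    have j3 : d ∉ L1 ++ x :: (L2 ++ [e1, y]) := by
      intro hc
      have : d ∈ x :: L2 ∨ d = e1 ∨ (d ∈ L1 ++ [y]) := by
        simp only [List.mem_append, List.mem_cons, List.not_mem_nil, or_false] at hc ⊢
        tauto
      rcases this with h1 | h1 | h1
      · exact hsep d (runA.mem_cs (Or.inl h1)) hd
      · exact hsep d (by rw [h1]) hd
      · exact j1 h1
    obtain ⟨m1, m2, m3⟩ := hoff d (downB d hd) j3 j2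
    rw [m3]
    exact h.tri d (downB d hd) j3 j2
  · intro d d' hd hd' hdd
    rcases distAB d d' (downB d hd) (downB d' hd') hdd with h1 | ⟨h1, h2, h3⟩ | ⟨h1, h2, h3⟩
    · exact h1
    · exact absurd hd (hsep d ((cs φ3 α).trans ce ((cs φ3 α).symm h1)))
    · exact absurd hd' (hsep d' ((cs φ3 α).trans ce h2))
  · intro d d' hd hd' hdd
    rcases distAB d d' (downA d hd) (downB d' hd') hdd with h1 | ⟨h1, h2, h3⟩ | ⟨h1, h2, h3⟩
    · exact absurd hd' (hsep d' ((cs φ3 α).trans hd (cs_of_sameCycle_mul h1)))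
    · exact h3
    · exact h3
  · intro d hd j1 j2
    obtain ⟨m1, m2, m3⟩ := hoff d hd j1 j2
    refine ⟨m1, m2, ?_⟩
    simp only [List.mem_append, List.mem_cons, List.not_mem_nil, or_false, not_or] at j1
    obtain ⟨a1, a2, a3, a4, a5⟩ := j1
    rcases up d hd with h1 | h1
    · exact Or.inl ⟨h1, by simp [a2, a3], a4⟩
    · exact Or.inr ⟨h1, by simp [a1, a5], j2⟩

end H71S
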