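import Pool.Agent.Lib.H71S.Peel2

set_option autoImplicit false

/-!
# Peeling a plane triangulation: the theorem
-/

namespace H71S

open Equiv Equiv.Perm

variable {D V : Type}

/-- the labels `a`, `b`, `c` are those of a face in the list -/
def Tri (F : List (V × V × V)) (a b c : V) : Prop :=
  ∃ f ∈ F, ∀ x, (x = a ∨ x = b ∨ x = c) ↔ (x = f.1 ∨ x = f.2.1 ∨ x = f.2.2)

theorem Tri.mono {F G : List (V × V × V)} {a b c : V} (h : Tri F a b c)
    (hFG : ∀ f ∈ F, f ∈ G) : Tri G a b c := by
  obtain ⟨f, hf, h⟩ := h
  exact ⟨f, hFG f hf, h⟩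

/-- what peeling gives -/
structure Peeled (φ α : Perm D) (lam : D → V) (s : D) (M : List D) (I : List V)
    (F : List (V × V × V)) : Prop where
  disc : Disc (M.map lam) (lam s) I F
  nd : (M.map lam ++ lam s :: I).Nodup
  inner : ∀ v ∈ I, ∃ d, cs φ α s d ∧ lam d = v
  all : ∀ d, cs φ α s d → lam d ∈ M.map lam ++ lam s :: I
  face : ∀ d, cs φ α s d → d ∉ M → d ≠ s → Tri F (lam d) (lam (φ d)) (lam (φ (φ d)))

theorem peel_nil [Finite D] {φ α : Perm D} {lam : D → V} {s r : D} {L : List D}
    (h : Pl φ α lam s (L ++ [r])) (hl : ((L ++ [r]).map lam ++ [lam s]).Nodup)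
    (h1 : α r = s ∨ α r ∈ L ++ [r]) :
    Peeled φ α lam s (L ++ [r]) [] [] := by
  have hsr : φ r = s := (Run.append.1 h.run).2
  have lr' : lam (α r) = lam s := by rw [← h.pm.head, hsr]
  have hs : α r = s := by
    rcases h1 with h1 | h1
    · exact h1
    · exfalso
      rw [List.nodup_append] at hl
      exact hl.2.2 (lam (α r)) (List.mem_map.2 ⟨_, h1, rfl⟩) (lam s) (by simp) lr'
  have hs' : α s = r := by rw [← hs, h.pm.inv]
  have hL : L = [] := by
    cases L with
    | nil => rfl
    | cons m L =>
      exfalso
      have h2 : φ s = m := h.run.1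
      have h3 : lam m = lam r := by rw [← h2, h.pm.head, hs']
      simp only [List.cons_append, List.map_cons, List.map_append, List.map_nil,
        List.nodup_cons] at hl
      exact hl.1 (by simp [h3])
  subst hL
  have h2 : φ s = r := h.run.1
  have hcomp : ∀ d, cs φ α s d → d = s ∨ d = r := by
    intro d hd
    let t : Setoid D :=
      { r := fun a b => (a = s ∨ a = r) ↔ (b = s ∨ b = r)
        iseqv := ⟨fun _ => Iff.rfl, fun h => h.symm, fun h1 h2 => h1.trans h2⟩ }
    have : t s d := by
      refine cs_le (s := t) (fun a => ?_) (fun a => ?_) hd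
      · change (a = s ∨ a = r) ↔ (φ a = s ∨ φ a = r)
        constructor
        · rintro (rfl | rfl)
          · exact Or.inr h2
          · exact Or.inl hsr
        · rintro (h3 | h3)
          · exact Or.inr (φ.injective (h3.trans hsr.symm))
          · exact Or.inl (φ.injective (h3.trans h2.symm))
      · change (a = s ∨ a = r) ↔ (α a = s ∨ α a = r)
        constructor
        · rintro (rfl | rfl)
          · exact Or.inr hs'
          · exact Or.inl hs
        · rintro (h3 | h3)
          · exact Or.inr (α.injective (h3.trans hs.symm))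
          · exact Or.inl (α.injective (h3.trans hs'.symm))
    exact this.1 (Or.inl rfl)
  refine ⟨Disc.nil _ _, by simpa using hl, by simp, ?_, ?_⟩
  · intro d hd
    rcases hcomp d hd with rfl | rfl <;> simp
  · intro d hd h3 h4
    rcases hcomp d hd with rfl | rfl
    · exact absurd rfl h4
    · exact absurd (by simp) h3

theorem peel [Finite D] {lam : D → V} (n : ℕ) : ∀ (φ α : Perm D) (s : D) (M : List D),
    Pl φ α lam s M → M ≠ [] → (M.map lam ++ [lam s]).Nodup →
    {d | cs φ α s d}.ncard ≤ n → ∃ I F, Peeled φ α lam s M I F := by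
  classical
  induction n with
  | zero =>
    intro φ α s M h hM hl hn
    exfalso
    have h1 : {d | cs φ α s d}.ncard = 0 := Nat.le_zero.1 hn
    rw [Set.ncard_eq_zero] at h1
    have : s ∈ {d | cs φ α s d} := (cs φ α).refl s
    rw [h1] at this
    exact this
  | succ n ih =>
    intro φ α s M h hM hl hn
    obtain ⟨L, r, rfl⟩ : ∃ L r, M = L ++ [r] :=
      ⟨M.dropLast, M.getLast hM, (List.dropLast_append_getLast hM).symm⟩
    by_cases h0 : α r = s ∨ α r ∈ L ++ [r]
    · exact ⟨[], [], peel_nil h hl h0⟩
    push Not at h0
    obtain ⟨h2, h1⟩ := h0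
    have hsr : lam s ≠ lam r := by
      intro hc
      rw [List.nodup_append] at hl
      exact hl.2.2 (lam r) (List.mem_map.2 ⟨r, by simp, rfl⟩) (lam s) (by simp) hc.symm
    obtain ⟨φ2, α2, e1, e2, pl2, l1, l2, l3, c1, c2, c3⟩ := step1 h hsr h1 h2
    have hcr : cs φ α s r := h.run.mem_cs (Or.inl (by simp))
    have hcard : ∀ S : Set D, (∀ d ∈ S, cs φ2 α2 s d) → S.ncard ≤ n := by
      intro S hS
      have : S.ncard < {d | cs φ α s d}.ncard := by
        refine Set.ncard_lt_ncard ⟨fun d hd => (c1 d (hS d hd)).1, fun hc => ?_⟩ (Set.toFinite _)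
        exact (c1 r (hS r (hc hcr))).2 rfl
      omega
    have hlL : (L.map lam ++ [lam r, lam s]).Nodup := by simpa using hl
    by_cases hz : lam e2 ∈ L.map lam
    · -- split
      obtain ⟨x, hx, hxe⟩ := List.mem_map.1 hz
      obtain ⟨L1, L2, rfl⟩ := List.append_of_mem hx
      have e3 : (L1 ++ x :: L2) ++ [e1, e2] = L1 ++ x :: (L2 ++ [e1, e2]) := by simp
      rw [e3] at pl2
      obtain ⟨φ3, plA, plB, dA, dB, dAB, dK, dF⟩ := step2 pl2 hxe
      have nd1 : (L1.map lam ++ lam x :: (L2.map lam ++ [lam r, lam s])).Nodup := by
        simpa using hlL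
      have ndA : ((x :: L2).map lam ++ [lam e1]).Nodup := by
        have : ((x :: L2).map lam ++ [lam e1]).Sublist
            (L1.map lam ++ lam x :: (L2.map lam ++ [lam r, lam s])) := by
          refine List.Sublist.trans ?_ (List.sublist_append_right _ _)
          rw [List.map_cons, List.cons_append, l1]
          refine List.Sublist.cons_cons _ (List.Sublist.append_left ?_ _)
          simp
        exact this.nodup nd1
      have ndB : ((L1 ++ [e2]).map lam ++ [lam s]).Nodup := by
        have : ((L1 ++ [e2]).map lam ++ [lam s]).Sublist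
            (L1.map lam ++ lam x :: (L2.map lam ++ [lam r, lam s])) := by
          rw [List.map_append, List.append_assoc]
          refine List.Sublist.append_left ?_ _
          simp only [List.map_cons, List.map_nil, List.cons_append, List.nil_append, hxe]
          refine List.Sublist.cons_cons _ ?_
          refine List.Sublist.trans ?_ (List.sublist_append_right _ _)
          simp
        exact this.nodup nd1
      obtain ⟨I, F, pA⟩ := ih φ3 α2 e1 (x :: L2) plA (by simp) ndA (hcard _ dA)
      obtain ⟨J, G, pB⟩ := ih φ3 α2 s (L1 ++ [e2]) plB (by simp) ndB (hcard _ dB)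
      have dI := pA.disc
      have dJ := pB.disc
      rw [List.map_cons, l1, hxe] at dI
      rw [List.map_append, List.map_singleton] at dJ
      have hd := Disc.cut dI dJ
      have ndI := pA.nd
      have ndJ := pB.nd
      -- labels of the two sides
      have hsideA : ∀ v, (v ∈ I ∨ v ∈ (x :: L2).map lam ∨ v = lam e1) →
          ∃ d, cs φ3 α2 e1 d ∧ lam d = v := by
        rintro v (hv | hv | rfl)
        · exact pA.inner v hv
        · obtain ⟨d, hd, rfl⟩ := List.mem_map.1 hv
          exact ⟨d, plA.run.mem_cs (Or.inl hd), rfl⟩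
        · exact ⟨e1, (cs φ3 α2).refl _, rfl⟩
      have hsideB : ∀ v, (v ∈ J ∨ v ∈ (L1 ++ [e2]).map lam ∨ v = lam s) →
          ∃ d, cs φ3 α2 s d ∧ lam d = v := by
        rintro v (hv | hv | rfl)
        · exact pB.inner v hv
        · obtain ⟨d, hd, rfl⟩ := List.mem_map.1 hv
          exact ⟨d, plB.run.mem_cs (Or.inl hd), rfl⟩
        · exact ⟨s, (cs φ3 α2).refl _, rfl⟩
      have hAB : ∀ v, (v ∈ I ∨ v ∈ (x :: L2).map lam ∨ v = lam e1) →
          (v ∈ J ∨ v ∈ (L1 ++ [e2]).map lam ∨ v = lam s) → v = lam e2 := by
        intro v hv hw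
        obtain ⟨d, hd1, hd2⟩ := hsideA v hv
        obtain ⟨d', hd1', hd2'⟩ := hsideB v hw
        rw [← hd2]
        exact dK d d' hd1 hd1' (by rw [hd2, hd2'])
      have hzI : lam e2 ∉ I := by
        intro hc
        rw [List.map_cons, List.cons_append, List.nodup_cons] at ndI
        exact ndI.1 (by rw [hxe]; simp [hc])
      have hzJ : lam e2 ∉ J := by
        intro hc
        rw [List.nodup_append] at ndJ
        exact ndJ.2.2 (lam e2) (by simp) (lam e2) (by simp [hc]) rfl
      refine ⟨I ++ J, (lam e2, lam r, lam s) :: (F ++ G), ?_, ?_, ?_, ?_, ?_⟩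
      · have e4 : (L1 ++ x :: L2 ++ [r]).map lam =
            L1.map lam ++ lam e2 :: (L2.map lam ++ [lam r]) := by simp [hxe]
        rw [e4]
        exact hd
      · -- nodup
        have hrw : ((L1 ++ x :: L2 ++ [r]).map lam ++ lam s :: (I ++ J)).Perm
            ((L1.map lam ++ lam x :: (L2.map lam ++ [lam r, lam s])) ++ (I ++ J)) := by
          simp
        rw [hrw.nodup_iff, List.nodup_append]
        refine ⟨nd1, ?_, ?_⟩
        · rw [List.nodup_append]
          refine ⟨?_, ?_, ?_⟩
          · have : I.Sublist ((x :: L2).map lam ++ lam e1 :: I) :=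
              (List.sublist_cons_self _ _).trans (List.sublist_append_right _ _)
            exact this.nodup ndI
          · have : J.Sublist ((L1 ++ [e2]).map lam ++ lam s :: J) :=
              (List.sublist_cons_self _ _).trans (List.sublist_append_right _ _)
            exact this.nodup ndJ
          · intro a ha b hb hab
            subst hab
            have := hAB a (Or.inl ha) (Or.inl hb)
            rw [this] at ha
            exact hzI ha
        · intro a ha b hb hab
          subst hab
          rw [List.mem_append] at hb
          simp only [List.mem_append, List.mem_cons, List.not_mem_nil, or_false] at ha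
          have ha' : (a ∈ (L1 ++ [e2]).map lam ∨ a = lam s) ∨
              (a ∈ (x :: L2).map lam ∨ a = lam e1) := by
            rw [l1]
            simp only [List.map_append, List.map_cons, List.mem_append, List.mem_cons,
              List.map_nil, List.not_mem_nil, or_false]
            tauto
          rcases hb with hb | hb
          · rcases ha' with ha' | ha'
            · have := hAB a (Or.inl hb) (Or.inr ha')
              rw [this] at hb
              exact hzI hb
            · rw [List.nodup_append] at ndI
              rcases ha' with ha' | ha'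
              · exact ndI.2.2 a ha' a (by simp [hb]) rfl
              · have h5 := ndI.2.1
                rw [List.nodup_cons] at h5
                exact h5.1 (by rw [← ha']; exact hb)
          · rcases ha' with ha' | ha'
            · rw [List.nodup_append] at ndJ
              rcases ha' with ha' | ha'
              · exact ndJ.2.2 a ha' a (by simp [hb]) rfl
              · have h5 := ndJ.2.1
                rw [List.nodup_cons] at h5
                exact h5.1 (by rw [← ha']; exact hb)
            · have := hAB a (Or.inr ha') (Or.inl hb)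
              rw [this] at hb
              exact hzJ hb
      · intro v hv
        rcases List.mem_append.1 hv with hv | hv
        · obtain ⟨d, hd1, hd2⟩ := pA.inner v hv
          exact ⟨d, (c1 d (dA d hd1)).1, hd2⟩
        · obtain ⟨d, hd1, hd2⟩ := pB.inner v hv
          exact ⟨d, (c1 d (dB d hd1)).1, hd2⟩
      · intro d hd
        have hgoal : ∀ v, (v ∈ (x :: L2).map lam ++ lam e1 :: I) ∨
            (v ∈ (L1 ++ [e2]).map lam ++ lam s :: J) ∨ v = lam r ∨ v = lam s →
            v ∈ (L1 ++ x :: L2 ++ [r]).map lam ++ lam s :: (I ++ J) := by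
          intro v hv
          simp only [List.map_append, List.map_cons, List.mem_append, List.mem_cons,
              List.map_nil, List.not_mem_nil, or_false, l1, ← hxe] at hv ⊢
          tauto
        apply hgoal
        rcases c2 d hd with h5 | h5
        · rcases dAB d h5 with h6 | h6
          · exact Or.inl (pA.all d h6)
          · exact Or.inr (Or.inl (pB.all d h6))
        · exact Or.inr (Or.inr h5)
      · intro d hd k1 k2
        rcases c3 d hd k1 k2 with h5 | ⟨h5, h6, h7, h8⟩
        · refine ⟨_, List.mem_cons_self, fun y => ?_⟩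
          rw [h5]
          change _ ↔ (y = lam e2 ∨ y = lam r ∨ y = lam s)
          tauto
        · rw [e3] at h6
          obtain ⟨m1, m2, m3⟩ := dF d h5 h6 k2
          rw [← h8, ← h7, ← m2, ← m1]
          rcases m3 with ⟨m3, m4, m5⟩ | ⟨m3, m4, m5⟩
          · exact (pA.face d m3 m4 m5).mono (fun f hf => by simp [hf])
          · exact (pB.face d m3 m4 m5).mono (fun f hf => by simp [hf])
    · -- insertion
      have nd2 : ((L ++ [e1, e2]).map lam ++ [lam s]).Nodup := by
        have h5 : ((L ++ [e1, e2]).map lam ++ [lam s]).Perm
            (lam e2 :: (L.map lam ++ [lam r, lam s])) := by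
          have : (L ++ [e1, e2]).map lam ++ [lam s] =
              (L.map lam ++ [lam r]) ++ lam e2 :: [lam s] := by simp [l1]
          rw [this]
          refine List.perm_middle.trans ?_
          simp
        rw [h5.nodup_iff, List.nodup_cons]
        refine ⟨?_, hlL⟩
        simp only [List.mem_append, List.mem_cons, List.not_mem_nil, or_false, not_or]
        exact ⟨hz, l2, l3⟩
      obtain ⟨I, F, p⟩ := ih φ2 α2 s (L ++ [e1, e2]) pl2 (by simp) nd2 (hcard _ (fun d hd => hd))
      have dI := p.disc
      have e4 : (L ++ [e1, e2]).map lam = L.map lam ++ [lam r, lam e2] := by simp [l1]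
      rw [e4] at dI
      refine ⟨lam e2 :: I, (lam r, lam e2, lam s) :: F, ?_, ?_, ?_, ?_, ?_⟩
      · rw [List.map_append, List.map_singleton]
        exact Disc.ins dI
      · have h5 := p.nd
        rw [e4] at h5
        have h6 : ((L ++ [r]).map lam ++ lam s :: lam e2 :: I).Perm
            (L.map lam ++ [lam r, lam e2] ++ lam s :: I) := by
          have : (L ++ [r]).map lam ++ lam s :: lam e2 :: I =
              (L.map lam ++ [lam r]) ++ ([lam s] ++ lam e2 :: I) := by simp
          rw [this]
          have : L.map lam ++ [lam r, lam e2] ++ lam s :: I =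
              (L.map lam ++ [lam r]) ++ (lam e2 :: ([lam s] ++ I)) := by simp
          rw [this]
          exact List.Perm.append_left _ List.perm_middle
        rw [h6.nodup_iff]
        exact h5
      · intro v hv
        rcases List.mem_cons.1 hv with rfl | hv
        · exact ⟨e2, (c1 e2 (pl2.run.mem_cs (Or.inl (by simp)))).1, rfl⟩
        · obtain ⟨d, hd1, hd2⟩ := p.inner v hv
          exact ⟨d, (c1 d hd1).1, hd2⟩
      · intro d hd
        have hgoal : ∀ v, (v ∈ (L ++ [e1, e2]).map lam ++ lam s :: I) ∨
            v = lam r ∨ v = lam s →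
            v ∈ (L ++ [r]).map lam ++ lam s :: lam e2 :: I := by
          intro v hv
          simp only [List.map_append, List.map_cons, List.mem_append, List.mem_cons,
              List.map_nil, List.not_mem_nil, or_false, l1] at hv ⊢
          tauto
        apply hgoal
        rcases c2 d hd with h5 | h5
        · exact Or.inl (p.all d h5)
        · exact Or.inr h5
      · intro d hd k1 k2
        rcases c3 d hd k1 k2 with h5 | ⟨h5, h6, h7, h8⟩
        · exact ⟨_, List.mem_cons_self, h5⟩
        · rw [← h8, ← h7]
          exact (p.face d h5 h6 k2).mono (fun f hf => by simp [hf])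

end H71S
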