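import Pool.Agent.Lib.H71S.Join
import Pool.Agent.Lib.H71S.Main

set_option autoImplicit false

/-!
# The theorem for planar graphs
-/

namespace H71S

open Equiv Equiv.Perm
open Pool.Agent.Lib.CookLevin

theorem Tg.map {D V V' : Type} {φ α : Perm D} {lam : D → V} (h : Tg φ α lam) (f : V → V')
    (hf : Function.Injective f) : Tg φ α (fun d => f (lam d)) := by
  refine ⟨⟨h.lm.inv, h.lm.g0, ?_, h.lm.dead, ?_⟩, ?_, h.tri⟩
  · exact fun d => congrArg f (h.lm.vert d)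
  · exact fun a b ha hb hab => h.lm.dist a b ha hb (hf hab)
  · exact fun d hd hc => h.loop d hd (hf hc)

theorem Disc.mem_face {V : Type} {P : List V} {y : V} {I : List V} {F : List (V × V × V)}
    (h : Disc P y I F) : ∀ z ∈ I, ∃ f ∈ F, z = f.1 ∨ z = f.2.1 ∨ z = f.2.2 := by
  induction h with
  | nil x y => intro z hz; simp at hz
  | @ins P a z y I F h ih =>
    intro w hw
    rcases List.mem_cons.1 hw with rfl | hw
    · exact ⟨_, List.mem_cons_self, Or.inr (Or.inl rfl)⟩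
    · obtain ⟨f, hf, h1⟩ := ih w hw
      exact ⟨f, List.mem_cons_of_mem _ hf, h1⟩
  | @cut P Q b c y I J F G h1 h2 ih1 ih2 =>
    intro w hw
    rcases List.mem_append.1 hw with hw | hw
    · obtain ⟨f, hf, h3⟩ := ih1 w hw
      exact ⟨f, by simp [hf], h3⟩
    · obtain ⟨f, hf, h3⟩ := ih2 w hw
      exact ⟨f, by simp [hf], h3⟩

theorem side_of_mem {V : Type} {u v : V} {F : List (V × V × V)} {f : V × V × V} (hf : f ∈ F)
    {x y : V} (hx : x = f.1 ∨ x = f.2.1 ∨ x = f.2.2) (hy : y = f.1 ∨ y = f.2.1 ∨ y = f.2.2)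
    (hxy : x ≠ y) : Side u v F x y ∨ Side u v F y x := by
  rcases hx with hx | hx | hx <;> rcases hy with hy | hy | hy
  · exact absurd (hx.trans hy.symm) hxy
  · exact Or.inl (Or.inr ⟨f, hf, Or.inl ⟨hx, hy⟩⟩)
  · exact Or.inl (Or.inr ⟨f, hf, Or.inr (Or.inr ⟨hx, hy⟩)⟩)
  · exact Or.inr (Or.inr ⟨f, hf, Or.inl ⟨hy, hx⟩⟩)
  · exact absurd (hx.trans hy.symm) hxy
  · exact Or.inl (Or.inr ⟨f, hf, Or.inr (Or.inl ⟨hx, hy⟩)⟩)
  · exact Or.inr (Or.inr ⟨f, hf, Or.inr (Or.inr ⟨hy, hx⟩)⟩)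
  · exact Or.inr (Or.inr ⟨f, hf, Or.inr (Or.inl ⟨hy, hx⟩)⟩)
  · exact absurd (hx.trans hy.symm) hxy

theorem side_exists {V : Type} {u v : V} {F : List (V × V × V)} {f : V × V × V} (hf : f ∈ F)
    {x : V} (hx : x = f.1 ∨ x = f.2.1 ∨ x = f.2.2) :
    ∃ a b, Side u v F a b ∧ (x = a ∨ x = b) := by
  rcases hx with hx | hx | hx
  · exact ⟨f.1, f.2.1, Or.inr ⟨f, hf, Or.inl ⟨rfl, rfl⟩⟩, Or.inl hx⟩
  · exact ⟨f.1, f.2.1, Or.inr ⟨f, hf, Or.inl ⟨rfl, rfl⟩⟩, Or.inr hx⟩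
  · exact ⟨f.2.1, f.2.2, Or.inr ⟨f, hf, Or.inr (Or.inl ⟨rfl, rfl⟩)⟩, Or.inr hx⟩

/-- the graph with isolated vertices added -/
def addIso {X Y : Type} (G : SimpleGraph X) : SimpleGraph (X ⊕ Y) where
  Adj a b := ∃ x y, a = Sum.inl x ∧ b = Sum.inl y ∧ G.Adj x y
  symm := ⟨fun _ _ ⟨x, y, ha, hb, h⟩ => ⟨y, x, hb, ha, h.symm⟩⟩
  loopless := ⟨fun a ⟨x, y, ha, hb, h⟩ => h.ne (Sum.inl.inj (ha.symm.trans hb))⟩

theorem addIso_adj {X Y : Type} (G : SimpleGraph X) (x y : X) :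
    (addIso (Y := Y) G).Adj (Sum.inl x) (Sum.inl y) ↔ G.Adj x y := by
  constructor
  · rintro ⟨x', y', h1, h2, h⟩
    rw [Sum.inl.inj h1, Sum.inl.inj h2]
    exact h
  · exact fun h => ⟨x, y, rfl, rfl, h⟩

theorem planar_main {X : Type} [Finite X] (G : SimpleGraph X) (hG : IsPlanar G) (W : Set X)
    (hW : ∀ x ∈ W, ∀ y ∈ W, ¬ G.Adj x y) (p q : X → ℝ)
    (hpq : ∀ x ∉ W, ∀ y ∉ W, cn G W x y → x ≠ y → p x ≠ p y ∧ q x ≠ q y ∧
      (G.Adj x y ↔ (p x < p y ∧ q y < q x) ∨ (p y < p x ∧ q x < q y)))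
    (hatt : ∀ z ∉ W, (∃ a b, ∀ x ∉ W, cn G W z x → ∀ y ∈ W, G.Adj x y → y = a ∨ y = b) ∨
      (∃ a b c, ∀ x ∉ W, cn G W z x → (∀ y ∈ W, ¬ G.Adj x y) ∨
        (∀ y ∈ W, G.Adj x y ↔ y = a ∨ y = b ∨ y = c))) :
    ∃ s : X → (ℝ × ℝ) × (ℝ × ℝ), (∀ v, (s v).1 ≠ (s v).2) ∧
      ∀ u v, u ≠ v → (Gᶜ.Adj u v ↔
        (segment ℝ (s u).1 (s u).2 ∩ segment ℝ (s v).1 (s v).2).Nonempty) := by
  classical
  have := Fintype.ofFinite X
  obtain ⟨R, hR⟩ := hG
  obtain ⟨φ1, α1, rp, hc, hlive⟩ := contract_all W R hR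
  set lam1 : G.Dart → X := fun d => rp d.fst with hlam1
  have rpW : ∀ x, rp x ∈ W ↔ x ∈ W := by
    intro x
    constructor
    · intro h
      by_contra hx
      exact (hc.con x hx).1 h
    · intro h
      rw [hc.fixW x h]; exact h
  have al : ∀ d, α1 d ≠ d → α1 d = d.symm := fun d hd => (hc.sub d).resolve_right hd
  set Nb : X → Set X := fun κ => {y | y ∈ W ∧ κ ∉ W ∧ ∃ x, x ∉ W ∧ rp x = κ ∧ G.Adj x y} with hNb
  have hNb1 : ∀ κ, ∀ y ∈ Nb κ, κ ∉ W := fun κ y hy => hy.2.1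
  have hBi : Bi W Nb φ1 α1 lam1 := by
    refine ⟨hc.lm, ?_, ?_, ?_⟩
    · intro d hd
      rw [al d hd]
      change rp d.fst ∈ W ↔ rp d.snd ∉ W
      rw [rpW, rpW]
      constructor
      · exact fun h1 h2 => hW _ h1 _ h2 d.adj
      · intro h1
        exact (hlive d hd).resolve_right h1
    · intro d hd hdW
      rw [al d hd]
      change rp d.snd ∈ Nb (rp d.fst)
      have h1 : d.fst ∉ W := fun h => hdW ((rpW _).2 h)
      have h2 : d.snd ∈ W := (hlive d hd).resolve_left h1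
      rw [hc.fixW _ h2]
      exact ⟨h2, hdW, d.fst, h1, rfl, d.adj⟩
    · intro κ
      left
      rintro y ⟨hy, hκ, x, hx, hxκ, hxy⟩
      have h1 : α1 ⟨(x, y), hxy⟩ = (⟨(x, y), hxy⟩ : G.Dart).symm := hc.live _ (Or.inr hy)
      refine ⟨⟨(x, y), hxy⟩, ?_, hxκ, ?_⟩
      · rw [h1]; exact SimpleGraph.Dart.symm_ne _
      · rw [h1]
        change rp y = y
        exact hc.fixW y hy
  obtain ⟨φ2, α2, hBi2, P1, P2⟩ := thin W Nb hNb1 lam1 _ φ1 α1 hBi le_rfl
  obtain ⟨φ3, α3, lam3, Mk, h3, two, three⟩ := star W Nb φ2 α2 lam1 hNb1 hBi2 P1 P2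
  -- subdivision
  have hlv : ∀ d, α3 (φ3 d) = φ3 d ↔ α3 d = d := by
    intro d
    constructor
    · intro hd
      have h1 := h3.lm.dead _ hd
      rw [← φ3.injective h1]
      exact hd
    · intro hd
      rw [h3.lm.dead d hd]
      exact hd
  have hmk : ∀ d, φ3 d ∈ Mk ↔ d ∈ Mk := by
    intro d
    constructor
    · intro hd
      obtain ⟨h1, h2, -⟩ := h3.mark _ hd
      obtain ⟨h4, -, -⟩ := h3.mark _ h1
      rwa [φ3.injective h2] at h4
    · exact fun hd => (h3.mark d hd).1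
  obtain ⟨F, A, L, hTg, hA0, hL0, hA1, hF0, hLab⟩ := stel φ3 α3 lam3
    (fun d => α3 d ≠ d ∧ d ∉ Mk) h3.lm h3.loop
    (fun d => by
      change (α3 (φ3 d) ≠ φ3 d ∧ φ3 d ∉ Mk) ↔ (α3 d ≠ d ∧ d ∉ Mk)
      rw [ne_eq, hlv, hmk])
    (fun d hd => hd.1)
    (fun d hd hn => by
      have : d ∈ Mk := by
        by_contra hcc
        exact hn ⟨hd, hcc⟩
      exact (h3.mark d this).2.1)
  -- the label type
  let Q := Quotient (SameCycle.setoid φ3)
  have : Finite Q := Quotient.finite _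
  let ι : X ⊕ Q → X ⊕ (Q ⊕ Bool) := Sum.map id Sum.inl
  have hι : Function.Injective ι := Function.injective_id.sumMap Sum.inl_injective
  have hTg' := hTg.map ι hι
  let S : Set (X ⊕ (Q ⊕ Bool)) := {x | ∀ w, x = Sum.inl w → w ∈ W}
  obtain ⟨I, Fc, hD, hnd, hmem, htri⟩ := hTg'.all S (Set.toFinite _)
    (u0 := Sum.inr (Sum.inr false)) (v0 := Sum.inr (Sum.inr true)) (by simp)
    (by intro w hw; cases hw) (by intro w hw; cases hw) (by
      intro d hd
      rcases hLab d hd with ⟨e, he, h5⟩ | ⟨q', h5⟩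
      · change ι (L d) ∈ S ∧ ι (L d) ≠ _ ∧ ι (L d) ≠ _
        rw [h5]
        refine ⟨?_, ?_, ?_⟩
        · intro w hw
          have : lam3 e = w := Sum.inl.inj hw
          rw [← this]
          exact h3.lab e he
        · intro hcc; cases hcc
        · intro hcc; cases hcc
      · change ι (L d) ∈ S ∧ ι (L d) ≠ _ ∧ ι (L d) ≠ _
        rw [h5]
        refine ⟨?_, ?_, ?_⟩
        · intro w hw; cases hw
        · intro hcc; cases (Sum.inr.inj hcc)
        · intro hcc; cases (Sum.inr.inj hcc))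
  -- membership
  have memS : ∀ x : X, (Sum.inl x : X ⊕ (Q ⊕ Bool)) ∈ S ↔ x ∈ W := by
    intro x
    constructor
    · exact fun h => h x rfl
    · intro hx w hw
      rw [← Sum.inl.inj hw]; exact hx
  have memS' : ∀ z : Q ⊕ Bool, (Sum.inr z : X ⊕ (Q ⊕ Bool)) ∈ S := by
    intro z w hw
    cases hw
  have notS : ∀ x : X ⊕ (Q ⊕ Bool), x ∉ S → ∃ w, x = Sum.inl w ∧ w ∉ W := by
    rintro (x | z) hx
    · exact ⟨x, rfl, fun h => hx ((memS x).2 h)⟩
    · exact absurd (memS' z) hx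
  -- connectedness
  have hadjrp : ∀ x ∉ W, ∀ y ∉ W, G.Adj x y → rp x = rp y := by
    intro x hx y hy hxy
    have h1 : α1 ⟨(x, y), hxy⟩ = ⟨(x, y), hxy⟩ := by
      by_contra hcc
      rcases hlive _ hcc with h2 | h2
      · exact hx h2
      · exact hy h2
    exact hc.dead ⟨(x, y), hxy⟩ hx hy h1
  have hcnrp : ∀ x y, cn G W x y → rp x = rp y := by
    intro x y hxy
    induction hxy with
    | rel a b h => exact hadjrp a h.1 b h.2.1 h.2.2
    | refl a => rfl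
    | symm a b _ ih => exact ih.symm
    | trans a b c _ _ ih1 ih2 => exact ih1.trans ih2
  have hrpcn : ∀ x ∉ W, ∀ y ∉ W, rp x = rp y → cn G W x y := by
    intro x hx y hy hxy
    refine (cn G W).trans (hc.con x hx).2 ?_
    rw [hxy]
    exact (cn G W).symm (hc.con y hy).2
  obtain ⟨n, ⟨e⟩⟩ := Finite.exists_equiv_fin X
  let κ : X ⊕ (Q ⊕ Bool) → ℕ := Sum.elim (fun x => (e (rp x)).val) (fun _ => 0)
  have hκ : ∀ x y : X, κ (Sum.inl x) = κ (Sum.inl y) → rp x = rp y := by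
    intro x y hxy
    exact e.injective (Fin.ext hxy)
  let G' : SimpleGraph (X ⊕ (Q ⊕ Bool)) := addIso G
  have hG' : ∀ x y : X, G'.Adj (Sum.inl x) (Sum.inl y) ↔ G.Adj x y := addIso_adj G
  -- faces of the triangulation
  have hL0' : ∀ d, ι (L (d, 0)) = Sum.inl (lam3 d) := fun d => by rw [hL0]; rfl
  have pairSide : ∀ a b : X, a ≠ b → (∃ d, α3 d ≠ d ∧ lam3 d = a ∧ lam3 (α3 d) = b) →
      Side (Sum.inr (Sum.inr false)) (Sum.inr (Sum.inr true)) Fc
        (Sum.inl a : X ⊕ (Q ⊕ Bool)) (Sum.inl b) ∨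
      Side (Sum.inr (Sum.inr false)) (Sum.inr (Sum.inr true)) Fc
        (Sum.inl b : X ⊕ (Q ⊕ Bool)) (Sum.inl a) := by
    rintro a b hab ⟨d, hd, hda, hdb⟩
    obtain ⟨f, hf, hx⟩ := htri (d, 0) (hA0 d hd)
    have h1 : ι (L (F (d, 0))) = Sum.inl b := by
      have := hTg'.head (d, 0)
      rw [this, hA1, hL0', hdb]
    have h2 : ι (L (d, 0)) = Sum.inl a := by rw [hL0', hda]
    refine side_of_mem hf ((hx _).1 (Or.inl ?_)) ((hx _).1 (Or.inr (Or.inl ?_))) ?_
    · exact h2.symm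
    · exact h1.symm
    · exact fun hcc => hab (Sum.inl.inj hcc)
  have hNb2 : ∀ z ∉ W, ∀ x ∉ W, cn G W z x → ∀ y ∈ W, G.Adj x y → y ∈ Nb (rp z) := by
    intro z hz x hx hzx y hy hxy
    exact ⟨hy, (hc.con z hz).1, x, hx, (hcnrp z x hzx).symm, hxy⟩
  have hNb3 : ∀ z ∉ W, ∀ y ∈ Nb (rp z), y ∈ W ∧ ∃ x, x ∉ W ∧ cn G W z x ∧ G.Adj x y := by
    rintro z hz y ⟨hy, -, x, hx, hxz, hxy⟩
    exact ⟨hy, x, hx, hrpcn z hz x hx hxz.symm, hxy⟩
  have hatt' : ∀ k : ℕ, (∃ a b, Side (Sum.inr (Sum.inr false)) (Sum.inr (Sum.inr true)) Fc a b ∧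
        ∀ x ∉ S, κ x = k → ∀ y ∈ S, G'.Adj x y → y = a ∨ y = b) ∨
      (∃ f ∈ Fc, ∀ x ∉ S, κ x = k → (∀ y ∈ S, ¬ G'.Adj x y) ∨
        (∀ y ∈ S, G'.Adj x y ↔ y = f.1 ∨ y = f.2.1 ∨ y = f.2.2)) := by
    intro k
    have hside0 : Side (Sum.inr (Sum.inr false)) (Sum.inr (Sum.inr true)) Fc
        (Sum.inr (Sum.inr false) : X ⊕ (Q ⊕ Bool)) (Sum.inr (Sum.inr true)) :=
      Or.inl ⟨rfl, rfl⟩
    by_cases hk : ∃ z, z ∉ W ∧ κ (Sum.inl z) = k
    · obtain ⟨z, hz, rfl⟩ := hk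
      -- elements of the block
      have hblk : ∀ x ∉ S, κ x = κ (Sum.inl z) → ∃ x0, x = Sum.inl x0 ∧ x0 ∉ W ∧
          cn G W z x0 := by
        intro x hx hxk
        obtain ⟨w, rfl, hw⟩ := notS x hx
        exact ⟨w, rfl, hw, hrpcn z hz w hw (hκ w z hxk).symm⟩
      have hadj' : ∀ x0 : X, ∀ y, G'.Adj (Sum.inl x0) y → ∃ y0, y = Sum.inl y0 ∧ G.Adj x0 y0 := by
        rintro x0 y ⟨a, b, h1, h2, h4⟩
        exact ⟨b, h2, by rw [Sum.inl.inj h1]; exact h4⟩
      -- at most two attachments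
      have hpair : ∀ a b : X, a ∈ Nb (rp z) → b ∈ Nb (rp z) → a ≠ b →
          (∀ y ∈ Nb (rp z), y = a ∨ y = b) →
          (∃ a b, Side (Sum.inr (Sum.inr false)) (Sum.inr (Sum.inr true)) Fc a b ∧
            ∀ x ∉ S, κ x = κ (Sum.inl z) → ∀ y ∈ S, G'.Adj x y → y = a ∨ y = b) := by
        intro a b ha hb hab hall
        have hmain : ∀ x ∉ S, κ x = κ (Sum.inl z) → ∀ y ∈ S, G'.Adj x y →
            y = Sum.inl a ∨ y = Sum.inl b := by
          intro x hx hxk y hy hxy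
          obtain ⟨x0, rfl, hx0, hzx⟩ := hblk x hx hxk
          obtain ⟨y0, rfl, hxy0⟩ := hadj' x0 y hxy
          rcases hall y0 (hNb2 z hz x0 hx0 hzx y0 ((memS y0).1 hy) hxy0) with h | h
          · exact Or.inl (by rw [h])
          · exact Or.inr (by rw [h])
        rcases pairSide a b hab (two (rp z) a ha b hb hab hall) with h | h
        · exact ⟨_, _, h, hmain⟩
        · exact ⟨_, _, h, fun x hx hxk y hy hxy => (hmain x hx hxk y hy hxy).symm⟩
      by_cases hsub : ∀ y ∈ Nb (rp z), ∀ y' ∈ Nb (rp z), y = y'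
      · left
        by_cases hemp : ∃ y0, y0 ∈ Nb (rp z)
        · obtain ⟨y0, hy0⟩ := hemp
          have h1 : (Sum.inl y0 : X ⊕ (Q ⊕ Bool)) ∈
              Sum.inr (Sum.inr false) :: Sum.inr (Sum.inr true) :: I :=
            (hmem _).2 ((memS y0).2 (hNb3 z hz y0 hy0).1)
          have h2 : (Sum.inl y0 : X ⊕ (Q ⊕ Bool)) ∈ I := by simpa using h1
          obtain ⟨f, hf, h3⟩ := hD.mem_face _ h2
          obtain ⟨a, b, hab, h4⟩ := side_exists (u := Sum.inr (Sum.inr false))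
            (v := Sum.inr (Sum.inr true)) hf h3
          refine ⟨a, b, hab, ?_⟩
          intro x hx hxk y hy hxy
          obtain ⟨x0, rfl, hx0, hzx⟩ := hblk x hx hxk
          obtain ⟨y1, rfl, hxy0⟩ := hadj' x0 y hxy
          rw [hsub y1 (hNb2 z hz x0 hx0 hzx y1 ((memS y1).1 hy) hxy0) y0 hy0]
          exact h4
        · refine ⟨_, _, hside0, ?_⟩
          intro x hx hxk y hy hxy
          obtain ⟨x0, rfl, hx0, hzx⟩ := hblk x hx hxk
          obtain ⟨y1, rfl, hxy0⟩ := hadj' x0 y hxy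
          exact absurd ⟨y1, hNb2 z hz x0 hx0 hzx y1 ((memS y1).1 hy) hxy0⟩ hemp
      · push Not at hsub
        obtain ⟨a, ha, b, hb, hab⟩ := hsub
        by_cases hall : ∀ y ∈ Nb (rp z), y = a ∨ y = b
        · exact Or.inl (hpair a b ha hb hab hall)
        · push Not at hall
          obtain ⟨c, hcN, hca, hcb⟩ := hall
          rcases hatt z hz with ⟨a0, b0, h0⟩ | ⟨a0, b0, c0, h0⟩
          · exfalso
            have h1 : ∀ y ∈ Nb (rp z), y = a0 ∨ y = b0 := by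
              intro y hy
              obtain ⟨hyW, x, hx, hzx, hxy⟩ := hNb3 z hz y hy
              exact h0 x hx hzx y hyW hxy
            rcases h1 a ha with h2 | h2 <;> rcases h1 b hb with h4 | h4 <;>
              rcases h1 c hcN with h5 | h5
            · exact hab (h2.trans h4.symm)
            · exact hab (h2.trans h4.symm)
            · exact hca (h5.trans h2.symm)
            · exact hcb (h5.trans h4.symm)
            · exact hcb (h5.trans h4.symm)
            · exact hca (h5.trans h2.symm)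
            · exact hab (h2.trans h4.symm)
            · exact hab (h2.trans h4.symm)
          · right
            have h1 : ∀ y ∈ Nb (rp z), y = a0 ∨ y = b0 ∨ y = c0 := by
              intro y hy
              obtain ⟨hyW, x, hx, hzx, hxy⟩ := hNb3 z hz y hy
              rcases h0 x hx hzx with h2 | h2
              · exact absurd hxy (h2 y hyW)
              · exact (h2 y hyW).1 hxy
            have hset : ∀ y, (y = a0 ∨ y = b0 ∨ y = c0) ↔ (y = a ∨ y = b ∨ y = c) := by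
              have ga := h1 a ha
              have gb := h1 b hb
              have gc := h1 c hcN
              intro y
              rcases ga with ga | ga | ga <;> rcases gb with gb | gb | gb <;>
                rcases gc with gc | gc | gc <;> subst_vars <;>
                first
                | exact absurd rfl hab
                | exact absurd rfl hca
                | exact absurd rfl hcb
                | tauto
            have hall3 : ∀ y ∈ Nb (rp z), y = a ∨ y = b ∨ y = c := fun y hy =>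
              (hset y).1 (h1 y hy)
            obtain ⟨d, hdM, hd⟩ := three (rp z) a ha b hb c hcN hab (Ne.symm hca) (Ne.symm hcb)
              hall3
            obtain ⟨m1, m2, m3⟩ := h3.mark d hdM
            obtain ⟨f, hf, hx⟩ := htri (d, 0) (hA0 d m3)
            have e1 : F (d, 0) = (φ3 d, 0) := hF0 d (fun h => h.2 hdM)
            have e2 : F (φ3 d, 0) = (φ3 (φ3 d), 0) := hF0 _ (fun h => h.2 m1)
            rw [e1, e2, hL0', hL0', hL0'] at hx
            have hfx : ∀ y0 : X, ((Sum.inl y0 : X ⊕ (Q ⊕ Bool)) = f.1 ∨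
                (Sum.inl y0 : X ⊕ (Q ⊕ Bool)) = f.2.1 ∨
                (Sum.inl y0 : X ⊕ (Q ⊕ Bool)) = f.2.2) ↔ (y0 = a0 ∨ y0 = b0 ∨ y0 = c0) := by
              intro y0
              rw [← hx, hset, hd y0]
              simp only [Sum.inl.injEq]
            refine ⟨f, hf, ?_⟩
            intro x hxS hxk
            obtain ⟨x0, rfl, hx0, hzx⟩ := hblk x hxS hxk
            rcases h0 x0 hx0 hzx with h4 | h4
            · left
              intro y hy hxy
              obtain ⟨y0, rfl, hxy0⟩ := hadj' x0 y hxy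
              exact h4 y0 ((memS y0).1 hy) hxy0
            · right
              rintro (y0 | y0) hy
              · rw [hG', hfx]
                exact h4 y0 ((memS y0).1 hy)
              · constructor
                · intro hxy
                  obtain ⟨y1, hy1, -⟩ := hadj' x0 _ hxy
                  cases hy1
                · intro hxy
                  have := (hx _).2 hxy
                  rcases this with h5 | h5 | h5 <;> cases h5
    · left
      refine ⟨_, _, hside0, ?_⟩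
      intro x hx hxk
      obtain ⟨w, rfl, hw⟩ := notS x hx
      exact absurd ⟨w, hw, hxk⟩ hk
  have hW' : ∀ x ∈ S, ∀ y ∈ S, ¬ G'.Adj x y := by
    rintro x hx y hy ⟨x0, y0, rfl, rfl, h⟩
    exact hW x0 ((memS x0).1 hx) y0 ((memS y0).1 hy) h
  have hκ' : ∀ x ∉ S, ∀ y ∉ S, G'.Adj x y → κ x = κ y := by
    rintro x hx y hy ⟨x0, y0, rfl, rfl, h⟩
    have hx0 : x0 ∉ W := fun h => hx ((memS x0).2 h)
    have hy0 : y0 ∉ W := fun h => hy ((memS y0).2 h)
    change (e (rp x0)).val = (e (rp y0)).val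
    rw [hadjrp x0 hx0 y0 hy0 h]
  let p' : X ⊕ (Q ⊕ Bool) → ℝ := Sum.elim p (fun _ => 0)
  let q' : X ⊕ (Q ⊕ Bool) → ℝ := Sum.elim q (fun _ => 0)
  have hpq' : ∀ x ∉ S, ∀ y ∉ S, κ x = κ y → x ≠ y → p' x ≠ p' y ∧ q' x ≠ q' y ∧
      (G'.Adj x y ↔ (p' x < p' y ∧ q' y < q' x) ∨ (p' y < p' x ∧ q' x < q' y)) := by
    intro x hx y hy hxy hne
    obtain ⟨x0, rfl, hx0⟩ := notS x hx
    obtain ⟨y0, rfl, hy0⟩ := notS y hy
    have h1 := hpq x0 hx0 y0 hy0 (hrpcn x0 hx0 y0 hy0 (hκ x0 y0 hxy))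
      (fun h => hne (by rw [h]))
    rw [hG']
    exact h1
  obtain ⟨s, hs1, hs2⟩ := main_disc G' S hW' hD hnd (fun x => (hmem x).symm) κ p' q' hκ' hpq'
    hatt'
  refine ⟨fun x => s (Sum.inl x), fun x => hs1 _, ?_⟩
  intro u v huv
  have h1 := hs2 (Sum.inl u) (Sum.inl v) (fun h => huv (Sum.inl.inj h))
  rw [← h1, SimpleGraph.compl_adj, SimpleGraph.compl_adj, hG']
  constructor
  · rintro ⟨h2, h4⟩
    exact ⟨fun h => h2 (Sum.inl.inj h), h4⟩
  · rintro ⟨h2, h4⟩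
    exact ⟨huv, h4⟩

end H71S
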