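import Pool.Agent.Lib.H71S.Conf

set_option autoImplicit false

namespace H71S

variable {V : Type}

theorem consec_append {L M : List V} {a b : V} (h : Consec L a b) : Consec (L ++ M) a b := by
  obtain ⟨X, Y, rfl⟩ := h
  exact ⟨X, Y ++ M, by simp⟩

theorem prepend_consec {L M : List V} {a b : V} (h : Consec L a b) : Consec (M ++ L) a b := by
  obtain ⟨X, Y, rfl⟩ := h
  exact ⟨M ++ X, Y, by simp⟩

/-- first part of the rem case: the child call -/
theorem rem_start {P : List V} {a b y : V} {I : List V} {l r : V → ℝ} {a0 b0 a1 b1 : ℝ}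
    (h : Start l r (P ++ [a, b]) y I a0 b0 a1 b1) :
    ∃ s1 s2 a0' b0', a0 < s1 ∧ s1 < a0' ∧ a0' < a1 ∧ b0 < s2 ∧ s2 < r b ∧ r b < b0' ∧
      b0' < b1 ∧ Start l r (P ++ [a]) y I a0' b0' a1 b1 := by
  have e1 : P ++ [a, b] = (P ++ [a]) ++ [b] := by simp
  have hm := h.mono
  rw [e1] at hm
  rw [List.pairwise_append] at hm
  obtain ⟨hm1, _, hm2⟩ := hm
  have hm3 : ∀ p ∈ P ++ [a], r b < r p := fun p hp => (hm2 p hp b (by simp)).2
  have hm4 : ∀ p ∈ P ++ [a], p ≠ a → r a < r p := by
    intro p hp hpa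
    rw [List.pairwise_append] at hm1
    have hp' : p ∈ P := by
      simp at hp
      rcases hp with hp | hp
      · exact hp
      · exact absurd hp hpa
    exact (hm1.2.2 p hp' a (by simp)).2
  -- r b < b1
  have hb1 : r b < b1 := by
    cases P with
    | nil => exact (h.head a [b] rfl).2 b (by simp)
    | cons p P => exact (h.head p (P ++ [a, b]) rfl).2 b (by simp)
  have hab : r b < r a := hm3 a (by simp)
  have hb0 : b0 < r b := h.rP b (by simp)
  have ha := h.ha
  have hmin : r b < min (r a) b1 := lt_min hab hb1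
  obtain ⟨b0', h1, h2⟩ := exists_between hmin
  have h3 : b0' < r a := h2.trans_le (min_le_left _ _)
  have h4 : b0' < b1 := h2.trans_le (min_le_right _ _)
  obtain ⟨s1, h5, h6⟩ := exists_between ha
  obtain ⟨a0', h7, h8⟩ := exists_between h6
  obtain ⟨s2, h9, h10⟩ := exists_between hb0
  refine ⟨s1, s2, a0', b0', h5, h7, h8, h9, h10, h1, h4, ?_⟩
  refine ⟨?_, h8, h4, ?_, ?_, ?_, ?_, h.ry, h.zy, hm1, ?_⟩
  · refine h.nd.sublist ?_
    apply List.Sublist.append_right
    apply List.Sublist.append_left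
    simp
  · intro p hp
    have := h.lP p (by simp at hp ⊢; tauto)
    linarith
  · intro p hp
    by_cases hpa : p = a
    · rw [hpa]; exact h3
    · exact h3.trans (hm4 p hp hpa)
  · intro p hp
    have := h.zP p (by simp at hp ⊢; tauto)
    linarith
  · have := h.ly
    linarith
  · intro p P' hP
    have := h.head p (P' ++ [b]) (by rw [e1, hP]; simp)
    exact ⟨this.1, fun q hq => this.2 q (by simp [hq])⟩

theorem rem_out {P : List V} {a b y : V} {I : List V} {F : List (V × V × V)}
    {l r : V → ℝ} {a0 b0 a1 b1 : ℝ}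
    (h : Start l r (P ++ [a, b]) y I a0 b0 a1 b1) {s1 s2 a0' b0' : ℝ} (h1 : a0 < s1)
    (h2 : s1 < a0') (h3 : a0' < a1) (h4 : b0 < s2) (h5 : s2 < r b) (h6 : r b < b0')
    (h7 : b0' < b1) {S : Set (ℝ × ℝ)} (ho : Out l r (P ++ [a]) y I F a0' b0' a1 b1 S) :
    Out l r (P ++ [a, b]) y I ((a, b, y) :: F) a0 b0 a1 b1 ({(s1, s2)} ∪ S) := by
  have e1 : P ++ [a, b] = (P ++ [a]) ++ [b] := by simp
  have hm := h.mono
  rw [e1, List.pairwise_append] at hm
  obtain ⟨hm1, _, hm2⟩ := hm
  have hzb : ∀ p ∈ P ++ [a], l p + r p < l b + r b := fun p hp => (hm2 p hp b (by simp)).1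
  have hrb : ∀ p ∈ P ++ [a], r b < r p := fun p hp => (hm2 p hp b (by simp)).2
  rw [List.pairwise_append] at hm1
  have hza : ∀ p ∈ P, l p + r p < l a + r a := fun p hp => (hm1.2.2 p hp a (by simp)).1
  have hzb0 : l b + r b < a0 + b0 := h.zP b (by simp)
  have hlb : l b < a0 := h.lP b (by simp)
  have hy1 := h.ly
  have hy2 := h.ry
  have hy3 := h.zy
  have ha1 : l a < a0 := h.lP a (by simp)
  have hra : r b < r a := hrb a (by simp)
  have hzab : l a + r a < l b + r b := hzb a (by simp)
  -- lifting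
  have hsub : ∀ w ∈ (P ++ [a]) ++ y :: I, w ∈ (P ++ [a, b]) ++ y :: I := by
    intro w hw; simp at hw ⊢; tauto
  have hout : ∀ s ∈ S, ∀ w ∈ (P ++ [a, b]) ++ y :: I, w ∈ (P ++ [a]) ++ y :: I ∨
      OutS ((P ++ [a]) ++ y :: I) l r s w := by
    intro s hs w hw
    by_cases hwb : w = b
    · right; left
      rintro ⟨_, h8⟩
      have := (ho.sbox s hs).2.2.1
      rw [hwb] at h8
      linarith
    · left
      simp at hw ⊢; tauto
  have hST : ∀ s ∈ S, s ∈ ({(s1, s2)} ∪ S : Set (ℝ × ℝ)) := fun s hs => Or.inr hs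
  have hs0 : ((s1, s2) : ℝ × ℝ) ∈ ({(s1, s2)} ∪ S : Set (ℝ × ℝ)) := Or.inl rfl
  -- activity at the slot
  have hactP : ∀ p ∈ P ++ [a, b], Act l r (s1, s2) p := by
    intro p hp
    have h8 := h.lP p hp
    refine ⟨by simp only; linarith, ?_⟩
    rw [e1] at hp
    rcases List.mem_append.1 hp with hp | hp
    · have := hrb p hp; simp only; linarith
    · simp at hp; rw [hp]; exact h5
  have hacty : Act l r (s1, s2) y := ⟨by simp only; linarith, by simp only; linarith⟩
  have hnI : ∀ w ∈ I, ¬ Act l r (s1, s2) w := by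
    rintro w hw ⟨h8, _⟩
    have := (ho.box w hw).1
    simp only at h8
    linarith
  have hpairb : PairS ((P ++ [a, b]) ++ y :: I) l r (s1, s2) b y := by
    refine ⟨by simp, by simp, hactP b (by simp), hacty, by simp only; linarith,
      by simp only; linarith, ?_⟩
    intro w hw hwb hwy hact
    have : w ∈ P ++ [a] := by
      have : w ∉ I := fun hc => hnI w hc hact
      simp at hw ⊢; tauto
    exact Or.inl (hzb w this)
  have hface : FaceS ((P ++ [a, b]) ++ y :: I) l r (s1, s2) a b y := by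
    refine ⟨by simp, by simp, by simp, hactP a (by simp), hactP b (by simp), hacty, ?_⟩
    intro w hw hwa hwb hwy hact
    have hwP : w ∈ P := by
      have : w ∉ I := fun hc => hnI w hc hact
      simp at hw ⊢; tauto
    have h8 := hza w hwP
    left
    refine ⟨by simp only; linarith, h8, by linarith, by linarith⟩
  have hPP : ∀ c d, PP ((P ++ [a]) ++ y :: I) l r S (P ++ [a]) c d →
      PP ((P ++ [a, b]) ++ y :: I) l r ({(s1, s2)} ∪ S) (P ++ [a, b]) c d := by
    intro c d hcd
    refine hcd.lift hST hsub hout fun hc => Or.inl ?_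
    rw [e1]
    exact consec_append hc
  refine ⟨?_, ho.inj, ?_, ?_, ?_, ?_, ?_, ?_, ?_, ?_, ?_⟩
  · intro w hw
    obtain ⟨h8, h9, h10, h11⟩ := ho.box w hw
    exact ⟨by linarith, h9, by linarith, h11⟩
  · rintro s (rfl | hs)
    · exact ⟨h1, by simp only; linarith, h4, by simp only; linarith⟩
    · obtain ⟨h8, h9, h10, h11⟩ := ho.sbox s hs
      exact ⟨by linarith, h9, by linarith, h11⟩
  · refine (Chain.singleton _).union ho.chain ?_
    rintro s rfl t ht
    obtain ⟨h8, h9, h10, h11⟩ := ho.sbox t ht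
    exact ⟨by simp only; linarith, by simp only; linarith⟩
  · rintro s (rfl | hs) w hw
    · by_cases hwI : w ∈ I
      · obtain ⟨h8, h9, h10, h11⟩ := ho.box w hwI
        exact ⟨Or.inr (Or.inl ⟨by simp only; linarith, by simp only; linarith⟩),
          by simp only; intro hc; linarith⟩
      · by_cases hwy : w = y
        · rw [hwy]
          exact ⟨Or.inl hacty, by simp only; intro hc; linarith⟩
        · have hwP : w ∈ P ++ [a, b] := by
            simp at hw ⊢; tauto
          have := h.zP w hwP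
          exact ⟨Or.inl (hactP w hwP), by simp only; intro hc; linarith⟩
    · by_cases hwb : w = b
      · rw [hwb]
        obtain ⟨h8, h9, h10, h11⟩ := ho.sbox s hs
        exact ⟨Or.inr (Or.inr ⟨by linarith, by linarith⟩), by intro hc; linarith⟩
      · refine ho.good s hs w ?_
        simp at hw ⊢; tauto
  · intro R c hR
    have : c = b := by
      rw [e1] at hR
      have := List.append_inj' hR rfl
      simpa using this.2.symm
    subst this
    exact ⟨_, hs0, hpairb⟩
  · intro c R hR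
    obtain ⟨R', hR'⟩ : ∃ R', P ++ [a] = c :: R' := by
      cases P with
      | nil =>
        simp at hR
        exact ⟨[], by simp [hR.1]⟩
      | cons p P =>
        simp at hR
        exact ⟨P ++ [a], by simp [hR.1]⟩
    obtain ⟨s, hs, h8⟩ := ho.hd c R' hR'
    exact ⟨s, Or.inr hs, h8.lift hsub (hout s hs)⟩
  · intro f hf
    rcases List.mem_cons.1 hf with rfl | hf
    · exact ⟨_, hs0, hface⟩
    · obtain ⟨s, hs, h8⟩ := ho.face f hf
      exact ⟨s, Or.inr hs, h8.lift hsub (hout s hs)⟩
  · intro f hf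
    rcases List.mem_cons.1 hf with rfl | hf
    · exact Or.inl ⟨P, [], by simp⟩
    · exact hPP _ _ (ho.p1 f hf)
  · intro f hf
    rcases List.mem_cons.1 hf with rfl | hf
    · exact Or.inr ⟨_, hs0, hpairb⟩
    · exact hPP _ _ (ho.p2 f hf)
  · intro f hf
    rcases List.mem_cons.1 hf with rfl | hf
    · obtain ⟨s, hs, h8⟩ := ho.last P a rfl
      exact Or.inr ⟨s, Or.inr hs, h8.lift hsub (hout s hs)⟩
    · exact hPP _ _ (ho.p3 f hf)

end H71S
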