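import Pool.Agent.Lib.H71S.Ops

set_option autoImplicit false

/-!
# Face walks, deletion of an edge, splitting of a vertex
-/

namespace H71S

open Equiv Equiv.Perm

variable {D V : Type}

/-- `Run φ a l b`: starting from `a`, the permutation `φ` runs through `l` and then comes to `b` -/
def Run (φ : Perm D) : D → List D → D → Prop
  | a, [], b => φ a = b
  | a, c :: l, b => φ a = c ∧ Run φ c l b

theorem Run.append {φ : Perm D} {a b c : D} {l1 l2 : List D} :
    Run φ a (l1 ++ c :: l2) b ↔ Run φ a l1 c ∧ Run φ c l2 b := by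
  induction l1 generalizing a with
  | nil => exact Iff.rfl
  | cons x l ih =>
    simp only [List.cons_append, Run, ih, and_assoc]

/-- each element of the run, and its end, has a predecessor -/
theorem Run.pred {φ : Perm D} {a b : D} {l : List D} (h : Run φ a l b) :
    ∀ y, y ∈ l ∨ y = b → ∃ x, (x = a ∨ x ∈ l) ∧ φ x = y := by
  induction l generalizing a with
  | nil =>
    rintro y (hy | rfl)
    · simp at hy
    · exact ⟨a, Or.inl rfl, h⟩
  | cons c l ih =>
    rintro y hy
    obtain ⟨h1, h2⟩ := h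
    by_cases hc : y = c
    · exact ⟨a, Or.inl rfl, by rw [hc]; exact h1⟩
    · obtain ⟨x, hx, hx2⟩ := ih h2 y (by
        rcases hy with hy | hy
        · rcases List.mem_cons.1 hy with hy | hy
          · exact absurd hy hc
          · exact Or.inl hy
        · exact Or.inr hy)
      refine ⟨x, ?_, hx2⟩
      right
      rcases hx with rfl | hx
      · exact List.mem_cons_self
      · exact List.mem_cons_of_mem _ hx

theorem Run.same {φ : Perm D} {a b : D} {l : List D} (h : Run φ a l b) :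
    ∀ y, y ∈ l ∨ y = b → SameCycle φ a y := by
  induction l generalizing a with
  | nil =>
    rintro y (hy | rfl)
    · simp at hy
    · exact ⟨1, by rw [zpow_one]; exact h⟩
  | cons c l ih =>
    rintro y hy
    obtain ⟨h1, h2⟩ := h
    have h3 : SameCycle φ a c := ⟨1, by simpa using h1⟩
    by_cases hc : y = c
    · rw [hc]; exact h3
    · refine h3.trans (ih h2 y ?_)
      rcases hy with hy | hy
      · rcases List.mem_cons.1 hy with hy | hy
        · exact absurd hy hc
        · exact Or.inl hy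
      · exact Or.inr hy

theorem Run.replace {φ ψ : Perm D} {a b c : D} {l : List D} (h : Run φ a l b) (hb : b ∉ l)
    (h1 : ∀ x, (x = a ∨ x ∈ l) → φ x ≠ b → ψ x = φ x)
    (h2 : ∀ x, (x = a ∨ x ∈ l) → φ x = b → ψ x = c) : Run ψ a l c := by
  induction l generalizing a with
  | nil => exact h2 a (Or.inl rfl) h
  | cons d l ih =>
    obtain ⟨h3, h4⟩ := h
    have hdb : d ≠ b := fun hc => hb (by simp [hc])
    refine ⟨?_, ?_⟩
    · rw [h1 a (Or.inl rfl) (by rw [h3]; exact hdb)]; exact h3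
    · refine ih h4 (fun hc => hb (by simp [hc])) ?_ ?_
      · rintro x (rfl | hx)
        · exact h1 x (Or.inr (by simp))
        · exact h1 x (Or.inr (by simp [hx]))
      · rintro x (rfl | hx)
        · exact h2 x (Or.inr (by simp))
        · exact h2 x (Or.inr (by simp [hx]))

theorem Run.congr {φ ψ : Perm D} {a b : D} {l : List D} (h : Run φ a l b)
    (h1 : ∀ x, (x = a ∨ x ∈ l) → ψ x = φ x) : Run ψ a l b := by
  induction l generalizing a with
  | nil => exact (h1 a (Or.inl rfl)).trans h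
  | cons d l ih =>
    obtain ⟨h3, h4⟩ := h
    refine ⟨(h1 a (Or.inl rfl)).trans h3, ih h4 ?_⟩
    rintro x (rfl | hx)
    · exact h1 x (Or.inr (by simp))
    · exact h1 x (Or.inr (by simp [hx]))

/-- a closed run is closed under `φ` -/
theorem Run.closed {φ : Perm D} {s : D} {M : List D} (h : Run φ s M s) {d : D}
    (hd : φ d = s ∨ φ d ∈ M) : d = s ∨ d ∈ M := by
  obtain ⟨x, hx, hx2⟩ := h.pred (φ d) (hd.symm)
  rw [← φ.injective hx2]
  exact hx

theorem Run.closed_same [Finite D] {φ : Perm D} {s : D} {M : List D} (h : Run φ s M s) {d e : D}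
    (hde : SameCycle φ d e) (he : e = s ∨ e ∈ M) : d = s ∨ d ∈ M := by
  obtain ⟨k, hk⟩ := hde.exists_nat_pow_eq
  induction k generalizing d with
  | zero =>
    simp at hk
    rw [hk]; exact he
  | succ k ih =>
    rw [pow_succ, Equiv.Perm.mul_apply] at hk
    have := ih (d := φ d) ⟨k, by rw [zpow_natCast]; exact hk⟩ hk
    exact h.closed this

/-- labelled maps of genus zero: `φ` = face permutation, `α` = reversal, `lam` = initial vertex -/
structure PM (φ α : Perm D) (lam : D → V) : Prop where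
  inv : ∀ d, α (α d) = d
  g0 : G0 φ α
  head : ∀ d, lam (φ d) = lam (α d)

theorem PM.lam_same [Finite D] {φ α : Perm D} {lam : D → V} (h : PM φ α lam) {a b : D}
    (hab : SameCycle (φ * α) a b) : lam a = lam b := by
  let s : Setoid D := (⊥ : Setoid V).comap lam
  refine sc_le (s := s) (fun a => ?_) hab
  change lam a = lam (φ (α a))
  rw [h.head, h.inv]

/-- deletion of an edge which separates two faces -/
theorem PM.del [Finite D] [DecidableEq D] {φ α : Perm D} {lam : D → V} (h : PM φ α lam)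
    {r r' : D} (hr : α r = r') (hn : ¬ SameCycle φ r r') (h1 : φ r ≠ r) (h2 : φ r' ≠ r') :
    ∃ φ2 α2 : Perm D, PM φ2 α2 lam ∧ φ2 r = r ∧ φ2 r' = r' ∧ α2 r = r ∧ α2 r' = r' ∧
      (∀ d, d ≠ r → d ≠ r' → α2 d = α d) ∧
      (∀ d, d ≠ r → d ≠ r' → φ d = r → φ2 d = φ r') ∧
      (∀ d, d ≠ r → d ≠ r' → φ d = r' → φ2 d = φ r) ∧
      (∀ d, d ≠ r → d ≠ r' → φ d ≠ r → φ d ≠ r' → φ2 d = φ d) ∧
      (∀ a b, a ≠ r → a ≠ r' → b ≠ r → b ≠ r' → (cs φ α a b ↔ cs φ2 α2 a b)) ∧
      (∀ a b, a ≠ r → a ≠ r' → b ≠ r → b ≠ r' → SameCycle (φ * α) a b →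
        SameCycle (φ2 * α2) a b) := by
  have hr' : α r' = r := by rw [← hr, h.inv]
  have hrr : r ≠ r' := fun hc => hn (hc ▸ SameCycle.refl _ _)
  have h3 : φ r ≠ r' := fun hc => hn ⟨1, by simpa using hc⟩
  have h4 : φ r' ≠ r := fun hc => hn (SameCycle.symm ⟨1, by simpa using hc⟩)
  obtain ⟨g1, m1, c1⟩ := h.g0.del hr hr' hn
  set φ1 := φ * swap r r' with hφ1
  set α2 := α * swap r r' with hα2
  have φ1r : φ1 r = φ r' := by simp [hφ1]
  have φ1r' : φ1 r' = φ r := by simp [hφ1]
  have φ1o : ∀ d, d ≠ r → d ≠ r' → φ1 d = φ d := fun d hd hd' => by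
    simp [hφ1, swap_apply_of_ne_of_ne hd hd']
  have α2r : α2 r = r := by simp [hα2, hr']
  have α2r' : α2 r' = r' := by simp [hα2, hr]
  have α2o : ∀ d, d ≠ r → d ≠ r' → α2 d = α d := fun d hd hd' => by
    simp [hα2, swap_apply_of_ne_of_ne hd hd']
  obtain ⟨g2, m2, c2⟩ := G0.skip g1 α2r
  set φa := skip φ1 r with hφa
  obtain ⟨g3, m3, c3⟩ := G0.skip g2 α2r'
  set φ2 := skip φa r' with hφ2
  have φar : φa r = r := skip_self _ _
  have φar' : φa r' = φ r := by
    rw [hφa, skip_ne φ1 r hrr.symm (by rw [φ1r']; exact h1), φ1r']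
  have φ2r : φ2 r = r := by
    rw [hφ2, skip_ne φa r' hrr (by rw [φar]; exact hrr), φar]
  have φ2r' : φ2 r' = r' := skip_self _ _
  have v1 : ∀ d, d ≠ r → d ≠ r' → φ d = r → φ2 d = φ r' := by
    intro d hd hd' hdr
    have e1 : φa d = φ r' := by
      rw [hφa, skip_eq φ1 r (by rw [φ1o d hd hd']; exact hdr), φ1r]
    rw [hφ2, skip_ne φa r' hd' (by rw [e1]; exact h2), e1]
  have v2 : ∀ d, d ≠ r → d ≠ r' → φ d = r' → φ2 d = φ r := by
    intro d hd hd' hdr
    have e1 : φa d = r' := by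
      rw [hφa, skip_ne φ1 r hd (by rw [φ1o d hd hd', hdr]; exact hrr.symm), φ1o d hd hd', hdr]
    rw [hφ2, skip_eq φa r' e1, φar']
  have v3 : ∀ d, d ≠ r → d ≠ r' → φ d ≠ r → φ d ≠ r' → φ2 d = φ d := by
    intro d hd hd' hdr hdr'
    have e1 : φa d = φ d := by
      rw [hφa, skip_ne φ1 r hd (by rw [φ1o d hd hd']; exact hdr), φ1o d hd hd']
    rw [hφ2, skip_ne φa r' hd' (by rw [e1]; exact hdr'), e1]
  refine ⟨φ2, α2, ⟨?_, g3, ?_⟩, φ2r, φ2r', α2r, α2r', α2o, v1, v2, v3, ?_, ?_⟩
  · intro d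
    by_cases hd : d = r
    · rw [hd, α2r, α2r]
    · by_cases hd' : d = r'
      · rw [hd', α2r', α2r']
      · rw [α2o d hd hd', α2o, h.inv]
        · intro hc; exact hd' (by rw [← h.inv d, hc, hr])
        · intro hc; exact hd (by rw [← h.inv d, hc, hr'])
  · intro d
    by_cases hd : d = r
    · rw [hd, φ2r, α2r]
    · by_cases hd' : d = r'
      · rw [hd', φ2r', α2r']
      · rw [α2o d hd hd', ← h.head]
        by_cases hdr : φ d = r
        · rw [v1 d hd hd' hdr, hdr, h.head, hr']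
        · by_cases hdr' : φ d = r'
          · rw [v2 d hd hd' hdr', hdr', h.head, hr]
          · rw [v3 d hd hd' hdr hdr']
  · intro a b ha ha' hb hb'
    rw [c1, c2 a b ha hb, c3 a b ha' hb']
  · intro a b ha ha' hb hb' hab
    rw [m3, m2, m1]
    exact skip_sameCycle _ _ ha' hb' (skip_sameCycle _ _ ha hb hab)

theorem lswap_merge [Finite D] [DecidableEq D] (f : Perm D) {x y : D} (h : ¬ SameCycle f x y)
    {a b : D} (hab : SameCycle (swap x y * f) a b) : mrg (SameCycle.setoid f) x y a b := by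
  rw [swap_mul_eq_mul_swap] at hab
  have h1 : ¬ SameCycle f (f⁻¹ x) (f⁻¹ y) := by simpa using h
  have h2 := (swap_merge f h1 a b).1 hab
  have hx : SameCycle f (f⁻¹ x) x := ⟨1, by simp⟩
  have hy : SameCycle f (f⁻¹ y) y := ⟨1, by simp⟩
  rcases h2 with h3 | ⟨h3, h4⟩ | ⟨h3, h4⟩
  · exact Or.inl h3
  · exact Or.inr (Or.inl ⟨SameCycle.trans h3 hx, SameCycle.trans hy.symm h4⟩)
  · exact Or.inr (Or.inr ⟨SameCycle.trans h3 hy, SameCycle.trans hx.symm h4⟩)

/-- splitting of a vertex at two corners of one face -/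
theorem PM.split [Finite D] [DecidableEq D] {φ α : Perm D} {lam : D → V} (h : PM φ α lam)
    {x y : D} (hxy : x ≠ y) (hl : lam x = lam y) (h1 : SameCycle φ x y)
    (h2 : SameCycle (φ * α) x y) :
    PM (swap x y * φ) α lam ∧ ¬ cs (swap x y * φ) α x y ∧
      (∀ a b, cs φ α a b ↔ mrg (cs (swap x y * φ) α) x y a b) ∧
      (∀ a b, SameCycle (φ * α) a b →
        mrg (SameCycle.setoid ((swap x y * φ) * α)) x y a b) := by
  obtain ⟨g1, g2, g3⟩ := h.g0.split hxy h1 h2
  refine ⟨⟨h.inv, g1, ?_⟩, g2, g3, ?_⟩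
  · intro d
    rw [← h.head, Equiv.Perm.mul_apply]
    by_cases hx : φ d = x
    · rw [hx, swap_apply_left, hl]
    · by_cases hy : φ d = y
      · rw [hy, swap_apply_right, hl]
      · rw [swap_apply_of_ne_of_ne hx hy]
  · intro a b hab
    have e1 : φ * α = swap x y * ((swap x y * φ) * α) := by
      rw [← mul_assoc, ← mul_assoc, swap_mul_self, one_mul]
    rw [e1] at hab
    exact lswap_merge _ (fun hc => g2 (cs_of_sameCycle_mul hc)) hab

end H71S
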