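import Pool.Agent.Lib.H71S.Thin

set_option autoImplicit false

/-!
# Stars become polygons
-/

namespace H71S

open Equiv Equiv.Perm

variable {D V : Type}

/-- a map with labels in `W`, no loops, and marked triangles -/
structure Fin3 (W : Set V) (φ α : Perm D) (lam : D → V) (Mk : Set D) : Prop where
  lm : LM φ α lam
  lab : ∀ d, α d ≠ d → lam d ∈ W
  loop : ∀ d, α d ≠ d → lam (α d) ≠ lam d
  mark : ∀ d ∈ Mk, φ d ∈ Mk ∧ φ (φ (φ d)) = d ∧ α d ≠ d

theorem star [Finite D] (W : Set V) (Nb : V → Set V) (φ α : Perm D) (lam : D → V)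
    (hNb : ∀ κ, ∀ y ∈ Nb κ, κ ∉ W) (h : Bi W Nb φ α lam)
    (P1 : ∀ d e, α d ≠ d → α e ≠ e → lam d ∉ W → lam d = lam e → lam (α d) = lam (α e) → d = e)
    (P2 : ∀ d, α d ≠ d → lam d ∉ W → (φ * α) d ≠ d) :
    ∃ (φ2 α2 : Perm D) (lam2 : D → V) (Mk : Set D), Fin3 W φ2 α2 lam2 Mk ∧
      (∀ κ, ∀ a ∈ Nb κ, ∀ b ∈ Nb κ, a ≠ b → (∀ y ∈ Nb κ, y = a ∨ y = b) →
        ∃ d, α2 d ≠ d ∧ lam2 d = a ∧ lam2 (α2 d) = b) ∧
      (∀ κ, ∀ a ∈ Nb κ, ∀ b ∈ Nb κ, ∀ c ∈ Nb κ, a ≠ b → a ≠ c → b ≠ c →
        (∀ y ∈ Nb κ, y = a ∨ y = b ∨ y = c) →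
        ∃ d ∈ Mk, ∀ x, (x = a ∨ x = b ∨ x = c) ↔
          (x = lam2 d ∨ x = lam2 (φ2 d) ∨ x = lam2 (φ2 (φ2 d)))) := by
  classical
  have inv := h.lm.inv
  set σ := φ * α with hσ
  have σσ : ∀ d, σ (σ⁻¹ d) = d := fun d => σ.apply_symm_apply d
  have σφ : ∀ d, σ (α d) = φ d := fun d => by
    rw [hσ, Equiv.Perm.mul_apply, inv]
  have σlam : ∀ d, lam (σ d) = lam d := h.lm.vert
  have σdead : ∀ d, α d = d → σ d = d := fun d hd => by
    rw [hσ, Equiv.Perm.mul_apply, hd, h.lm.dead d hd]
  have σlive : ∀ d, α (σ d) = σ d ↔ α d = d := by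
    intro d
    constructor
    · intro hd
      have h1 := σdead _ hd
      rw [← σ.injective h1]
      exact hd
    · intro hd
      rw [σdead d hd]
      exact hd
  -- inner darts
  set N : D → Prop := fun d => α d ≠ d ∧ lam d ∉ W with hN
  have Nσ : ∀ d, N (σ d) ↔ N d := fun d => by
    simp only [hN, ne_eq, σlive d, σlam d]
  have Nσ' : ∀ d, N (σ⁻¹ d) ↔ N d := fun d => by
    have := Nσ (σ⁻¹ d)
    rw [σσ] at this
    exact this.symm
  have Nα : ∀ d, N d → ¬ N (α d) := by
    rintro d ⟨h1, h2⟩ ⟨h3, h4⟩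
    exact h2 ((h.bip d h1).2 h4)
  have Nα' : ∀ d, α d ≠ d → ¬ N d → N (α d) := by
    intro d h1 h2
    have h3 : lam d ∈ W := by
      by_contra hc
      exact h2 ⟨h1, hc⟩
    refine ⟨fun hc => h1 ?_, (h.bip d h1).1 h3⟩
    rw [inv] at hc
    exact hc.symm
  have Ndead : ∀ d, ¬ N d → ¬ N (α d) → α d = d := by
    intro d h1 h2
    by_contra hc
    exact h2 (Nα' d hc h1)
  -- the permutation τ
  set τ : Perm D := Equiv.Perm.ofSubtype (σ.subtypePerm (p := N) (fun d => (Nσ d))) with hτ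
  have τN : ∀ d, N d → τ d = σ d := fun d hd => by
    rw [hτ, Equiv.Perm.ofSubtype_apply_of_mem _ hd]
    rfl
  have τn : ∀ d, ¬ N d → τ d = d := fun d hd =>
    Equiv.Perm.ofSubtype_apply_of_not_mem _ hd
  have τN' : ∀ d, N d → τ⁻¹ d = σ⁻¹ d := fun d hd => by
    rw [Equiv.Perm.inv_eq_iff_eq, τN _ ((Nσ' d).2 hd), σσ]
  have τn' : ∀ d, ¬ N d → τ⁻¹ d = d := fun d hd => by
    rw [Equiv.Perm.inv_eq_iff_eq, τn _ hd]
  set α2 : Perm D := τ * α * τ⁻¹ with hα2
  set σ2 : Perm D := σ * τ⁻¹ * α with hσ2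
  set φ2 : Perm D := σ2 * α2 with hφ2
  have α2i : ∀ d, α2 (α2 d) = d := fun d => by
    simp [hα2, inv]
  have σ2φ : φ2 * α2 = σ2 := by
    ext1 d
    rw [hφ2]
    simp only [Equiv.Perm.mul_apply, α2i]
  have α2a : ∀ d, N d → α2 d = α (σ⁻¹ d) := fun d hd => by
    have h1 : N (σ⁻¹ d) := (Nσ' d).2 hd
    rw [hα2, Equiv.Perm.mul_apply, Equiv.Perm.mul_apply, τN' d hd, τn _ (Nα _ h1)]
  have α2b : ∀ d, N (α d) → α2 d = σ (α d) := fun d hd => by
    have h1 : ¬ N d := fun hc => Nα d hc hd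
    rw [hα2, Equiv.Perm.mul_apply, Equiv.Perm.mul_apply, τn' d h1, τN _ hd]
  have α2c : ∀ d, α d = d → α2 d = d := fun d hd => by
    have h1 : ¬ N d := fun hc => hc.1 hd
    rw [hα2, Equiv.Perm.mul_apply, Equiv.Perm.mul_apply, τn' d h1, hd, τn d h1]
  have σ2a : ∀ d, N d → σ2 d = σ (α d) := fun d hd => by
    rw [hσ2, Equiv.Perm.mul_apply, Equiv.Perm.mul_apply, τn' _ (Nα d hd)]
  have σ2b : ∀ d, N (α d) → σ2 d = α d := fun d hd => by
    rw [hσ2, Equiv.Perm.mul_apply, Equiv.Perm.mul_apply, τN' _ hd, σσ]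
  have σ2c : ∀ d, α d = d → σ2 d = d := fun d hd => by
    have h1 : ¬ N d := fun hc => hc.1 hd
    rw [hσ2, Equiv.Perm.mul_apply, Equiv.Perm.mul_apply, hd, τn' d h1, σdead d hd]
  have φ2a : ∀ d, N d → φ2 d = σ⁻¹ d := fun d hd => by
    have h1 : N (σ⁻¹ d) := (Nσ' d).2 hd
    rw [hφ2, Equiv.Perm.mul_apply, α2a d hd, σ2b _ (by rw [inv]; exact h1), inv]
  have φ2b : ∀ d, N (α d) → φ2 d = φ (φ d) := fun d hd => by
    rw [hφ2, Equiv.Perm.mul_apply, α2b d hd, σ2a _ ((Nσ _).2 hd), σφ, σφ]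
  have φ2c : ∀ d, α d = d → φ2 d = d := fun d hd => by
    rw [hφ2, Equiv.Perm.mul_apply, α2c d hd, σ2c d hd]
  have hcase : ∀ d, N d ∨ N (α d) ∨ α d = d := by
    intro d
    by_cases h1 : N d
    · exact Or.inl h1
    · by_cases h2 : N (α d)
      · exact Or.inr (Or.inl h2)
      · exact Or.inr (Or.inr (Ndead d h1 h2))
  have hsc : ∀ (f : Perm D) (d : D), SameCycle f d (f d) := fun f d => ⟨1, by rw [zpow_one]⟩
  -- genus
  have hinvN : ∀ a b, SameCycle σ a b → (N a ↔ N b) := by
    intro a b hab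
    let s : Setoid D :=
      { r := fun a b => N a ↔ N b
        iseqv := ⟨fun _ => Iff.rfl, fun h => h.symm, fun h1 h2 => h1.trans h2⟩ }
    exact sc_le (s := s) (fun a => (Nσ a).symm) hab
  let Nq : Quotient (SameCycle.setoid σ) → Prop :=
    Quotient.lift N (fun a b hab => propext (hinvN a b hab))
  have hNq : ∀ d, Nq (Quotient.mk _ d) ↔ N d := fun d => Iff.rfl
  have c1 : Nat.card (Quotient (SameCycle.setoid φ) ⊕
      {q : Quotient (SameCycle.setoid σ) // Nq q}) ≤ cyc φ2 := by
    refine cyc_ge φ2 (fun d => if hd : N d then Sum.inr ⟨Quotient.mk _ d, hd⟩ else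
      Sum.inl (Quotient.mk _ d)) ?_ ?_
    · intro d
      rcases hcase d with h1 | h1 | h1
      · have h2 : N (φ2 d) := by rw [φ2a d h1]; exact (Nσ' d).2 h1
        simp only [dif_pos h1, dif_pos h2]
        refine congrArg Sum.inr (Subtype.ext (Quotient.sound ?_))
        change SameCycle σ (φ2 d) d
        rw [φ2a d h1]
        exact ⟨1, by simp⟩
      · have h0 : ¬ N d := fun hc => Nα d hc h1
        have h3 : N (φ d) := by rw [← σφ]; exact (Nσ _).2 h1
        have h2 : ¬ N (φ2 d) := by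
          rw [φ2b d h1, ← σφ (φ d), Nσ]
          exact Nα _ h3
        simp only [dif_neg h0, dif_neg h2]
        refine congrArg Sum.inl (Quotient.sound ?_)
        change SameCycle φ (φ2 d) d
        rw [φ2b d h1]
        exact ((hsc φ d).trans (hsc φ _)).symm
      · rw [φ2c d h1]
    · rintro (q | ⟨q, hq⟩)
      · obtain ⟨d, rfl⟩ := Quotient.exists_rep q
        by_cases hd : N d
        · have h2 : ¬ N (φ d) := by
            rw [← σφ, Nσ]; exact Nα d hd
          refine ⟨φ d, ?_⟩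
          simp only [dif_neg h2]
          refine congrArg Sum.inl (Quotient.sound ?_)
          exact (hsc φ d).symm
        · exact ⟨d, by simp only [dif_neg hd]⟩
      · obtain ⟨d, rfl⟩ := Quotient.exists_rep q
        have hd : N d := hq
        exact ⟨d, by simp only [dif_pos hd]⟩
  have c2 : Nat.card {q : Quotient (SameCycle.setoid σ) // ¬ Nq q} ≤ cyc σ2 := by
    refine cyc_ge σ2 (fun d => if hd : N d then ⟨Quotient.mk _ (α d), Nα d hd⟩ else
      ⟨Quotient.mk _ d, hd⟩) ?_ ?_
    · intro d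
      rcases hcase d with h1 | h1 | h1
      · have h2 : ¬ N (σ2 d) := by rw [σ2a d h1, Nσ]; exact Nα d h1
        simp only [dif_pos h1, dif_neg h2]
        refine Subtype.ext (Quotient.sound ?_)
        change SameCycle σ (σ2 d) (α d)
        rw [σ2a d h1]
        exact (hsc σ _).symm
      · have h0 : ¬ N d := fun hc => Nα d hc h1
        have h2 : N (σ2 d) := by rw [σ2b d h1]; exact h1
        simp only [dif_neg h0, dif_pos h2]
        refine Subtype.ext (Quotient.sound ?_)
        change SameCycle σ (α (σ2 d)) d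
        rw [σ2b d h1, inv]
      · rw [σ2c d h1]
    · rintro ⟨q, hq⟩
      obtain ⟨d, rfl⟩ := Quotient.exists_rep q
      have hd : ¬ N d := hq
      exact ⟨d, by simp only [dif_neg hd]⟩
  have c3 : cyc α ≤ cyc α2 := by
    refine cyc_ge α2 (fun d => Quotient.mk (SameCycle.setoid α) (τ⁻¹ d)) ?_ ?_
    · intro d
      refine Quotient.sound ?_
      change SameCycle α (τ⁻¹ (α2 d)) (τ⁻¹ d)
      have : τ⁻¹ (α2 d) = α (τ⁻¹ d) := by simp [hα2]
      rw [this]
      exact (hsc α _).symm
    · intro q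
      obtain ⟨d, rfl⟩ := Quotient.exists_rep q
      exact ⟨τ d, by simp⟩
  have c4 : comps φ2 α2 ≤ comps φ α := by
    refine ncl_anti fun a b hab => ?_
    have hs2 : ∀ d, cs φ2 α2 d (σ2 d) := fun d => by
      have := cs_mul φ2 α2 d
      rwa [σ2φ] at this
    refine cs_le (s := cs φ2 α2) (fun d => ?_) (fun d => ?_) hab
    · rcases hcase d with h1 | h1 | h1
      · rw [← σφ, ← σ2a d h1]; exact hs2 d
      · rw [← σφ, ← α2b d h1]; exact cs_right _ _ _
      · rw [h.lm.dead d h1]
    · rcases hcase d with h1 | h1 | h1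
      · have h2 := hs2 (α d)
        rw [σ2b (α d) (by rw [inv]; exact h1), inv] at h2
        exact (cs φ2 α2).symm h2
      · rw [← σ2b d h1]; exact hs2 d
      · rw [h1]
  have c5 : Nat.card {q : Quotient (SameCycle.setoid σ) // Nq q} +
      Nat.card {q : Quotient (SameCycle.setoid σ) // ¬ Nq q} = cyc σ := by
    rw [← Nat.card_sum]
    exact Nat.card_congr (Equiv.sumCompl _)
  rw [Nat.card_sum] at c1
  have c6 : Nat.card (Quotient (SameCycle.setoid φ)) = cyc φ := rfl
  have c0 : cyc φ + cyc α + cyc σ = Nat.card D + 2 * comps φ α := h.lm.g0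
  have g0 : G0 φ2 α2 := by
    apply G0_of_le
    rw [σ2φ]
    omega
  -- labels
  set lam2 : D → V := fun d => if N d then lam (α d) else lam d with hlam2
  have la : ∀ d, N d → lam2 d = lam (α d) := fun d hd => by simp only [hlam2, if_pos hd]
  have lb : ∀ d, ¬ N d → lam2 d = lam d := fun d hd => by simp only [hlam2, if_neg hd]
  have live2 : ∀ d, α2 d ≠ d → α d ≠ d := fun d hd hc => hd (α2c d hc)
  have live2' : ∀ d, α d ≠ d → α2 d ≠ d := by
    intro d hd hc
    rcases hcase d with h1 | h1 | h1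
    · rw [α2a d h1] at hc
      have h2 := Nα _ ((Nσ' d).2 h1)
      rw [hc] at h2
      exact h2 h1
    · rw [α2b d h1] at hc
      have h2 : N d := by rw [← hc]; exact (Nσ _).2 h1
      exact Nα d h2 h1
    · exact hd h1
  have lm2 : LM φ2 α2 lam2 := by
    refine ⟨α2i, g0, ?_, ?_, ?_⟩
    · intro d
      rw [σ2φ]
      rcases hcase d with h1 | h1 | h1
      · have h2 : ¬ N (σ2 d) := by rw [σ2a d h1, Nσ]; exact Nα d h1
        rw [la d h1, lb _ h2, σ2a d h1, σlam]
      · have h0 : ¬ N d := fun hc => Nα d hc h1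
        have h2 : N (σ2 d) := by rw [σ2b d h1]; exact h1
        rw [lb d h0, la _ h2, σ2b d h1, inv]
      · rw [σ2c d h1]
    · intro d hd
      refine φ2c d ?_
      by_contra hc
      exact live2' d hc hd
    · intro a b ha hb hab
      rw [σ2φ]
      have ha' := live2 a ha
      have hb' := live2 b hb
      have hred : ∀ a, α a ≠ a → ∃ a', ¬ N a' ∧ α a' ≠ a' ∧ lam a' = lam2 a ∧
          SameCycle σ2 a' a := by
        intro a ha
        by_cases h1 : N a
        · refine ⟨α a, Nα a h1, ?_, (la a h1).symm, ?_⟩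
          · rw [inv]; exact fun hc => ha hc.symm
          · refine ⟨1, ?_⟩
            rw [zpow_one, σ2b (α a) (by rw [inv]; exact h1), inv]
        · exact ⟨a, h1, ha, (lb a h1).symm, SameCycle.refl _ _⟩
      obtain ⟨a', a1, a2, a3, a4⟩ := hred a ha'
      obtain ⟨b', b1, b2, b3, b4⟩ := hred b hb'
      have h1 : SameCycle σ a' b' := h.lm.dist a' b' a2 b2 (by rw [a3, b3, hab])
      have h2 : SameCycle σ2 a' b' := by
        let s : Setoid D := (SameCycle.setoid σ2).comap (fun d => if N d then a' else d)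
        have h3 : s a' b' := by
          refine sc_le (s := s) (fun d => ?_) h1
          change SameCycle σ2 (if N d then a' else d) (if N (σ d) then a' else σ d)
          by_cases h4 : N d
          · rw [if_pos h4, if_pos ((Nσ d).2 h4)]
          · rw [if_neg h4, if_neg (fun hc => h4 ((Nσ d).1 hc))]
            rcases hcase d with h5 | h5 | h5
            · exact absurd h5 h4
            · have h6 := hsc σ2 d
              have h7 := hsc σ2 (σ2 d)
              rw [σ2b d h5] at h6 h7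
              rw [σ2a _ h5, inv] at h7
              exact h6.trans h7
            · rw [σdead d h5]
        change SameCycle σ2 (if N a' then a' else a') (if N b' then a' else b') at h3
        rwa [if_neg a1, if_neg b1] at h3
      exact a4.symm.trans (h2.trans b4)
  -- a vertex outside of W
  have hat : ∀ κ, ∀ a ∈ Nb κ, ∀ b ∈ Nb κ, a ≠ b → ∀ y ∈ Nb κ, ∃ d, N d ∧ lam d = κ ∧
      lam (α d) = y := by
    intro κ a ha b hb hab y hy
    have hκ := hNb κ a ha
    rcases h.nb κ with h1 | h1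
    · obtain ⟨d, hd, hd1, hd2⟩ := h1 y hy
      exact ⟨d, ⟨hd, by rw [hd1]; exact hκ⟩, hd1, hd2⟩
    · exact absurd (h1 a ha b hb) hab
  have huq : ∀ d e, N d → N e → lam d = lam e → lam (α d) = lam (α e) → d = e :=
    fun d e hd he h1 h2 => P1 d e hd.1 he.1 hd.2 h1 h2
  have hadj : ∀ d, N d → lam (α d) ∈ Nb (lam d) := fun d hd => h.adj d hd.1 hd.2
  have hne : ∀ d, N d → σ d ≠ d := fun d hd => P2 d hd.1 hd.2
  -- the labels along the polygon
  have loopN : ∀ d, N d → lam (α (σ d)) ≠ lam (α d) := by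
    intro d hd hc
    exact hne d hd (huq (σ d) d ((Nσ d).2 hd) hd (σlam d) hc)
  set Mk : Set D := {d | N d ∧ σ (σ (σ d)) = d} with hMk
  refine ⟨φ2, α2, lam2, Mk, ⟨lm2, ?_, ?_, ?_⟩, ?_, ?_⟩
  · intro d hd
    have hd' := live2 d hd
    by_cases h1 : N d
    · rw [la d h1]
      by_contra hc
      exact Nα d h1 ⟨fun h2 => h1.1 (by rw [inv] at h2; exact h2.symm), hc⟩
    · rw [lb d h1]
      by_contra hc
      exact h1 ⟨hd', hc⟩
  · intro d hd
    rcases hcase d with h1 | h1 | h1
    · have h2 : N (σ⁻¹ d) := (Nσ' d).2 h1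
      rw [α2a d h1, la d h1, lb _ (Nα _ h2)]
      have h3 := loopN _ h2
      rw [σσ] at h3
      exact fun hc => h3 hc.symm
    · have h0 : ¬ N d := fun hc => Nα d hc h1
      rw [α2b d h1, lb d h0, la _ ((Nσ _).2 h1)]
      have h3 := loopN _ h1
      rw [inv] at h3
      exact h3
    · exact absurd (α2c d h1) hd
  · rintro d ⟨hd, hd3⟩
    have e1 : N (σ⁻¹ d) := (Nσ' d).2 hd
    have e2 : N (σ⁻¹ (σ⁻¹ d)) := (Nσ' _).2 e1
    have e3 : σ⁻¹ (σ⁻¹ (σ⁻¹ d)) = d := by
      apply σ.injective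
      apply σ.injective
      apply σ.injective
      rw [σσ, σσ, σσ, hd3]
    refine ⟨⟨?_, ?_⟩, ?_, live2' d hd.1⟩
    · rw [φ2a d hd]; exact e1
    · rw [φ2a d hd, σσ]
      apply σ.injective
      rw [hd3, σσ]
    · rw [φ2a d hd, φ2a _ e1, φ2a _ e2, e3]
  · -- two neighbours
    intro κ a ha b hb hab hall
    obtain ⟨da, na, ka, la'⟩ := hat κ a ha b hb hab a ha
    have h1 : N (σ da) := (Nσ da).2 na
    have h2 := hadj _ h1
    rw [σlam, ka] at h2
    have h3 : lam (α (σ da)) = b := by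
      rcases hall _ h2 with h4 | h4
      · exact absurd (h4.trans la'.symm) (loopN da na)
      · exact h4
    refine ⟨α da, live2' _ (fun hc => na.1 (by rw [inv] at hc; exact hc.symm)), ?_, ?_⟩
    · rw [lb _ (Nα _ na), la']
    · rw [α2b _ (by rw [inv]; exact na), inv, la _ h1, h3]
  · -- three neighbours
    intro κ a ha b hb c hc hab hac hbc hall
    obtain ⟨da, na, ka, la'⟩ := hat κ a ha b hb hab a ha
    have hnd : ∀ d, N d → lam d = κ → lam (α d) = a ∨ lam (α d) = b ∨ lam (α d) = c := by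
      intro d hd hdκ
      have := hadj d hd
      rw [hdκ] at this
      exact hall _ this
    obtain ⟨db, nb, kb, lb'⟩ := hat κ a ha b hb hab b hb
    obtain ⟨dc, nc, kc, lc'⟩ := hat κ a ha b hb hab c hc
    have hthree : ∀ d, N d → lam d = κ → d = da ∨ d = db ∨ d = dc := by
      intro d hd hdκ
      rcases hnd d hd hdκ with h1 | h1 | h1
      · exact Or.inl (huq d da hd na (hdκ.trans ka.symm) (h1.trans la'.symm))
      · exact Or.inr (Or.inl (huq d db hd nb (hdκ.trans kb.symm) (h1.trans lb'.symm)))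
      · exact Or.inr (Or.inr (huq d dc hd nc (hdκ.trans kc.symm) (h1.trans lc'.symm)))
    have dab : da ≠ db := fun h => hab (by rw [← la', h, lb'])
    have dac : da ≠ dc := fun h => hac (by rw [← la', h, lc'])
    have dbc : db ≠ dc := fun h => hbc (by rw [← lb', h, lc'])
    have N1 : N (σ da) := (Nσ _).2 na
    have N2 : N (σ (σ da)) := (Nσ _).2 N1
    have k1 : lam (σ da) = κ := (σlam _).trans ka
    have k2 : lam (σ (σ da)) = κ := (σlam _).trans k1
    have n1 : σ da ≠ da := hne da na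
    -- `σ (σ da) ≠ da`
    have n2 : σ (σ da) ≠ da := by
      intro hc2
      have hclosed : ∀ d, SameCycle σ da d → d = da ∨ d = σ da := by
        intro d hd
        let s : Setoid D :=
          { r := fun x y => (x = da ∨ x = σ da) ↔ (y = da ∨ y = σ da)
            iseqv := ⟨fun _ => Iff.rfl, fun h => h.symm, fun h1 h2 => h1.trans h2⟩ }
        have : s da d := by
          refine sc_le (s := s) (fun x => ?_) hd
          change (x = da ∨ x = σ da) ↔ (σ x = da ∨ σ x = σ da)
          constructor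
          · rintro (h5 | h5)
            · exact Or.inr (by rw [h5])
            · exact Or.inl (by rw [h5]; exact hc2)
          · rintro (h5 | h5)
            · exact Or.inr (σ.injective (by rw [h5, hc2]))
            · exact Or.inl (σ.injective h5)
        exact this.1 (Or.inl rfl)
      have hdist : ∀ d, N d → lam d = κ → SameCycle σ da d := fun d hd hdκ =>
        h.lm.dist da d na.1 hd.1 (ka.trans hdκ.symm)
      rcases hclosed db (hdist db nb kb) with h5 | h5
      · exact dab h5.symm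
      · rcases hclosed dc (hdist dc nc kc) with h6 | h6
        · exact dac h6.symm
        · exact dbc (h5.trans h6.symm)
    have n3 : σ (σ da) ≠ σ da := fun hc2 => n1 (σ.injective hc2)
    have n4 : σ (σ (σ da)) = da := by
      have N3 : N (σ (σ (σ da))) := (Nσ _).2 N2
      have k3 : lam (σ (σ (σ da))) = κ := (σlam _).trans k2
      have n5 : σ (σ (σ da)) ≠ σ (σ da) := fun hc2 => n3 (σ.injective hc2)
      have n6 : σ (σ (σ da)) ≠ σ da := fun hc2 => n2 (σ.injective hc2)
      rcases hthree _ N1 k1 with h5 | h5 | h5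
      · exact absurd h5 n1
      · rcases hthree _ N2 k2 with h6 | h6 | h6
        · exact absurd h6 n2
        · exact absurd (h6.trans h5.symm) n3
        · rcases hthree _ N3 k3 with h7 | h7 | h7
          · exact h7
          · exact absurd (h7.trans h5.symm) n6
          · exact absurd (h7.trans h6.symm) n5
      · rcases hthree _ N2 k2 with h6 | h6 | h6
        · exact absurd h6 n2
        · rcases hthree _ N3 k3 with h7 | h7 | h7
          · exact h7
          · exact absurd (h7.trans h6.symm) n5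
          · exact absurd (h7.trans h5.symm) n6
        · exact absurd (h6.trans h5.symm) n3
    have i1 : σ⁻¹ da = σ (σ da) := by
      apply σ.injective
      rw [σσ, n4]
    have i2 : σ⁻¹ (σ (σ da)) = σ da := by
      apply σ.injective
      rw [σσ]
    refine ⟨da, ⟨na, n4⟩, ?_⟩
    intro x
    rw [φ2a da na, i1, φ2a _ N2, i2, la da na, la _ N2, la _ N1]
    rcases hthree _ N1 k1 with h5 | h5 | h5
    · exact absurd h5 n1
    · rcases hthree _ N2 k2 with h6 | h6 | h6
      · exact absurd h6 n2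
      · exact absurd (h6.trans h5.symm) n3
      · rw [h6, h5, la', lb', lc']
        tauto
    · rcases hthree _ N2 k2 with h6 | h6 | h6
      · exact absurd h6 n2
      · rw [h6, h5, la', lb', lc']
      · exact absurd (h6.trans h5.symm) n3

end H71S
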