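import Pool.Agent.Lib.H71S.Contr

set_option autoImplicit false

/-!
# Bipartite maps: parallel edges and pendant edges can be removed
-/

namespace H71S

open Equiv Equiv.Perm

variable {D V : Type}

/-- bipartite maps between `W` and its complement -/
structure Bi (W : Set V) (Nb : V → Set V) (φ α : Perm D) (lam : D → V) : Prop where
  lm : LM φ α lam
  bip : ∀ d, α d ≠ d → (lam d ∈ W ↔ lam (α d) ∉ W)
  adj : ∀ d, α d ≠ d → lam d ∉ W → lam (α d) ∈ Nb (lam d)
  nb : ∀ κ, (∀ y ∈ Nb κ, ∃ d, α d ≠ d ∧ lam d = κ ∧ lam (α d) = y) ∨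
    (∀ y ∈ Nb κ, ∀ y' ∈ Nb κ, y = y')

theorem Killed.live {φ α φ2 α2 : Perm D} {r r' : D} (hk : Killed φ α φ2 α2 r r') {d : D}
    (h : α2 d ≠ d) : d ≠ r ∧ d ≠ r' ∧ α2 d = α d ∧ α d ≠ d := by
  have h1 : d ≠ r := fun hc => h (by rw [hc, hk.a1])
  have h2 : d ≠ r' := fun hc => h (by rw [hc, hk.a2])
  have h3 := hk.a3 d h1 h2
  exact ⟨h1, h2, h3, by rw [← h3]; exact h⟩

theorem thin [Finite D] (W : Set V) (Nb : V → Set V) (hNb : ∀ κ, ∀ y ∈ Nb κ, κ ∉ W)
    (lam : D → V) (n : ℕ) : ∀ φ α : Perm D, Bi W Nb φ α lam → Nat.card {d // α d ≠ d} ≤ n →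
    ∃ φ2 α2 : Perm D, Bi W Nb φ2 α2 lam ∧
      (∀ d e, α2 d ≠ d → α2 e ≠ e → lam d ∉ W → lam d = lam e → lam (α2 d) = lam (α2 e) →
        d = e) ∧
      (∀ d, α2 d ≠ d → lam d ∉ W → (φ2 * α2) d ≠ d) := by
  classical
  induction n with
  | zero =>
    intro φ α h hn
    have hno : ∀ d, α d ≠ d → False := by
      intro d hd
      have : Nonempty {d // α d ≠ d} := ⟨⟨d, hd⟩⟩
      have := Nat.card_pos (α := {d // α d ≠ d})
      omega
    exact ⟨φ, α, h, fun d e hd _ _ _ _ => (hno d hd).elim, fun d hd _ => (hno d hd).elim⟩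
  | succ n ih =>
    intro φ α h hn
    by_cases h1 : ∀ d e, α d ≠ d → α e ≠ e → lam d ∉ W → lam d = lam e →
        lam (α d) = lam (α e) → d = e
    · by_cases h2 : ∀ d, α d ≠ d → lam d ∉ W → (φ * α) d ≠ d
      · exact ⟨φ, α, h, h1, h2⟩
      · push Not at h2
        obtain ⟨e, he, heW, hσ⟩ := h2
        obtain ⟨φ2, α2, hlm, hk⟩ := h.lm.del (r := e) (r' := α e) rfl (Ne.symm he)
        have hlt := live_lt (r := e) (r' := α e) rfl (Ne.symm he) hk
        have huniq : ∀ d, α d ≠ d → lam d = lam e → d = e := by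
          intro d hd hde
          have h3 : SameCycle (φ * α) e d := h.lm.dist e d he hd hde.symm
          obtain ⟨k, hk⟩ := h3
          rw [Equiv.Perm.zpow_apply_eq_self_of_apply_eq_self hσ] at hk
          exact hk.symm
        refine ih φ2 α2 ⟨hlm, ?_, ?_, ?_⟩ (by omega)
        · intro d hd
          obtain ⟨k1, k2, k3, k4⟩ := hk.live hd
          rw [k3]; exact h.bip d k4
        · intro d hd hdW
          obtain ⟨k1, k2, k3, k4⟩ := hk.live hd
          rw [k3]; exact h.adj d k4 hdW
        · intro κ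
          by_cases hκ : κ = lam e
          · right
            rcases h.nb κ with h3 | h3
            · intro y hy y' hy'
              obtain ⟨d, hd, hd1, hd2⟩ := h3 y hy
              obtain ⟨d', hd', hd1', hd2'⟩ := h3 y' hy'
              have e1 := huniq d hd (hd1.trans hκ)
              have e2 := huniq d' hd' (hd1'.trans hκ)
              rw [← hd2, ← hd2', e1, e2]
            · exact h3
          · rcases h.nb κ with h3 | h3
            · left
              intro y hy
              obtain ⟨d, hd, hd1, hd2⟩ := h3 y hy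
              have hκW := hNb κ y hy
              have k1 : d ≠ e := fun hc => hκ (by rw [← hd1, hc])
              have k2 : d ≠ α e := by
                rintro rfl
                exact heW ((h.bip e he).2 (by rw [hd1]; exact hκW))
              have k3 := hk.a3 d k1 k2
              exact ⟨d, by rw [k3]; exact hd, hd1, by rw [k3]; exact hd2⟩
            · exact Or.inr h3
    · push Not at h1
      obtain ⟨d0, e, hd0, he, hW, hde, hde2, hne⟩ := h1
      have heW : lam e ∉ W := by rw [← hde]; exact hW
      obtain ⟨φ2, α2, hlm, hk⟩ := h.lm.del (r := e) (r' := α e) rfl (Ne.symm he)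
      have hlt := live_lt (r := e) (r' := α e) rfl (Ne.symm he) hk
      refine ih φ2 α2 ⟨hlm, ?_, ?_, ?_⟩ (by omega)
      · intro d hd
        obtain ⟨k1, k2, k3, k4⟩ := hk.live hd
        rw [k3]; exact h.bip d k4
      · intro d hd hdW
        obtain ⟨k1, k2, k3, k4⟩ := hk.live hd
        rw [k3]; exact h.adj d k4 hdW
      · intro κ
        rcases h.nb κ with h3 | h3
        · left
          intro y hy
          obtain ⟨d, hd, hd1, hd2⟩ := h3 y hy
          have hκW := hNb κ y hy
          have key : ∀ d, α d ≠ d → lam d = κ → lam (α d) = y → d ≠ e →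
              ∃ d, α2 d ≠ d ∧ lam d = κ ∧ lam (α2 d) = y := by
            intro d hd hd1 hd2 k1
            have k2 : d ≠ α e := by
              rintro rfl
              exact heW ((h.bip e he).2 (by rw [hd1]; exact hκW))
            have k3 := hk.a3 d k1 k2
            exact ⟨d, by rw [k3]; exact hd, hd1, by rw [k3]; exact hd2⟩
          by_cases k1 : d = e
          · subst k1
            exact key d0 hd0 (hde.trans hd1) (hde2.trans hd2) hne
          · exact key d hd hd1 hd2 k1
        · exact Or.inr h3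

end H71S
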